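import Pool.Agent.Helper86.QA.St4

/-!
# Project QD, part A, statements 5: the area of a Fuchsian group depends only on the abstract group

Method: the area cocycle `Ad` of the closed disc, smeared fundamental cycle `K2`, no forms.
`D = ball 0 1`, `SS = sphere 0 1`, `DD = closedBall 0 1`; `m2` is the hyperbolic area measure.
For `A ∈ SU(1,1)` (`IsSU A`): `A = [[a,b],[conj b,conj a]]`, `|a|²-|b|² = 1`.
-/

set_option autoImplicit false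

open MeasureTheory Matrix Set Topology Filter
open scoped ENNReal ComplexConjugate ComplexOrder

namespace Pool.Agent.Helper86.QA

open Pool.Agent.Helper20.QD (Fuch IsSU mob dz dzb)
open Pool.Agent.Helper20

/-- primitive of the area cocycle of the closed disc -/
noncomputable def bd (p q : ℂ) : ℝ := 2 * Complex.arg (1 - p * conj q)

/-- the area cocycle of the closed disc -/
noncomputable def Ad (p q r : ℂ) : ℝ := bd p q + bd q r + bd r p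

/-- the isometry of the disc moving `x` to `0` -/
noncomputable def mq (x y : ℂ) : ℂ := (y - x) / (1 - conj x * y)

/-- the isometry of the disc moving `0` to `x` -/
noncomputable def pm (x u : ℂ) : ℂ := (u + x) / (1 + conj x * u)

/-- hyperbolic area measure of the disc -/
noncomputable def m2 : Measure ℂ :=
  ((volume : Measure ℂ).restrict (Metric.ball 0 1)).withDensity
    (fun z => ENNReal.ofReal (4 / (1 - ‖z‖ ^ 2) ^ 2))

open Classical in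
/-- indicator of a hyperbolic disc -/
noncomputable def k2 (ε : ℝ) (x y : ℂ) : ℝ := if ‖mq x y‖ < ε then 1 else 0

/-- the smeared fundamental cycle -/
noncomputable def K2 (ε : ℝ) (x0 x1 x2 : ℂ) : ℝ :=
  dt2 (mq x0 x1) (mq x0 x2) * k2 ε x0 x1 * k2 ε x0 x2

/-- pairing of the cycle with a cochain -/
noncomputable def V2 (ε : ℝ) (F : Set ℂ) (c : ℂ → ℂ → ℂ → ℝ) : ℝ :=
  ∫ x0 in F, ∫ p : ℂ × ℂ, K2 ε x0 p.1 p.2 * c x0 p.1 p.2 ∂(m2.prod m2) ∂m2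

/-- the normalising constant -/
noncomputable def c2 (ε : ℝ) : ℝ :=
  ∫ p : ℂ × ℂ, K2 ε 0 p.1 p.2 * Ad 0 p.1 p.2 ∂(m2.prod m2)

/-- hyperbolic Jacobian of a map of the disc -/
noncomputable def Jh (E : ℂ → ℂ) (z : ℂ) : ℝ :=
  (‖dz E z‖ ^ 2 - ‖dzb E z‖ ^ 2) * (1 - ‖z‖ ^ 2) ^ 2 / (1 - ‖E z‖ ^ 2) ^ 2

/-- AD1 (the area cocycle).

Proof. For `p, q ∈ DD`, `p conj q ≠ 1`: `Re (1 - p conj q) > 0`, so `|bd p q| < π`, `bd q p = -bd p q` (conjugate); if `p conj q = 1` then `p = q`, `bd = 0` (`arg 0 = 0`). (1), (2) follow (`Ad p p r = bd p r + bd r p = 0`). (3) `A ∈ SU(1,1)`: `1 - mob A p · conj (mob A q) = (1 - p conj q)/(den p · conj (den q))`, `den p = conj b p + conj a ≠ 0`.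
If two of the points coincide both sides are zero (`p conj q = 1` on `DD` means `p = q`; `mob A` is injective). Otherwise `p conj q, q conj r, r conj p ≠ 1` and `arg` of a product gives `Ad (Ap) (Aq) (Ar) - Ad p q r ∈ 4πℤ` (the terms `arg (den)` cancel). The same for `tp, tq, tr`, `t ∈ [0,1]`; the difference is a continuous function of `t` (all arguments of `arg` have positive real part), `4πℤ`-valued, zero at `t = 0`.
(4) measurable. (5) `A` maps `DD` to `DD`, `D` to `D`, `SS` to `SS`. (6) `ξ, η ∈ SS`, `ξ conj η = e^(iθ)`, `0 < θ < 2π`: `1 - e^(iθ) = -2i sin(θ/2) e^(iθ/2)`, `bd ξ η = θ - π`. For three distinct points the sum of the three `θ` is `2π` or `4π` (it is a multiple of `2π` strictly between `0` and `6π`), so `Ad = -π` or `π`.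
(7) `p` with `|p| ≤ r < 1`: with `pm`, `mq` (3) reduces to `p = 0`: `Ad p (p+δ) (p+ε) = Ad 0 u v`, `u = mq p (p+δ) = δ/(1-|p|²-conj p δ) = δ/(1-|p|²) + O(δ²)`, the same for `v`; `Ad 0 u v = bd u v = 2 arg (1 - u conj v) = 2 dt2 u v + O(|u|²|v|²)`. (`mq p` is `mob` of a matrix in `SU(1,1)`.) -/
def StAD1 : Prop :=
  (∀ p ∈ Metric.closedBall (0 : ℂ) 1, ∀ q ∈ Metric.closedBall (0 : ℂ) 1,
    |bd p q| ≤ Real.pi ∧ bd q p = - bd p q) ∧
  (∀ p ∈ Metric.closedBall (0 : ℂ) 1, ∀ q ∈ Metric.closedBall (0 : ℂ) 1,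
    ∀ r ∈ Metric.closedBall (0 : ℂ) 1, |Ad p q r| ≤ 3 * Real.pi ∧
    (p = q ∨ q = r ∨ r = p → Ad p q r = 0)) ∧
  (∀ A : SL, IsSU A → ∀ p ∈ Metric.closedBall (0 : ℂ) 1, ∀ q ∈ Metric.closedBall (0 : ℂ) 1,
    ∀ r ∈ Metric.closedBall (0 : ℂ) 1, Ad (mob A p) (mob A q) (mob A r) = Ad p q r) ∧
  Measurable (fun p : ℂ × ℂ × ℂ => Ad p.1 p.2.1 p.2.2) ∧
  (∀ A : SL, IsSU A → ∀ p : ℂ, (p ∈ Metric.closedBall (0 : ℂ) 1 → QD.den A p ≠ 0 ∧
    mob A p ∈ Metric.closedBall (0 : ℂ) 1) ∧ (p ∈ Metric.ball (0 : ℂ) 1 →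
    mob A p ∈ Metric.ball (0 : ℂ) 1) ∧ (p ∈ Metric.sphere (0 : ℂ) 1 →
    mob A p ∈ Metric.sphere (0 : ℂ) 1)) ∧
  (∀ p ∈ Metric.sphere (0 : ℂ) 1, ∀ q ∈ Metric.sphere (0 : ℂ) 1,
    ∀ r ∈ Metric.sphere (0 : ℂ) 1, p ≠ q → q ≠ r → r ≠ p → Ad p q r = Real.pi ∨
      Ad p q r = - Real.pi) ∧
  (∀ r : ℝ, r < 1 → ∃ C > 0, ∃ δ0 > 0, ∀ p : ℂ, ‖p‖ ≤ r → ∀ δ ε : ℂ, ‖δ‖ ≤ δ0 → ‖ε‖ ≤ δ0 →
    |Ad p (p + δ) (p + ε) - 2 * dt2 δ ε / (1 - ‖p‖ ^ 2) ^ 2| ≤ C * (‖δ‖ + ‖ε‖) ^ 3)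

/-- AD2 (homeomorphisms of the circle preserve the cocycle up to a sign).

Proof. Let `T⁺ = {(x, x e^(ia), x e^(ib)) : x ∈ SS, 0 < a < b < 2π}` and `T⁻` the same with `b < a`; they are connected (images of connected sets `ℝ × {0<a<b<2π}`), every triple of distinct points is in one of them, `Ad` has the constant value `s₀π` on `T⁺`, `-s₀π` on `T⁻` (computation in AD1 (6)). `(p,q,r) ↦ Ad (E p) (E q) (E r)` is continuous on distinct triples (injectivity: all arguments of `arg` have positive real part), with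
values `±π`, so constant on `T⁺` and on `T⁻`; `(p,q,r) ↦ (q,p,r)` exchanges `T⁺` and `T⁻` and changes the sign. If two points coincide both sides are zero. -/
def StAD2 : Prop := ∀ E : ℂ → ℂ, ContinuousOn E (Metric.sphere 0 1) →
  InjOn E (Metric.sphere 0 1) → MapsTo E (Metric.sphere 0 1) (Metric.sphere 0 1) →
  ∃ s : ℝ, (s = 1 ∨ s = -1) ∧ ∀ p ∈ Metric.sphere (0 : ℂ) 1, ∀ q ∈ Metric.sphere (0 : ℂ) 1,
    ∀ r ∈ Metric.sphere (0 : ℂ) 1, Ad (E p) (E q) (E r) = s * Ad p q r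

/-- MQ1 (isometries of the disc and the area measure).

Proof. (1) `1 - |mob A z|² = (1-|z|²)/|den A z|²`, the real Jacobian of `mob A` on `D` is `|den A z|⁻⁴`, `mob A` is a bijection of `D`: change of variables (`lintegral_image_eq_lintegral_abs_det_fderiv_mul`, or CHV (1) with indicator functions). (2) `mq x = mob A` with `A = (1-|x|²)^(-1/2) [[1,-x],[-conj x,1]] ∈ SU(1,1)`, `pm x` is the inverse. (3) `mq (mob A x) ∘ mob A` and `mq x` are isometries of the disc mapping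
`x` to `0`, so they differ by a rotation: `mq (mob A x) (mob A y) = ω mq x y` with `ω = conj (den A x)/den A x` (direct computation), `|ω| = 1`. (4) `m2` is invariant under conjugation. (5) `m2 (closedBall 0 r) < ∞` for `r < 1`. -/
def StMQ1 : Prop :=
  SigmaFinite m2 ∧ m2 (Metric.ball 0 1)ᶜ = 0 ∧
  (∀ A : SL, IsSU A → ∀ f : ℂ → ℝ≥0∞, Measurable f →
    ∫⁻ z, f (mob A z) ∂m2 = ∫⁻ z, f z ∂m2) ∧
  (∀ x ∈ Metric.ball (0 : ℂ) 1, ∃ A : SL, IsSU A ∧ (∀ y, mq x y = mob A y) ∧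
    (∀ u, pm x u = mob A⁻¹ u) ∧ (∀ u ∈ Metric.ball (0 : ℂ) 1, mq x (pm x u) = u ∧
      pm x (mq x u) = u ∧ pm x u ∈ Metric.ball (0 : ℂ) 1 ∧ mq x u ∈ Metric.ball (0 : ℂ) 1)) ∧
  (∀ A : SL, IsSU A → ∀ x ∈ Metric.ball (0 : ℂ) 1, ∀ y ∈ Metric.ball (0 : ℂ) 1,
    mq (mob A x) (mob A y) = conj (QD.den A x) / QD.den A x * mq x y) ∧
  (∀ f : ℂ → ℝ≥0∞, Measurable f → ∫⁻ z, f (conj z) ∂m2 = ∫⁻ z, f z ∂m2) ∧
  (∀ r : ℝ, r < 1 → m2 (Metric.closedBall 0 r) < ∞)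

/-- MQ2 (the kernel).

Proof. `dt2 (ωu) (ωv) = dt2 u v` for `|ω| = 1`, so (1) is MQ1 (5). `|dt2 u v| ≤ |u||v| ≤ ε² ≤ 1` on the support: (2); `∫ k2 ε x y dm2(y) = m2 (ball 0 ε)` (MQ1 (3), (4): substitution `y = pm x u`). (3) `∫ K2 x0 y x2 dm2(y) = k2 x0 x2 ∫_(|u|<ε) dt2 u (mq x0 x2) dm2(u) = 0` (`u ↦ -u`, `mob` of `diag(i,-i)`); (4) the same. (5) `∫ K2 y x1 x2 dm2(y)`: choose `A ∈ SU(1,1)` with `A x1 = 0`, `A x2` real; by (1) and MQ1 (3)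
we may assume `x1, x2` real. `mq (conj y) x = conj (mq y x)` for real `x`, `dt2 (conj u) (conj v) = -dt2 u v`: the substitution `y ↦ conj y` (MQ1 (6)) shows that the integral is its own negative. -/
def StMQ2 : Prop := ∀ ε : ℝ, 0 < ε → ε < 1 →
  (∀ A : SL, IsSU A → ∀ x ∈ Metric.ball (0 : ℂ) 1, ∀ y ∈ Metric.ball (0 : ℂ) 1,
    ∀ z ∈ Metric.ball (0 : ℂ) 1, K2 ε (mob A x) (mob A y) (mob A z) = K2 ε x y z ∧
      k2 ε (mob A x) (mob A y) = k2 ε x y ∧ k2 ε x y = k2 ε y x) ∧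
  (∀ x y z : ℂ, |K2 ε x y z| ≤ k2 ε x y * k2 ε x z) ∧
  (∀ x ∈ Metric.ball (0 : ℂ) 1, ∫⁻ y, ENNReal.ofReal (k2 ε x y) ∂m2 = m2 (Metric.ball 0 ε)) ∧
  Measurable (fun p : ℂ × ℂ × ℂ => K2 ε p.1 p.2.1 p.2.2) ∧
  (∀ x ∈ Metric.ball (0 : ℂ) 1, ∀ y ∈ Metric.ball (0 : ℂ) 1,
    ∫ u, K2 ε x u y ∂m2 = 0 ∧ ∫ u, K2 ε x y u ∂m2 = 0 ∧ ∫ u, K2 ε u x y ∂m2 = 0)

/-- action of a Fuchsian group on the disc -/
noncomputable def ad {Γ : Type} [Group Γ] (σ : Γ →* SL) (γ : Γ) (z : ℂ) : ℂ := mob (σ γ) z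

/-- AFD (the action on the disc, fundamental domains).

Proof. (1) `Γ` countable: `Γ = ⋃_n {hs ≤ n}`. `ActOn`: AD1 (5), MQ1 (2), (3), `mob (AB) z = mob A (mob B z)`, `mob 1 z = z`. (2) Local freeness: `z ∈ D`, `closedBall z r ⊆ D`; the `γ` with `γ (closedBall z r) ∩ closedBall z r ≠ ∅` have bounded `hs` (`1-|mob A z|² = (1-|z|²)/|den|²`, `|den| ≥ |a|(1-|z|)`), so they are finitely many; those different from `1` do not fix `z` (otherwise all powers of `γ` fix `z`: finitely many,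
`γ^n = 1`, torsion free), shrink the ball. FDX with `S = D`, `U = ball 0 r1`, `r1` between the constant `r` of `Fuch.cocompact` and `1`: every point of `D` has a translate in `U`, so `F ⊆ U`. (3) any other fundamental domain has the same area: SW1 (2) with `f = 1`. `ar2 F = (m2 F).toReal`, positive because `D ⊆ ⋃ γ⁻¹F`. -/
def StAFD : Prop := ∀ (Γ : Type) [Group Γ] (σ : Γ →* SL), Fuch σ →
  (∀ (γ : Γ) (n : ℕ), 1 ≤ n → γ ^ n = 1 → γ = 1) →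
  Countable Γ ∧ ActOn (ad σ) (Metric.ball 0 1) m2 ∧
  (∃ (F : Set ℂ) (r : ℝ), r < 1 ∧ FDOn (ad σ) (Metric.ball 0 1) F ∧ F ⊆ Metric.closedBall 0 r) ∧
  (∀ F : Set ℂ, FDOn (ad σ) (Metric.ball 0 1) F → m2 F < ∞ ∧ 0 < m2 F ∧ ar2 F = (m2 F).toReal) ∧
  (∀ F F' : Set ℂ, FDOn (ad σ) (Metric.ball 0 1) F → FDOn (ad σ) (Metric.ball 0 1) F' →
    m2 F = m2 F')

/-- AV0 (coboundaries of bounded invariant functions have zero pairing).

Proof. `F` has finite area, everything is bounded with finite measure support for fixed `x0` (MQ2 (3)). The term with `b x0 p.1`: integrate over `p.2` first: zero (MQ2 (5), second); `b x0 p.2`: over `p.1`. The term with `b p.1 p.2`: SWS for `H x0 x1 = ∫_(x2) K2 ε x0 x1 x2 b x1 x2` (invariant: MQ2 (1), MQ1 (3)): `∫_(x0∈F) ∫_(x1) H = ∫_(x1∈F) ∫_(x0) H = ∫_(x1∈F) ∫_(x2) b x1 x2 ∫_(x0) K2 ε x0 x1 x2 = 0` (MQ2 (5), third; for fixed `x1` the support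 in `(x0,x2)` has finite
measure: `k2` is symmetric). -/
def StAV0 : Prop := ∀ (Γ : Type) [Group Γ] (σ : Γ →* SL), Fuch σ →
  (∀ (γ : Γ) (n : ℕ), 1 ≤ n → γ ^ n = 1 → γ = 1) → ∀ F : Set ℂ,
  FDOn (ad σ) (Metric.ball 0 1) F → ∀ ε : ℝ, 0 < ε → ε < 1 → ∀ b : ℂ → ℂ → ℝ,
  Measurable (fun p : ℂ × ℂ => b p.1 p.2) → (∃ M : ℝ, ∀ x y, |b x y| ≤ M) →
  (∀ γ : Γ, ∀ x ∈ Metric.ball (0 : ℂ) 1, ∀ y ∈ Metric.ball (0 : ℂ) 1,
    b (ad σ γ x) (ad σ γ y) = b x y) →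
  V2 ε F (fun x y z => b y z - b x z + b x y) = 0

/-- AXI (an equivariant map to the circle).

Proof. For `x ∈ D` let `γ` be the unique element with `ad σ γ x ∈ F` and `ξ x = mob (σ γ⁻¹) 1`; `ξ x = 1` outside `D`. As in PIX. -/
def StAXI : Prop := ∀ (Γ : Type) [Group Γ] (σ : Γ →* SL), Fuch σ →
  (∀ (γ : Γ) (n : ℕ), 1 ≤ n → γ ^ n = 1 → γ = 1) → ∃ ξ : ℂ → ℂ, Measurable ξ ∧
  (∀ x, ξ x ∈ Metric.sphere (0 : ℂ) 1) ∧
  ∀ γ : Γ, ∀ x ∈ Metric.ball (0 : ℂ) 1, ξ (ad σ γ x) = mob (σ γ) (ξ x)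

/-- AV1 (comparison of the two pairings).

Proof. Extend `E` by `E1 = E` on `DD`, `E1 = 0` elsewhere (measurable: continuous on the closed set `DD`); all arguments below are in `DD`. Let `ξ` be as in AXI, `s` from AD2. Put `b1 x y = Ad x y (ξ y) - Ad x (ξ x) (ξ y)` for `x, y ∈ D` (`0` otherwise) and `b2 x y = Ad (E x) (E y) (E (ξ y)) - Ad (E x) (E (ξ x)) (E (ξ y))`: measurable, bounded by `6π`, invariant (AD1 (3) for `σ γ` and for `τ γ`, equivariance of `ξ` and `E`). With `bd` antisymmetric: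
`b1 x y = bd x y - bd (ξ x) (ξ y) + bd y (ξ y) - bd x (ξ x)`, so `b1 y z - b1 x z + b1 x y = Ad x y z - Ad (ξ x) (ξ y) (ξ z)`; the same for `b2`. By AV0 and linearity (everything bounded): `V2 ε F Ad = V2 ε F (Ad ∘ ξ)` and `V2 ε F (Ad ∘ E) = V2 ε F (Ad ∘ E ∘ ξ) = s V2 ε F (Ad ∘ ξ)`. (The values of the cochains outside `D` do not matter: `m2` is concentrated on `D`.) -/
def StAV1 : Prop := ∀ (Γ : Type) [Group Γ] (σ τ : Γ →* SL) (E : ℂ → ℂ), Fuch σ → Fuch τ →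
  (∀ (γ : Γ) (n : ℕ), 1 ≤ n → γ ^ n = 1 → γ = 1) →
  ContinuousOn E (Metric.closedBall 0 1) → BijOn E (Metric.ball 0 1) (Metric.ball 0 1) →
  BijOn E (Metric.sphere 0 1) (Metric.sphere 0 1) →
  (∀ γ : Γ, ∀ z ∈ Metric.closedBall (0 : ℂ) 1, E (mob (σ γ) z) = mob (τ γ) (E z)) →
  ∃ s : ℝ, (s = 1 ∨ s = -1) ∧ ∀ F : Set ℂ, FDOn (ad σ) (Metric.ball 0 1) F → ∀ ε : ℝ, 0 < ε →
    ε < 1 → V2 ε F (fun x y z => Ad (E x) (E y) (E z)) = s * V2 ε F Ad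

/-- AV2 (the pairing with the area cocycle itself).

Proof. (1) For `x0 ∈ D` substitute `p.i = pm x0 u_i` (MQ1 (3), (4)): the inner integral is `∫ K2 ε 0 u1 u2 Ad 0 u1 u2 = c2 ε` (MQ2 (1), AD1 (3) with the matrix of `mq x0`, `mq x0 x0 = 0`, `mq 0 u = u`). (2) `K2 ε 0 u v = dt2 u v` for `|u|, |v| < ε` and `|Ad 0 u v - 2 dt2 u v| ≤ C (|u|+|v|)³ ≤ 8 C ε³`: `|c2 ε - 2 ∫∫ (dt2 u v)²| ≤ C ε² · 8 ε³ · m2(ball 0 ε)² ≤ C' ε⁹`, and
`∫∫_(|u|,|v|<ε) (dt2 u v)² dm2 dm2 ≥ c ε⁸` (`m2 ≥ 4 volume`; `∫∫ (dt2)² du dv = 2 (∫ (Re u)² du)² = π² ε⁸/8`); `m2 (ball 0 ε) ≤ C ε²` for `ε ≤ 1/2`. -/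
def StAV2 : Prop :=
  (∀ (F : Set ℂ) (ε : ℝ), 0 < ε → ε < 1 → F ⊆ Metric.ball 0 1 → MeasurableSet F → m2 F < ∞ →
    V2 ε F Ad = c2 ε * (m2 F).toReal) ∧
  ∃ c > 0, ∃ C > 0, ∃ ε0 > 0, ε0 ≤ 1 / 2 ∧ ∀ ε : ℝ, 0 < ε → ε < ε0 → c * ε ^ 8 ≤ c2 ε ∧
    m2 (Metric.ball 0 ε) ≤ ENNReal.ofReal (C * ε ^ 2) ∧
    |c2 ε - 2 * ∫ p : ℂ × ℂ, K2 ε 0 p.1 p.2 * dt2 p.1 p.2 ∂(m2.prod m2)| ≤ C * ε ^ 9

/-- AV3 (small discs: the pairing with the pulled back cocycle).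

Proof. `K = closedBall 0 r`. Uniform differentiability of the `C^1` map `E` on `K` and of `pm`: for every `η > 0` there is `ε1` such that for `x ∈ K`, `|u| < ε < ε1`: `|E (pm x u) - E x - (1-|x|²)(dz E x u + dzb E x conj u)| ≤ η ε` (`pm x u = x + (1-|x|²) u + O(u²)`, real linear derivative `h ↦ dz h + dzb conj h`). `E '' K` is compact in `D`; AD1 (7) with `p = E x`, `δ = E (pm x u) - E x`, `ε' = E (pm x v) - E x`, both `O(ε)`:
`Ad (E x) (E (pm x u)) (E (pm x v)) = 2 dt2 δ ε'/(1-|E x|²)² + O(ε³)`, and `dt2` of the images of `u, v` under the linear map is the determinant `|dz E|² - |dzb E|²` times `dt2 u v`; so it is `2 Jh E x dt2 u v + O(η ε²)` uniformly for `x ∈ K` (`ε1` small). Substituting `p.i = pm x0 u_i` as in AV2: `V2 ε F (Ad ∘ E) = ∫_(x0∈F) (2 Jh E x0 ∫∫ K2 ε 0 u v dt2 u v + O(η ε⁴ m2(ball 0 ε)²))`, divide by `c2 ε ≥ c ε⁸`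
(AV2): the limit as `ε → 0` is `∫_F Jh E dm2`. `Jh E` is continuous on `K`. Finally `∫_F Jh E dm2 = m2 (E '' F)` by the change of variables formula (`E` injective, `C^1`, determinant of `fderiv ℝ E z` equal to `|dz E|² - |dzb E|² > 0`). -/
def StAV3 : Prop := ∀ (E : ℂ → ℂ) (r : ℝ) (F : Set ℂ), r < 1 → MeasurableSet F →
  F ⊆ Metric.closedBall 0 r → ContDiffOn ℝ 1 E (Metric.ball 0 1) →
  MapsTo E (Metric.ball 0 1) (Metric.ball 0 1) → InjOn E (Metric.ball 0 1) →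
  (∀ z ∈ Metric.ball (0 : ℂ) 1, ‖dzb E z‖ < ‖dz E z‖) →
  Tendsto (fun ε : ℝ => V2 ε F (fun x y z => Ad (E x) (E y) (E z)) / c2 ε) (𝓝[>] 0)
    (𝓝 ((m2 (E '' F)).toReal)) ∧ m2 (E '' F) ≠ ∞

/-- AIN (the area of a Fuchsian group depends only on the abstract group).

Proof. Let `F` be the relatively compact fundamental domain of `σ` (AFD), `E, τ'` from `QD.StFTF` (`E` on `DD` is continuous, bijective on `D`, on `SS`, `|dzb| ≤ k |dz|`, `dz ≠ 0`). `E '' F` is a fundamental domain of `τ'` (measurable: injective continuous image, `MeasurableSet.image_of_continuousOn_injOn`). AV1, AV2: `V2 ε F (Ad ∘ E)/c2 ε = s (m2 F).toReal` for all small `ε` (`c2 ε > 0`), AV3: it tends to `(m2 (E '' F)).toReal ≥ 0`.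
So `(m2 (E '' F)).toReal = s (m2 F).toReal`, both areas are positive (AFD), so `s = 1` and the areas are equal. If `τ'` is the entrywise conjugate of `τ`, then `conj '' (E '' F)` is a fundamental domain of `τ` of the same area (MQ1 (6)). AFD (3), (4), (5) for arbitrary fundamental domains. -/
def StAIN : Prop := ∀ (Γ : Type) [Group Γ] (σ τ : Γ →* SL), Fuch σ → Fuch τ →
  (∀ (γ : Γ) (n : ℕ), 1 ≤ n → γ ^ n = 1 → γ = 1) → ∀ F F' : Set ℂ,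
  FDOn (ad σ) (Metric.ball 0 1) F → FDOn (ad τ) (Metric.ball 0 1) F' →
  ar2 F = ar2 F' ∧ 0 < ar2 F

end Pool.Agent.Helper86.QA
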