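import Pool.Agent.Helper86.QA.St4
import Pool.Agent.Helper35.PQF.St

/-!
# Project QD, part A: Theorem A in the language of part B
-/

set_option autoImplicit false

open MeasureTheory Matrix Set Topology Filter
open scoped ENNReal ComplexConjugate ComplexOrder

namespace Pool.Agent.Helper86.QA

open Pool.Agent.Helper35.PM (hs IsDiscrete ConvexCocompact IsQF limitSet density ent num classes
  SurfaceGroup)
open Pool.Agent.Helper20.QD (Fuch Good OutSide OneSide Lam inn out Qp Qinf sph act orb fr IsSU CC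
  mob Param)
open Pool.Agent.Helper20

/-- the limit set of a good group is homeomorphic to the circle -/
theorem good_circle (hLQC : QD.StLQC) (hLLA : QD.StLLA) {Γ : Type} [Group Γ] (ρ : Γ →* SL)
    (h : Good ρ) : Nonempty (limitSet ρ ≃ₜ Circle) := by
  obtain ⟨-, hlim, -⟩ := hLLA Γ ρ h.cc.discrete h.inf
  obtain ⟨β, hβc, hβi, hβ⟩ := h.jordan
  obtain ⟨-, -, -, -, -, hQc, hQi, -⟩ := hLQC
  have hmem : ∀ z : Circle, (z : ℂ) ∈ Metric.sphere (0 : ℂ) 1 := by
    intro z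
    rw [mem_sphere_zero_iff_norm]
    exact Circle.norm_coe z
  let f : Circle → limitSet ρ := fun z => ⟨Qp (β z), by
    rw [hlim, ← hβ]
    exact ⟨β z, ⟨z, hmem z, rfl⟩, rfl⟩⟩
  have hf : Continuous f := by
    apply Continuous.subtype_mk
    apply hQc.comp
    exact hβc.comp_continuous continuous_subtype_val hmem
  have hinj : Function.Injective f := by
    intro z w hzw
    have h1 : Qp (β z) = Qp (β w) := congrArg Subtype.val hzw
    exact Subtype.ext (hβi (hmem z) (hmem w) (hQi h1))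
  have hsur : Function.Surjective f := by
    rintro ⟨Q, hQ⟩
    rw [hlim, ← hβ] at hQ
    obtain ⟨_, ⟨z, hz, rfl⟩, rfl⟩ := hQ
    exact ⟨⟨z, hz⟩, rfl⟩
  exact ⟨(Continuous.homeoOfEquivCompactToT2
    (f := Equiv.ofBijective f ⟨hinj, hsur⟩) hf).symm⟩

theorem ent_nonneg' (hCL : Pool.Agent.Helper35.PM.St_CL) (hLN : Pool.Agent.Helper35.PM.St_LN)
    (hHS2 : Pool.Agent.Helper35.PM.St_HS2) {Γ : Type} [Group Γ] (ρ : Γ →* SL) (hcc : CC ρ) :
    0 ≤ ent ρ := by
  obtain ⟨hfin, C2, hC2, hnum⟩ := hCL Γ ρ hcc.discrete hcc.cocompact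
  have hbdd : IsBoundedUnder (· ≤ ·) atTop (fun T : ℝ => Real.log (num ρ T) / T) := by
    refine ⟨|Real.log C2| + 2, ?_⟩
    rw [eventually_map]
    filter_upwards [eventually_ge_atTop 1] with T hT
    have hT0 : 0 < T := by linarith
    rw [div_le_iff₀ hT0]
    have hl : Real.log (num ρ T) ≤ |Real.log C2| + 2 * T := by
      rcases Nat.eq_zero_or_pos (num ρ T) with h0 | h0
      · rw [h0, Nat.cast_zero, Real.log_zero]
        positivity
      · have h1 : (0 : ℝ) < num ρ T := by exact_mod_cast h0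
        have h2 := Real.log_le_log h1 (hnum T hT0.le)
        rw [Real.log_mul hC2.ne' (Real.exp_pos _).ne', Real.log_exp] at h2
        linarith [le_abs_self (Real.log C2)]
    nlinarith [abs_nonneg (Real.log C2)]
  unfold ent
  refine le_limsup_of_frequently_le (Eventually.frequently ?_) hbdd
  filter_upwards [eventually_gt_atTop 0] with T hT
  have h1 : 1 ≤ num ρ T := by
    unfold num
    refine (Set.ncard_pos (hfin T)).2 ?_
    refine ⟨ConjClasses.mk 1, ?_⟩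
    show Pool.Agent.Helper35.PM.len ρ (ConjClasses.mk 1) ≤ T
    rw [hLN Γ ρ 1]
    have h2 := hHS2.2.2.2.2.2 (ρ 1) 1 le_rfl (by simp)
    linarith
  have h3 : (1 : ℝ) ≤ (num ρ T : ℝ) := by exact_mod_cast h1
  exact div_nonneg (Real.log_nonneg h3) hT.le

theorem summable_cj (hHS1 : Pool.Agent.Helper35.PM.St_HS1) {Γ : Type} [Group Γ] (ρ : Γ →* SL)
    (B : SL) (s : ℝ) (hs0 : 0 ≤ s) (h : Summable (fun γ : Γ => hs (ρ γ : Mat) ^ (-s))) :
    Summable (fun γ : Γ => hs ((QD.cj B ρ) γ : Mat) ^ (-s)) := by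
  obtain ⟨hmul, -, h2, -⟩ := hHS1
  set c : ℝ := hs (B⁻¹ : SL).1 * hs (B : Mat) with hc
  have hcpos : 0 < c := by
    have h3 := h2 B
    have h4 := h2 B⁻¹
    have : (0 : ℝ) < hs (B⁻¹ : SL).1 := by linarith
    have : (0 : ℝ) < hs (B : Mat) := by linarith
    positivity
  have key : ∀ γ, hs (ρ γ : Mat) ≤ c * hs ((QD.cj B ρ) γ : Mat) := by
    intro γ
    have e : (ρ γ : Mat) = (B⁻¹ : SL).1 * (((QD.cj B ρ) γ : SL).1 * (B : Mat)) := by
      have e1 : ρ γ = B⁻¹ * ((QD.cj B ρ) γ * B) := by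
        show ρ γ = B⁻¹ * ((B * ρ γ * B⁻¹) * B)
        group
      have e2 := congrArg (fun X : SL => (X : Mat)) e1
      simpa [Matrix.SpecialLinearGroup.coe_mul] using e2
    rw [e]
    calc hs ((B⁻¹ : SL).1 * (((QD.cj B ρ) γ : SL).1 * (B : Mat)))
        ≤ hs (B⁻¹ : SL).1 * hs (((QD.cj B ρ) γ : SL).1 * (B : Mat)) := hmul _ _
      _ ≤ hs (B⁻¹ : SL).1 * (hs ((QD.cj B ρ) γ : SL).1 * hs (B : Mat)) := by
          have h4 := h2 B⁻¹
          exact mul_le_mul_of_nonneg_left (hmul _ _) (by linarith)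
      _ = c * hs ((QD.cj B ρ) γ : Mat) := by rw [hc]; ring
  refine Summable.of_nonneg_of_le (fun γ => ?_) (fun γ => ?_) (h.mul_left (c ^ s))
  · have := h2 ((QD.cj B ρ) γ)
    exact Real.rpow_nonneg (by linarith) _
  · have h3 := h2 ((QD.cj B ρ) γ)
    have h4 := h2 (ρ γ)
    have h5 : 0 < hs ((QD.cj B ρ) γ : Mat) := by linarith
    have h6 : 0 < hs (ρ γ : Mat) := by linarith
    have h7 := Real.rpow_le_rpow h6.le (key γ) hs0
    rw [Real.mul_rpow hcpos.le h5.le] at h7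
    rw [Real.rpow_neg h5.le, Real.rpow_neg h6.le]
    have h8 : 0 < hs ((QD.cj B ρ) γ : Mat) ^ s := Real.rpow_pos_of_pos h5 _
    have h9 : 0 < hs (ρ γ : Mat) ^ s := Real.rpow_pos_of_pos h6 _
    rw [inv_le_comm₀ h8 (by positivity), mul_inv, inv_inv]
    rw [inv_mul_le_iff₀ (Real.rpow_pos_of_pos hcpos _)]
    exact h7

theorem hA1 (hTHA : StTHA) (hPD3 : StPD3) (hARE : StARE) (hKDG : StKDG) (hCFG : StCFG)
    (hEGL : StEGL) (hSUM : StSUM) (hLQC : QD.StLQC) (hLLA : QD.StLLA)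
    (hHS1 : Pool.Agent.Helper35.PM.St_HS1) (hHS2 : Pool.Agent.Helper35.PM.St_HS2)
    (hLN : Pool.Agent.Helper35.PM.St_LN) (hCL : Pool.Agent.Helper35.PM.St_CL) : StA1 := by
  obtain ⟨C0, hC0, hA⟩ := hTHA
  refine ⟨2 * C0, by positivity, ?_⟩
  intro Γ _ ρ τ G htf hgood hout F0 FB hF0 hFB
  have hp : G 1 ∈ Lam ρ := hout.bijS.mapsTo (by simp)
  set p := G 1 with hpdef
  have hKD := hKDG Γ ρ p hgood hp htf
  obtain ⟨F, σ', hCF, harea⟩ := hCFG Γ ρ τ G p hgood hp hout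
  obtain ⟨DA, hDA⟩ := (hPD3 Γ (QD.cj (gi p) ρ) (sA ρ p) (sB ρ p) hKD).2
  have hE := hEGL Γ ρ p hgood hp hKD DA FB hDA hFB
  have hfin := (hARE Γ (QD.cj (gi p) ρ) (sA ρ p) (sB ρ p) hKD F σ' hCF DA hDA).2.2.2.2.1
  have har := harea F0 DA hF0 hDA
  rw [← hE]
  refine ⟨hfin, ?_⟩
  set E := (∫⁻ ξ in DA, aw (sB ρ p) ξ).toReal with hEdef
  have hcirc := good_circle hLQC hLLA ρ hgood
  have hent0 := ent_nonneg' hCL hLN hHS2 ρ hgood.cc
  have key : ∀ s ∈ Icc (1 : ℝ) 2, ent ρ < s → (2 - s) * ar2 F0 ^ 2 ≤ C0 * E ^ 2 := by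
    intro s hs1 hents
    have hsum := summable_cj hHS1 ρ (gi p) s (by linarith [hs1.1])
      (hSUM Γ ρ hgood.cc hcirc s (by linarith [hs1.1]) hents)
    have := (hA Γ (QD.cj (gi p) ρ) (sA ρ p) (sB ρ p) hKD F σ' hCF DA hDA s hs1 hsum).2
    rw [har] at this
    exact this
  have ha2 : 0 ≤ ar2 F0 ^ 2 := sq_nonneg _
  have hE2 : 0 ≤ C0 * E ^ 2 := by positivity
  rcases lt_or_ge (ent ρ) 1 with h1 | h1
  · have h2 := key 1 (by constructor <;> norm_num) h1
    nlinarith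
  · rcases lt_or_ge (ent ρ) 2 with h2 | h2
    · have h3 : (2 - ent ρ) * ar2 F0 ^ 2 ≤ C0 * E ^ 2 := by
        refine le_of_forall_pos_le_add ?_
        intro ε hε
        obtain ⟨s, hs1, hs2⟩ := exists_between
          (show ent ρ < min 2 (ent ρ + ε / (ar2 F0 ^ 2 + 1)) by
            apply lt_min h2
            have : 0 < ε / (ar2 F0 ^ 2 + 1) := by positivity
            linarith)
        have h4 := key s ⟨by linarith, (hs2.trans_le (min_le_left _ _)).le⟩ hs1
        have h5 : s - ent ρ ≤ ε / (ar2 F0 ^ 2 + 1) := by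
          have := hs2.trans_le (min_le_right _ _)
          linarith
        have h6 : (s - ent ρ) * ar2 F0 ^ 2 ≤ ε := by
          calc (s - ent ρ) * ar2 F0 ^ 2 ≤ ε / (ar2 F0 ^ 2 + 1) * (ar2 F0 ^ 2 + 1) :=
                mul_le_mul h5 (by linarith) ha2 (by positivity)
            _ = ε := by field_simp
        linarith
      linarith
    · nlinarith

end Pool.Agent.Helper86.QA
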