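import Pool.Agent.Helper86.QA.All
import Pool.Agent.Helper86.QA.M_A1
import Pool.Agent.Helper20.QD.AsmB
import Pool.Agent.Helper35.PQF.All
import Pool.Agent.Helper40.QA.M_WHM
import Pool.Agent.Helper76.QA.M_TDS
import Pool.Agent.Helper36.QA.M_FUC
import Pool.Agent.Helper47.QA.M_TLM
import Pool.Agent.Helper13.QA.M_DRC
import Pool.Agent.Helper78.QA.M_HCC
import Pool.Agent.Helper72.QA.M_TGO
import Pool.Agent.Helper93.QA.M_OCT
import Pool.Agent.Helper80.QA.M_CNC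
import Pool.Agent.Helper33.QA.M_IRR
import Pool.Agent.Helper16.QA.M_SUM
import Pool.Agent.Helper28.QA.M_KEG
import Pool.Agent.Helper95.QA.M_KCP
import Pool.Agent.Helper42.QA.M_KNU
import Pool.Agent.Helper99.QA.M_KDG
import Pool.Agent.Helper6.QA.M_TFR
import Pool.Agent.Helper41.QA.M_EGL
import Pool.Agent.Helper44.QA.M_CFG

set_option autoImplicit false

namespace Pool.Agent.Helper86.QA

theorem tWHM : StWHM := Pool.Agent.Helper40.QA.hWHM Pool.Agent.Helper20.QD.b_LFR Pool.Agent.Helper20.QD.b_LQC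

theorem tTDS : StTDS := Pool.Agent.Helper76.QA.hTDS Pool.Agent.Helper20.QD.b_LFR Pool.Agent.Helper20.QD.b_LQC Pool.Agent.Helper20.QD.b_LMX tWHM

theorem tFUC : StFUC := Pool.Agent.Helper36.QA.hFUC Pool.Agent.Helper20.QD.b_LFR Pool.Agent.Helper20.QD.b_LQC Pool.Agent.Helper20.QD.b_LMX Pool.Agent.Helper20.QD.b_LLS

theorem tTLM : StTLM := Pool.Agent.Helper47.QA.hTLM Pool.Agent.Helper20.QD.b_LFR Pool.Agent.Helper20.QD.b_LQC Pool.Agent.Helper20.QD.b_LMX Pool.Agent.Helper20.QD.b_LLS tWHM tFUC tTDS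

theorem tDRC : StDRC := Pool.Agent.Helper13.QA.hDRC Pool.Agent.Helper20.QD.b_LMX

theorem tHCC : StHCC := Pool.Agent.Helper78.QA.hHCC Pool.Agent.Helper20.QD.b_LFR Pool.Agent.Helper20.QD.b_LQC Pool.Agent.Helper20.QD.b_LMX Pool.Agent.Helper20.QD.b_LLS tDRC

theorem tTGO : StTGO := Pool.Agent.Helper72.QA.hTGO Pool.Agent.Helper20.QD.b_LQC Pool.Agent.Helper20.QD.b_LLS Pool.Agent.Helper20.QD.b_TJ1 Pool.Agent.Helper20.QD.b_TJ2 tTDS tTLM tHCC

theorem tOCT : StOCT := Pool.Agent.Helper93.QA.hOCT Pool.Agent.Helper35.PM.hs1_ Pool.Agent.Helper35.PM.hs2_ Pool.Agent.Helper35.PM.ln_ Pool.Agent.Helper35.PM.cl_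

theorem tCNC : StCNC := Pool.Agent.Helper80.QA.hCNC Pool.Agent.Helper20.QD.b_LFR Pool.Agent.Helper20.QD.b_LQC Pool.Agent.Helper20.QD.b_LMX Pool.Agent.Helper20.QD.b_LLS

theorem tIRR : StIRR := Pool.Agent.Helper33.QA.hIRR Pool.Agent.Helper20.QD.b_LQC Pool.Agent.Helper20.QD.b_LMX Pool.Agent.Helper20.QD.b_LLS Pool.Agent.Helper20.QD.b_LCJ tCNC

theorem tSUM : StSUM := Pool.Agent.Helper16.QA.hSUM Pool.Agent.Helper35.PM.cl_ Pool.Agent.Helper35.PM.ln_ Pool.Agent.Helper35.PM.hs2_ tOCT tIRR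

theorem tKEG : StKEG := Pool.Agent.Helper28.QA.hKEG Pool.Agent.Helper20.QD.b_LQC Pool.Agent.Helper20.QD.b_LMX Pool.Agent.Helper20.QD.b_LLS Pool.Agent.Helper20.QD.b_LLA Pool.Agent.Helper20.QD.b_LCJ Pool.Agent.Helper20.QD.b_TJ1 Pool.Agent.Helper20.QD.b_TJ2

theorem tKCP : StKCP := Pool.Agent.Helper95.QA.hKCP tACT Pool.Agent.Helper20.QD.b_LQC Pool.Agent.Helper20.QD.b_LMX Pool.Agent.Helper20.QD.b_LLS tCNC tDRC

theorem tKNU : StKNU := Pool.Agent.Helper42.QA.hKNU tACT tHME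

theorem tKDG : StKDG := Pool.Agent.Helper99.QA.hKDG tKEG tKCP tKNU

theorem tTFR : StTFR := Pool.Agent.Helper6.QA.hTFR 

theorem tEGL : StEGL := Pool.Agent.Helper41.QA.hEGL tCHV tSW0 tAWB tACU Pool.Agent.Helper20.QD.b_TJ2

theorem tCFG : StCFG := Pool.Agent.Helper44.QA.hCFG tCHV tSW1 Pool.Agent.Helper20.QD.b_RIJ Pool.Agent.Helper20.QD.b_LQC Pool.Agent.Helper20.QD.b_TJ2

/-- THEOREM A in the language of part B -/
theorem tA1 : StA1 :=
  hA1 tTHA tPD3 tARE tKDG tCFG tEGL tSUM Pool.Agent.Helper20.QD.b_LQC Pool.Agent.Helper20.QD.b_LLA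
    Pool.Agent.Helper35.PM.hs1_ Pool.Agent.Helper35.PM.hs2_ Pool.Agent.Helper35.PM.ln_
    Pool.Agent.Helper35.PM.cl_

end Pool.Agent.Helper86.QA
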