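import Pool.Agent.Helper86.QA.St5
import Pool.Agent.Helper61.QE.Defs

/-!
# Project QD (MP_d112a4_gt), part A: glue with parts M and E

`Intw` (helper68) gives `TM`, hence `Good` and `IsQF`; images of fundamental domains under equivariant
homeomorphisms; the energy `En F μ` of part E is the energy of `StA1`; `Fu` (part E) and
`Fuch` (part B).
-/

set_option autoImplicit false

open MeasureTheory Matrix Set Topology Filter
open scoped ENNReal ComplexConjugate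

namespace Pool.Agent.Helper86.QA

open Pool.Agent.Helper35.PM (hs IsDiscrete IsQF limitSet ent SurfaceGroup)
open Pool.Agent.Helper20.QD (Fuch Good OutSide Lam inn out IsSU CC)
open Pool.Agent.Helper20
open Pool.Agent.Helper61.QE (Fu FD En)

/-- images of fundamental domains under equivariant homeomorphisms -/
theorem fdon_image {Γ : Type} [Group Γ] (a b : Γ → ℂ → ℂ) (S F : Set ℂ) (w : ℂ ≃ₜ ℂ)
    (h : ∀ γ, ∀ z ∈ S, w (a γ z) = b γ (w z)) (hF : FDOn a S F) :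
    FDOn b (w '' S) (w '' F) := by
  refine ⟨(w.measurableEmbedding.measurableSet_image).mpr hF.mD, image_mono hF.sub, ?_⟩
  rintro _ ⟨s, hs, rfl⟩
  obtain ⟨γ, hγ, huni⟩ := hF.ex s hs
  refine ⟨γ, ?_, ?_⟩
  · show b γ (w s) ∈ w '' F
    rw [← h γ s hs]
    exact mem_image_of_mem w hγ
  · intro δ hδ
    apply huni δ
    show a δ s ∈ F
    have h2 : b δ (w s) ∈ w '' F := hδ
    rw [← h δ s hs] at h2
    obtain ⟨t, ht, hts⟩ := h2
    rw [w.injective hts] at ht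
    exact ht

theorem mob_mob (A : SL) (z : ℂ) : Pool.Agent.Helper68.QC.mob A z = QD.mob A z := rfl

theorem den_den (A : SL) (z : ℂ) : Pool.Agent.Helper68.QC.den A z = QD.den A z := rfl

/-- `TM` from `Intw` -/
theorem tm_of_intw {Γ : Type} [Group Γ] (σ ρ : Γ →* SL) (w : ℂ ≃ₜ ℂ) (hσ : Fuch σ)
    (h : ∀ γ, Pool.Agent.Helper68.QC.Intw (σ γ) (ρ γ) w) : TM σ ρ w :=
  ⟨hσ, w.isHomeomorph, fun γ z => ⟨(h γ).1 z, (h γ).2.1 z⟩⟩

/-- composition rule for the denominators -/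
theorem den_mul' (A B : SL) (z : ℂ) (hB : QD.den B z ≠ 0) :
    QD.den (A * B) z = QD.den A (QD.mob B z) * QD.den B z ∧
    QD.mob (A * B) z = QD.mob A (QD.mob B z) := by
  have e : ∀ i j, ((A * B : SL) : Mat) i j = (A : Mat) i 0 * (B : Mat) 0 j + (A : Mat) i 1 * (B : Mat) 1 j := by
    intro i j
    rw [Matrix.SpecialLinearGroup.coe_mul, Matrix.mul_apply, Fin.sum_univ_two]
  have hB' : (B : Mat) 1 0 * z + (B : Mat) 1 1 ≠ 0 := hB
  have h1 : QD.den (A * B) z = QD.den A (QD.mob B z) * QD.den B z := by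
    simp only [QD.den, QD.mob, e]
    field_simp
    ring
  refine ⟨h1, ?_⟩
  by_cases hA : QD.den A (QD.mob B z) = 0
  · have h2 : QD.den (A * B) z = 0 := by rw [h1, hA, zero_mul]
    have h3 : QD.mob (A * B) z = 0 := by
      have : ((A * B : SL) : Mat) 1 0 * z + ((A * B : SL) : Mat) 1 1 = 0 := h2
      simp only [QD.mob, this, div_zero]
    have h4 : QD.mob A (QD.mob B z) = 0 := by
      have : (A : Mat) 1 0 * (QD.mob B z) + (A : Mat) 1 1 = 0 := hA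
      simp only [QD.mob] at this ⊢
      rw [this, div_zero]
    rw [h3, h4]
  · have hA' : (A : Mat) 1 0 * (((B : Mat) 0 0 * z + (B : Mat) 0 1) / ((B : Mat) 1 0 * z + (B : Mat) 1 1)) +
        (A : Mat) 1 1 ≠ 0 := hA
    have h2 : QD.den (A * B) z ≠ 0 := by rw [h1]; exact mul_ne_zero hA hB
    have h2' : ((A * B : SL) : Mat) 1 0 * z + ((A * B : SL) : Mat) 1 1 ≠ 0 := h2
    simp only [QD.mob]
    rw [div_eq_div_iff h2' hA']
    simp only [e]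
    field_simp
    ring

/-- `A ∈ SU(1,1)`: the denominator does not vanish on the closed disc -/
theorem su_den (A : SL) (hA : IsSU A) (z : ℂ) (hz : ‖z‖ ≤ 1) : QD.den A z ≠ 0 := by
  obtain ⟨h1, h2⟩ := hA
  intro h0
  have h3 : conj ((A : Mat) 0 1) * z + conj ((A : Mat) 0 0) = 0 := by
    rw [← h1, ← h2]; exact h0
  have hdet : (A : Mat) 0 0 * (A : Mat) 1 1 - (A : Mat) 0 1 * (A : Mat) 1 0 = 1 := by
    have := A.det_coe
    rwa [Matrix.det_fin_two] at this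
  rw [h1, h2, Complex.mul_conj, Complex.mul_conj] at hdet
  have hd : Complex.normSq ((A : Mat) 0 0) - Complex.normSq ((A : Mat) 0 1) = 1 := by
    exact_mod_cast hdet
  have h4 : conj ((A : Mat) 0 0) = -(conj ((A : Mat) 0 1) * z) := by linear_combination h3
  have h5 : ‖(A : Mat) 0 0‖ ≤ ‖(A : Mat) 0 1‖ := by
    have : ‖conj ((A : Mat) 0 0)‖ = ‖conj ((A : Mat) 0 1)‖ * ‖z‖ := by
      rw [h4, norm_neg, norm_mul]
    rw [Complex.norm_conj, Complex.norm_conj] at this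
    rw [this]
    exact mul_le_of_le_one_right (norm_nonneg _) hz
  rw [Complex.normSq_eq_norm_sq, Complex.normSq_eq_norm_sq] at hd
  nlinarith [norm_nonneg ((A : Mat) 0 0), norm_nonneg ((A : Mat) 0 1)]

/-- the identity `(1 - |Az|²) |den|² = 1 - |z|²` -/
theorem su_id (A : SL) (hA : IsSU A) (z : ℂ) (hz : QD.den A z ≠ 0) :
    (1 - ‖QD.mob A z‖ ^ 2) * ‖QD.den A z‖ ^ 2 = 1 - ‖z‖ ^ 2 := by
  obtain ⟨h1, h2⟩ := hA
  have hdet : (A : Mat) 0 0 * (A : Mat) 1 1 - (A : Mat) 0 1 * (A : Mat) 1 0 = 1 := by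
    have := A.det_coe
    rwa [Matrix.det_fin_two] at this
  have hz' : (A : Mat) 1 0 * z + (A : Mat) 1 1 ≠ 0 := hz
  have h3 : ‖QD.mob A z‖ ^ 2 * ‖QD.den A z‖ ^ 2 = ‖(A : Mat) 0 0 * z + (A : Mat) 0 1‖ ^ 2 := by
    rw [← mul_pow, ← norm_mul]
    congr 2
    show ((A : Mat) 0 0 * z + (A : Mat) 0 1) / ((A : Mat) 1 0 * z + (A : Mat) 1 1) *
      ((A : Mat) 1 0 * z + (A : Mat) 1 1) = _
    rw [div_mul_cancel₀ _ hz']
  have h4 : (1 - ‖QD.mob A z‖ ^ 2) * ‖QD.den A z‖ ^ 2 =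
      ‖QD.den A z‖ ^ 2 - ‖(A : Mat) 0 0 * z + (A : Mat) 0 1‖ ^ 2 := by
    rw [sub_mul, one_mul, h3]
  rw [h4]
  have h5 : ((‖QD.den A z‖ ^ 2 - ‖(A : Mat) 0 0 * z + (A : Mat) 0 1‖ ^ 2 : ℝ) : ℂ) =
      ((1 - ‖z‖ ^ 2 : ℝ) : ℂ) := by
    push_cast
    rw [← Complex.mul_conj', ← Complex.mul_conj', ← Complex.mul_conj']
    simp only [QD.den, map_add, map_mul]
    rw [h1, h2] at hdet ⊢
    simp only [Complex.conj_conj]
    linear_combination (1 - z * conj z) * hdet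
  exact_mod_cast h5

/-- `A ∈ SU(1,1)` maps the disc into itself -/
theorem su_disc (A : SL) (hA : IsSU A) (z : ℂ) (hz : ‖z‖ < 1) : ‖QD.mob A z‖ < 1 := by
  have hd := su_den A hA z hz.le
  have h1 := su_id A hA z hd
  have h2 : 0 < ‖QD.den A z‖ ^ 2 := by positivity
  have h3 : 0 < 1 - ‖z‖ ^ 2 := by nlinarith [norm_nonneg z]
  by_contra h4
  push Not at h4
  have h5 : 1 ≤ ‖QD.mob A z‖ ^ 2 := by nlinarith
  nlinarith

/-- a fundamental domain in the sense of part E is one in the sense of part A -/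
theorem fdon_of_fd {Γ : Type} [Group Γ] (s : Γ →* SL) (F : Set ℂ) (hsu : ∀ γ, IsSU (s γ))
    (hF : FD s F) : FDOn (fun γ z => QD.mob (s γ) z) (Metric.ball 0 1) F := by
  refine ⟨hF.meas, ?_, ?_⟩
  · intro z hz
    obtain ⟨r, hr, h⟩ := hF.cpt
    rw [Metric.mem_ball, dist_zero_right]
    exact lt_of_le_of_lt (h z hz) hr
  · intro x hx
    obtain ⟨γ, hγ⟩ := hF.cov x hx
    refine ⟨γ, hγ, ?_⟩
    intro δ hδ
    have hx1 : ‖x‖ < 1 := by rwa [Metric.mem_ball, dist_zero_right] at hx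
    have hden := su_den (s γ) (hsu γ) x hx1.le
    have hc := (den_mul' (s (δ * γ⁻¹)) (s γ) x hden).2
    rw [← map_mul, inv_mul_cancel_right] at hc
    have h1 : Pool.Agent.Helper68.QC.mob (s (δ * γ⁻¹)) (Pool.Agent.Helper68.QC.mob (s γ) x) ∈ F := by
      rw [mob_mob, mob_mob, ← hc]
      exact hδ
    have h2 := hF.uni _ hγ _ h1
    exact mul_inv_eq_one.mp h2

/-- norm of a matrix of `SU(1,1)` -/
theorem su_hs (A : SL) (hA : IsSU A) : hs (A : Mat) = 2 * (‖(A : Mat) 0 0‖ ^ 2 + ‖(A : Mat) 0 1‖ ^ 2) ∧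
    ‖(A : Mat) 0 0‖ ^ 2 - ‖(A : Mat) 0 1‖ ^ 2 = 1 := by
  obtain ⟨h1, h2⟩ := hA
  have hdet : (A : Mat) 0 0 * (A : Mat) 1 1 - (A : Mat) 0 1 * (A : Mat) 1 0 = 1 := by
    have := A.det_coe
    rwa [Matrix.det_fin_two] at this
  rw [h1, h2, Complex.mul_conj, Complex.mul_conj] at hdet
  have hd : Complex.normSq ((A : Mat) 0 0) - Complex.normSq ((A : Mat) 0 1) = 1 := by
    exact_mod_cast hdet
  rw [Complex.normSq_eq_norm_sq, Complex.normSq_eq_norm_sq] at hd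
  refine ⟨?_, hd⟩
  simp only [hs, Fin.sum_univ_two, h1, h2, Complex.norm_conj]
  ring

/-- `‖A 0‖` in terms of the norm -/
theorem su_zero (A : SL) (hA : IsSU A) : ‖QD.mob A 0‖ ^ 2 * ‖(A : Mat) 0 0‖ ^ 2 = ‖(A : Mat) 0 1‖ ^ 2 := by
  have hd := su_den A hA 0 (by simp)
  have h1 := su_id A hA 0 hd
  obtain ⟨_, h3⟩ := su_hs A hA
  have h4 : ‖QD.den A 0‖ = ‖(A : Mat) 0 0‖ := by
    simp only [QD.den, mul_zero, zero_add]
    rw [hA.1, Complex.norm_conj]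
  rw [h4] at h1
  simp only [norm_zero] at h1
  nlinarith

/-- `Fu` gives `Fuch` -/
theorem fuch_of_fu {Γ : Type} [Group Γ] (s : Γ →* SL) (h : Fu s) : Fuch s := by
  refine ⟨fun γ => h.su γ, ?_, ?_⟩
  · intro X
    have hr : Real.sqrt (1 - 1 / (X + 2 + |X|)) < 1 := by
      rw [Real.sqrt_lt' one_pos]
      have : 0 < 1 / (X + 2 + |X|) := by
        have := neg_abs_le X
        apply one_div_pos.mpr
        linarith
      linarith
    apply (h.disc _ hr).subset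
    intro γ hγ
    have hγ' : hs (s γ : Mat) ≤ X := hγ
    obtain ⟨h1, h2⟩ := su_hs (s γ) (h.su γ)
    have h3 := su_zero (s γ) (h.su γ)
    show ‖Pool.Agent.Helper68.QC.mob (s γ) 0‖ ≤ _
    rw [mob_mob]
    apply Real.le_sqrt_of_sq_le
    have hA : 1 ≤ ‖(s γ : Mat) 0 0‖ ^ 2 := by nlinarith [sq_nonneg ‖(s γ : Mat) 0 1‖]
    have hA2 : ‖(s γ : Mat) 0 0‖ ^ 2 ≤ X + 2 + |X| := by
      nlinarith [sq_nonneg ‖(s γ : Mat) 0 1‖, neg_abs_le X, abs_nonneg X]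
    have h5 : ‖QD.mob (s γ) 0‖ ^ 2 = 1 - 1 / ‖(s γ : Mat) 0 0‖ ^ 2 := by
      have hne : ‖(s γ : Mat) 0 0‖ ^ 2 ≠ 0 := by linarith
      rw [eq_sub_iff_add_eq, ← mul_left_inj' hne, add_mul, one_mul, one_div, inv_mul_cancel₀ hne, h3]
      linarith
    rw [h5]
    have h6 : 1 / (X + 2 + |X|) ≤ 1 / ‖(s γ : Mat) 0 0‖ ^ 2 :=
      one_div_le_one_div_of_le (by linarith) hA2
    linarith
  · obtain ⟨r, hr, hc⟩ := h.coc
    exact ⟨r, hr, hc⟩

/-- the energy of part E is the energy of `StA1` -/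
theorem en_eq (F : Set ℂ) (μ : ℂ → ℂ) : En F μ =
    ∫⁻ a in Pool.Agent.Helper68.QC.nq μ '' F, ∫⁻ ξ in Pool.Agent.Helper68.QC.nq μ '' {z : ℂ | 1 < ‖z‖},
      ENNReal.ofReal (1 / ‖ξ - a‖ ^ 4) := by
  unfold En
  refine lintegral_congr fun a => lintegral_congr fun ξ => ?_
  rw [inv_pow, one_div]

/-- Theorem A for the deformations of part E -/
theorem a1_nq (hTGO : StTGO) (C0 : ℝ)
    (hA1 : ∀ (Γ : Type) [Group Γ] (ρ τ : Γ →* SL) (G : ℂ → ℂ),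
      (∀ (γ : Γ) (n : ℕ), 1 ≤ n → γ ^ n = 1 → γ = 1) → Good ρ → OutSide ρ τ G →
      ∀ (F0 FB : Set ℂ), FDOn (fun γ z => QD.mob (τ γ) z) (Metric.ball 0 1) F0 →
      FDOn (fun γ z => QD.mob (ρ γ) z) (inn (Lam ρ)) FB →
      ∫⁻ a in FB, ∫⁻ ξ in out (Lam ρ), ENNReal.ofReal (1 / ‖ξ - a‖ ^ 4) ≠ ∞ ∧
      (2 - ent ρ) * ar2 F0 ^ 2 ≤
        C0 * (∫⁻ a in FB, ∫⁻ ξ in out (Lam ρ), ENNReal.ofReal (1 / ‖ξ - a‖ ^ 4)).toReal ^ 2)
    {Γ : Type} [Group Γ] (s ρ τ : Γ →* SL) (F F0 : Set ℂ) (μ G : ℂ → ℂ)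
    (tf : ∀ (γ : Γ) (n : ℕ), 1 ≤ n → γ ^ n = 1 → γ = 1) (hs' : Fu s) (hF : FD s F)
    (hw : ∀ γ, Pool.Agent.Helper68.QC.Intw (s γ) (ρ γ) (Pool.Agent.Helper68.QC.nq μ))
    (hO : OutSide ρ τ G) (hF0 : FDOn (fun γ z => QD.mob (τ γ) z) (Metric.ball 0 1) F0) :
    En F μ ≠ ∞ ∧ (2 - ent ρ) * ar2 F0 ^ 2 ≤ C0 * (En F μ).toReal ^ 2 := by
  have hTM := tm_of_intw s ρ (Pool.Agent.Helper68.QC.nq μ) (fuch_of_fu s hs') hw
  obtain ⟨hG, hL, hin, hout⟩ := hTGO Γ s ρ _ hTM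
  have hfd := fdon_of_fd s F (fun γ => hs'.su γ) hF
  have hFB : FDOn (fun γ z => QD.mob (ρ γ) z) (inn (Lam ρ)) (Pool.Agent.Helper68.QC.nq μ '' F) := by
    rw [hin]
    refine fdon_image _ _ _ _ _ ?_ hfd
    intro γ z hz
    refine (hTM.eq γ z).2 (su_den (s γ) (hs'.su γ) z ?_)
    rw [Metric.mem_ball, dist_zero_right] at hz
    exact hz.le
  have := hA1 Γ ρ τ G tf hG hO F0 (Pool.Agent.Helper68.QC.nq μ '' F) hF0 hFB
  rw [en_eq]
  rw [hout] at this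
  exact this

end Pool.Agent.Helper86.QA
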