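import Pool.Agent.Helper86.QA.CFI
import Pool.Agent.Helper35.PQF.St

/-!
# Project QD part A: Kleinian data in the normalisation used for a pair of limit points
-/

set_option autoImplicit false

open MeasureTheory Matrix Set Topology Filter
open scoped ENNReal ComplexConjugate ComplexOrder

namespace Pool.Agent.Helper86.QA

open Pool.Agent.Helper20
open Pool.Agent.Helper35.PM (hs IsDiscrete limitSet)
open Pool.Agent.Helper20.QD (Fuch Good OutSide OneSide Lam inn out IsSU mob)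
open Pool.Agent.Helper44.QA.CFG

/-- exchange of the two sides -/
theorem kd_symm {Γ : Type} [Group Γ] {r : Γ →* SL} {A B : Set ℂ} (h : KD r A B) : KD r B A := by
  refine ⟨h.tf, h.disc, h.opB, h.opA, h.neB, h.neA, h.dis.symm, ?_, h.mpB, h.mpA, ?_⟩
  · rw [Set.union_comm]; exact h.nul
  · obtain ⟨K, KA, KB, τ, h1, h2, h3, h4, h5, h6, h7, h8⟩ := h.cpt
    refine ⟨K, KB, KA, τ, h1, h2, h5, h6, h3, h4, h7, ?_⟩
    intro x hx
    obtain ⟨γ, hγ⟩ := h8 x hx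
    refine ⟨γ, ?_⟩
    tauto

/-- an affine matrix -/
theorem aff_facts (T : SL) (hT : T 1 0 = 0) : T 1 1 ≠ 0 ∧ (T⁻¹) 1 0 = 0 ∧ (T⁻¹) 1 1 ≠ 0 ∧
    T 0 0 ≠ 0 := by
  have h := c_det T
  obtain ⟨i1, i2, i3, i4⟩ := c_inv T
  rw [hT, mul_zero, sub_zero] at h
  have h1 : T 0 0 ≠ 0 := fun h0 => by rw [h0, zero_mul] at h; exact zero_ne_one h
  have h2 : T 1 1 ≠ 0 := fun h0 => by rw [h0, mul_zero] at h; exact zero_ne_one h
  refine ⟨h2, by rw [i3, hT, neg_zero], by rw [i4]; exact h1, h1⟩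

theorem aff_den (T : SL) (hT : T 1 0 = 0) (z : ℂ) : T 1 0 * z + T 1 1 ≠ 0 := by
  rw [hT, zero_mul, zero_add]
  exact (aff_facts T hT).1

theorem aff_cont (T : SL) (hT : T 1 0 = 0) : Continuous (mb T) := by
  have h : mb T = fun z => (T 0 0 * z + T 0 1) / T 1 1 := by
    funext z
    unfold mb
    rw [hT, zero_mul, zero_add]
  rw [h]
  fun_prop

theorem aff_inv (hCHV : StCHV) (T : SL) (hT : T 1 0 = 0) (z : ℂ) : mb T⁻¹ (mb T z) = z ∧
    mb T (mb T⁻¹ z) = z := by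
  obtain ⟨-, c2, -, c4, -⟩ := hCHV
  constructor
  · rw [← (c2 T⁻¹ T z (aff_den T hT z)).1, inv_mul_cancel, c4]
  · rw [← (c2 T T⁻¹ z (aff_den T⁻¹ (aff_facts T hT).2.1 z)).1, mul_inv_cancel, c4]

theorem aff_image (hCHV : StCHV) (T : SL) (hT : T 1 0 = 0) (A : Set ℂ) :
    mb T '' A = (mb T⁻¹) ⁻¹' A := by
  ext z
  constructor
  · rintro ⟨x, hx, rfl⟩
    show mb T⁻¹ (mb T x) ∈ A
    rw [(aff_inv hCHV T hT x).1]
    exact hx
  · intro hz
    exact ⟨mb T⁻¹ z, hz, (aff_inv hCHV T hT z).2⟩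

theorem cj_den (hCHV : StCHV) (T M : SL) (hT : T 1 0 = 0) (ξ : ℂ) (hM : M 1 0 * ξ + M 1 1 ≠ 0) :
    (T * M * T⁻¹) 1 0 * mb T ξ + (T * M * T⁻¹) 1 1 ≠ 0 ∧
    mb (T * M * T⁻¹) (mb T ξ) = mb T (mb M ξ) := by
  obtain ⟨-, c2, -, c4, -⟩ := id hCHV
  have h1 := aff_den T⁻¹ (aff_facts T hT).2.1 (mb T ξ)
  have h2 := c2 (T * M) T⁻¹ (mb T ξ) h1
  have h3 := c2 T M ξ hM
  rw [(aff_inv hCHV T hT ξ).1] at h2
  refine ⟨?_, ?_⟩
  · rw [h2.2, h3.2]
    exact mul_ne_zero (mul_ne_zero (aff_den T hT _) hM) h1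
  · rw [h2.1, h3.1]

/-- Kleinian data are invariant under affine maps -/
theorem kd_aff (hACT : StACT) (hCHV : StCHV) (hHS1 : Pool.Agent.Helper35.PM.St_HS1)
    {Γ : Type} [Group Γ] (r : Γ →* SL) (A B : Set ℂ) (T : SL) (hT : T 1 0 = 0) (h : KD r A B) :
    KD (QD.cj T r) (mb T '' A) (mb T '' B) := by
  obtain ⟨a1, a2, a3, a4, a5, a6⟩ := id hACT
  obtain ⟨c1, c2, c3, c4, c5⟩ := id hCHV
  have hT' := (aff_facts T hT).2.1
  have hmp : ∀ (S : Set ℂ) (γ : Γ), (∀ ξ ∈ S, r γ 1 0 * ξ + r γ 1 1 ≠ 0 ∧ mb (r γ) ξ ∈ S) →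
      ∀ ξ ∈ mb T '' S, (QD.cj T r γ) 1 0 * ξ + (QD.cj T r γ) 1 1 ≠ 0 ∧
        mb (QD.cj T r γ) ξ ∈ mb T '' S := by
    rintro S γ hS _ ⟨ξ, hξ, rfl⟩
    obtain ⟨h1, h2⟩ := hS ξ hξ
    obtain ⟨h3, h4⟩ := cj_den hCHV T (r γ) hT ξ h1
    refine ⟨h3, ?_⟩
    show mb (T * r γ * T⁻¹) (mb T ξ) ∈ _
    rw [h4]
    exact mem_image_of_mem _ h2
  refine ⟨h.tf, ?_, ?_, ?_, h.neA.image _, h.neB.image _, ?_, ?_, fun γ => hmp A γ (h.mpA γ),
    fun γ => hmp B γ (h.mpB γ), ?_⟩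
  · intro X
    obtain ⟨hmul, -, h2, -⟩ := hHS1
    set c : ℝ := hs (T⁻¹ : SL).1 * hs (T : Mat) with hc
    refine (h.disc (c * X)).subset ?_
    intro γ hγ
    have hγ' : hs ((QD.cj T r) γ : Mat) ≤ X := hγ
    have e : (r γ : Mat) = (T⁻¹ : SL).1 * (((QD.cj T r) γ : SL).1 * (T : Mat)) := by
      have e1 : r γ = T⁻¹ * ((QD.cj T r) γ * T) := by
        show r γ = T⁻¹ * ((T * r γ * T⁻¹) * T)
        group
      have e2 := congrArg (fun X : SL => (X : Mat)) e1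
      simpa [Matrix.SpecialLinearGroup.coe_mul] using e2
    have h3 := h2 T
    have h4 := h2 T⁻¹
    show hs (r γ : Mat) ≤ c * X
    rw [e]
    calc hs ((T⁻¹ : SL).1 * (((QD.cj T r) γ : SL).1 * (T : Mat)))
        ≤ hs (T⁻¹ : SL).1 * hs (((QD.cj T r) γ : SL).1 * (T : Mat)) := hmul _ _
      _ ≤ hs (T⁻¹ : SL).1 * (hs ((QD.cj T r) γ : SL).1 * hs (T : Mat)) :=
          mul_le_mul_of_nonneg_left (hmul _ _) (by linarith)
      _ = c * hs ((QD.cj T r) γ : Mat) := by rw [hc]; ring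
      _ ≤ c * X := mul_le_mul_of_nonneg_left hγ' (by rw [hc]; exact mul_nonneg (by linarith) (by linarith))
  · rw [aff_image hCHV T hT]
    exact h.opA.preimage (aff_cont T⁻¹ hT')
  · rw [aff_image hCHV T hT]
    exact h.opB.preimage (aff_cont T⁻¹ hT')
  · rw [aff_image hCHV T hT, aff_image hCHV T hT]
    exact h.dis.preimage _
  · rw [aff_image hCHV T hT, aff_image hCHV T hT, ← Set.preimage_union, ← Set.preimage_compl]
    have hm : MeasurableSet (A ∪ B)ᶜ := (h.opA.union h.opB).measurableSet.compl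
    have h1 := c1 T⁻¹ ((A ∪ B)ᶜ.indicator 1) (measurable_one.indicator hm)
    rw [lintegral_indicator_one hm, h.nul] at h1
    have hne : ENNReal.ofReal (1 / ‖(T⁻¹) 1 1‖ ^ 4) ≠ 0 := by
      have := norm_pos_iff.2 (aff_facts T hT).2.2.1
      rw [Ne, ENNReal.ofReal_eq_zero, not_le]
      positivity
    have h2 : ∫⁻ ξ, ((A ∪ B)ᶜ.indicator 1 (mb T⁻¹ ξ) : ℝ≥0∞) *
        ENNReal.ofReal (1 / ‖(T⁻¹) 1 1‖ ^ 4) = 0 := by
      rw [← h1]
      refine lintegral_congr fun ξ => ?_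
      rw [hT', zero_mul, zero_add]
    have hmm : Measurable (fun ξ : ℂ => ((A ∪ B)ᶜ.indicator 1 (mb T⁻¹ ξ) : ℝ≥0∞)) :=
      (measurable_one.indicator hm).comp (c5 _)
    have h2' := lintegral_mul_const (μ := volume) (ENNReal.ofReal (1 / ‖(T⁻¹) 1 1‖ ^ 4)) hmm
    rw [h2', mul_eq_zero] at h2
    rcases h2 with h2 | h2
    · have h3 : ∫⁻ ξ, ((A ∪ B)ᶜ.indicator 1 (mb T⁻¹ ξ) : ℝ≥0∞) =
          volume ((mb T⁻¹) ⁻¹' (A ∪ B)ᶜ) := by
        rw [← lintegral_indicator_one ((c5 _) hm)]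
        rfl
      rw [← h3, h2]
    · exact absurd h2 hne
  · obtain ⟨K, KA, KB, τ, h1, h2, h3, h4, h5, h6, h7, h8⟩ := h.cpt
    have hTn : 0 < ‖T 1 1‖ ^ 2 := by
      have := norm_pos_iff.2 (aff_facts T hT).1
      positivity
    have hga2 : ∀ z : Pt, (ga T z).2 = z.2 / ‖T 1 1‖ ^ 2 := by
      intro z
      show z.2 / den T z = _
      unfold den
      rw [hT]
      simp
    have hga1 : ∀ z ∈ up, (ga T z).1 = mb T z.1 := by
      intro z hz
      have := a6 T z hz (aff_den T hT _)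
      rw [hT, map_zero, zero_mul, zero_div] at this
      exact sub_eq_zero.1 this
    refine ⟨ga T '' K, mb T '' KA, mb T '' KB, τ / ‖T 1 1‖ ^ 2, h1.image_of_continuousOn ((a4 T).2.mono h2),
      ?_, h3.image (aff_cont T hT), image_mono h4, h5.image (aff_cont T hT), image_mono h6,
      div_pos h7 hTn, ?_⟩
    · rintro _ ⟨x, hx, rfl⟩
      exact (a1 T x (h2 hx)).2.1
    · intro x hx
      have hy := (a1 T⁻¹ x hx).2.1
      obtain ⟨γ, hγ⟩ := h8 _ hy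
      refine ⟨γ, ?_⟩
      have hz := (a1 (r γ) _ hy).2.1
      have e : ga (QD.cj T r γ) x = ga T (ga (r γ) (ga T⁻¹ x)) := by
        show ga (T * r γ * T⁻¹) x = _
        rw [a2 (T * r γ) T⁻¹ x hx, a2 T (r γ) _ hy]
      rw [e]
      rcases hγ with hγ | ⟨hγ, hγ'⟩ | ⟨hγ, hγ'⟩
      · exact Or.inl (mem_image_of_mem _ hγ)
      · refine Or.inr (Or.inl ⟨?_, ?_⟩)
        · rw [hga1 _ hz]
          exact mem_image_of_mem _ hγ
        · rw [hga2]
          exact div_lt_div_of_pos_right hγ' hTn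
      · refine Or.inr (Or.inr ⟨?_, ?_⟩)
        · rw [hga1 _ hz]
          exact mem_image_of_mem _ hγ
        · rw [hga2]
          exact div_lt_div_of_pos_right hγ' hTn

/-- the composite matrix: `p ↦ ∞`, `q ↦ 0` -/
noncomputable def gT (p q : ℂ) : SL := ⟨!![1, - mi p q; 0, 1], by simp [Matrix.det_fin_two]⟩

theorem gT_entries (p q : ℂ) : (gT p q) 0 0 = 1 ∧ (gT p q) 0 1 = - mi p q ∧ (gT p q) 1 0 = 0 ∧
    (gT p q) 1 1 = 1 := by
  refine ⟨?_, ?_, ?_, ?_⟩ <;> simp [gT]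

theorem gT_mb (p q z : ℂ) : mb (gT p q) z = z - mi p q := by
  obtain ⟨e1, e2, e3, e4⟩ := gT_entries p q
  unfold mb
  rw [e1, e2, e3, e4]
  simp [sub_eq_add_neg]

/-- the matrix with `p ↦ ∞`, `q ↦ 0` -/
noncomputable def gpq (p q : ℂ) : SL := gT p q * gi p

theorem gpq_facts (hCHV : StCHV) (p q : ℂ) : (gpq p q) 1 0 * p + (gpq p q) 1 1 = 0 ∧
    (gpq p q) 1 0 = 1 ∧ (gpq p q) 0 0 = - mi p q ∧
    ∀ z, z ≠ p → (gpq p q) 1 0 * z + (gpq p q) 1 1 ≠ 0 ∧ mb (gpq p q) z = mi p z - mi p q := by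
  obtain ⟨-, c2, -, c4, -⟩ := id hCHV
  obtain ⟨e1, e2, e3, e4⟩ := gT_entries p q
  obtain ⟨g1, g2, g3, g4⟩ := gi_entries p
  have m10 : (gpq p q) 1 0 = 1 := by
    show (gT p q * gi p) 1 0 = 1
    rw [c_mul, e3, e4, g3]; ring
  have m11 : (gpq p q) 1 1 = -p := by
    show (gT p q * gi p) 1 1 = -p
    rw [c_mul, e3, e4, g4]; ring
  have m00 : (gpq p q) 0 0 = - mi p q := by
    show (gT p q * gi p) 0 0 = _
    rw [c_mul, e1, e2, g1, g3]; ring
  refine ⟨by rw [m10, m11]; ring, m10, m00, ?_⟩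
  intro z hz
  refine ⟨by rw [m10, m11, one_mul, ← sub_eq_add_neg]; exact sub_ne_zero.2 hz, ?_⟩
  have hg : (gi p) 1 0 * z + (gi p) 1 1 ≠ 0 := by
    rw [g3, g4, one_mul, ← sub_eq_add_neg]
    exact sub_ne_zero.2 hz
  show mb (gT p q * gi p) z = _
  rw [(c2 (gT p q) (gi p) z hg).1, gT_mb]
  congr 1
  unfold mb mi
  rw [g1, g2, g3, g4, zero_mul, zero_add, one_mul, ← sub_eq_add_neg]

theorem cj_cj {Γ : Type} [Group Γ] (T g : SL) (ρ : Γ →* SL) :
    QD.cj (T * g) ρ = QD.cj T (QD.cj g ρ) := by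
  ext γ : 1
  show T * g * ρ γ * (T * g)⁻¹ = T * (g * ρ γ * g⁻¹) * T⁻¹
  group

theorem fd_conj {Γ : Type} [Group Γ] (τ : Γ →* SL) (F0 : Set ℂ)
    (hF0 : FDOn (fun γ z => mb (τ γ) z) (Metric.ball 0 1) F0) :
    FDOn (fun γ z => mb (cc τ γ) z) (Metric.ball 0 1) ((fun z : ℂ => conj z) ⁻¹' F0) ∧
    ar2 ((fun z : ℂ => conj z) ⁻¹' F0) = ar2 F0 ∧ m2 ((fun z : ℂ => conj z) ⁻¹' F0) = m2 F0 := by
  have hcm : Measurable (fun z : ℂ => conj z) := Complex.continuous_conj.measurable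
  have h1 : MeasurePreserving (fun z : ℂ => conj z) volume volume :=
    Complex.conjLIE.measurePreserving
  refine ⟨⟨hcm hF0.mD, ?_, ?_⟩, ?_, ?_⟩
  · intro z hz
    have h1 := hF0.sub hz
    rw [Metric.mem_ball, dist_zero_right] at h1 ⊢
    rwa [RCLike.norm_conj] at h1
  · intro u hu
    have hu2 : conj u ∈ Metric.ball (0 : ℂ) 1 := by
      rw [Metric.mem_ball, dist_zero_right] at hu ⊢
      rwa [RCLike.norm_conj]
    refine (existsUnique_congr ?_).2 (hF0.ex _ hu2)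
    intro γ
    show conj (mb (cc τ γ) u) ∈ F0 ↔ mb (τ γ) (conj u) ∈ F0
    rw [cc_mb]
  · unfold ar2
    have h2 := h1.setIntegral_preimage_emb (Complex.conjLIE.toHomeomorph.measurableEmbedding)
      (fun z : ℂ => 4 / (1 - ‖z‖ ^ 2) ^ 2) F0
    rw [← h2]
    refine integral_congr_ae (Filter.Eventually.of_forall fun z => ?_)
    show (4 : ℝ) / (1 - ‖z‖ ^ 2) ^ 2 = 4 / (1 - ‖(starRingEnd ℂ) z‖ ^ 2) ^ 2
    rw [RCLike.norm_conj]
  · have hm : ∀ S : Set ℂ, MeasurableSet S → S ⊆ Metric.ball 0 1 →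
        m2 S = ∫⁻ z in S, ENNReal.ofReal (4 / (1 - ‖z‖ ^ 2) ^ 2) := by
      intro S hS hS'
      unfold m2
      rw [withDensity_apply _ hS, Measure.restrict_restrict hS, Set.inter_eq_self_of_subset_left hS']
    rw [hm F0 hF0.mD hF0.sub, hm _ (hcm hF0.mD)]
    · have hdm : Measurable (fun z : ℂ => ENNReal.ofReal (4 / (1 - ‖z‖ ^ 2) ^ 2)) := by fun_prop
      have h2 := h1.setLIntegral_comp_preimage hF0.mD hdm
      rw [← h2]
      apply lintegral_congr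
      intro z
      rw [RCLike.norm_conj]
    · intro z hz
      have h1 := hF0.sub hz
      rw [Metric.mem_ball, dist_zero_right] at h1 ⊢
      rwa [RCLike.norm_conj] at h1

/-- the two sides in the normalisation `p ↦ ∞`, `q ↦ 0`: `A` is the image of the inside, `B` the
image of the outside (with infinity) -/
theorem kd_pack (hACT : StACT) (hCHV : StCHV) (hSW1 : StSW1) (hRIJ : QD.StRIJ) (hKDG : StKDG)
    (hHS1 : Pool.Agent.Helper35.PM.St_HS1) {Γ : Type} [Group Γ] (ρ : Γ →* SL) (p q : ℂ)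
    (hgood : Good ρ) (hp : p ∈ Lam ρ) (tf : ∀ (γ : Γ) (n : ℕ), 1 ≤ n → γ ^ n = 1 → γ = 1) :
    KD (QD.cj (gpq p q) ρ) (mb (gpq p q) '' inn (Lam ρ))
      (insert (- mi p q) (mb (gpq p q) '' out (Lam ρ))) ∧
    (∀ (τ : Γ →* SL) (f : ℂ → ℂ), OneSide ρ τ f → ∃ (F : ℂ → ℂ) (σ' : Γ →* SL),
      CF (QD.cj (gpq p q) ρ) (mb (gpq p q) '' inn (Lam ρ)) F σ' ∧
      ∀ (F0 DA : Set ℂ), FDOn (fun γ z => mb (τ γ) z) (Metric.ball 0 1) F0 →
        FDOn (ab (QD.cj (gpq p q) ρ)) (mb (gpq p q) '' inn (Lam ρ)) DA →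
        ∫ ξ in DA, rX F ξ = ar2 F0 ∧ ∫⁻ ξ in DA, ENNReal.ofReal (rX F ξ) = m2 F0) ∧
    (∀ (τ : Γ →* SL) (G : ℂ → ℂ), OutSide ρ τ G → ∃ (F : ℂ → ℂ) (σ' : Γ →* SL),
      CF (QD.cj (gpq p q) ρ) (insert (- mi p q) (mb (gpq p q) '' out (Lam ρ))) F σ' ∧
      ∀ (F0 DB : Set ℂ), FDOn (fun γ z => mb (τ γ) z) (Metric.ball 0 1) F0 →
        FDOn (ab (QD.cj (gpq p q) ρ)) (insert (- mi p q) (mb (gpq p q) '' out (Lam ρ))) DB →
        ∫ ξ in DB, rX F ξ = ar2 F0 ∧ ∫⁻ ξ in DB, ENNReal.ofReal (rX F ξ) = m2 F0) := by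
  obtain ⟨c1, c2, c3, c4, c5⟩ := id hCHV
  obtain ⟨-, -, -, hg⟩ := gpq_facts hCHV p q
  have hT : (gT p q) 1 0 = 0 := (gT_entries p q).2.2.1
  have hpin : ∀ z ∈ inn (Lam ρ), z ≠ p := fun z hz h => hz.1 (h ▸ hp)
  have hpout : ∀ z ∈ out (Lam ρ), z ≠ p := fun z hz h => hz.1 (h ▸ hp)
  have hA : mb (gT p q) '' sB ρ p = mb (gpq p q) '' inn (Lam ρ) := by
    unfold sB
    rw [Set.image_image]
    refine Set.image_congr fun z hz => ?_
    rw [gT_mb, (hg z (hpin z hz)).2]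
  have hB : mb (gT p q) '' sA ρ p = insert (- mi p q) (mb (gpq p q) '' out (Lam ρ)) := by
    unfold sA
    rw [Set.image_insert_eq, Set.image_image, gT_mb, zero_sub]
    congr 1
    refine Set.image_congr fun z hz => ?_
    rw [gT_mb, (hg z (hpout z hz)).2]
  have hkd := kd_aff hACT hCHV hHS1 _ _ _ (gT p q) hT (kd_symm (hKDG Γ ρ p hgood hp tf))
  rw [← cj_cj, hA, hB] at hkd
  have hctb : Countable Γ := by
    have h1 : (Set.univ : Set Γ) = ⋃ n : ℕ, {γ : Γ | hs (ρ γ) ≤ n} := by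
      ext γ
      simp only [Set.mem_univ, Set.mem_iUnion, true_iff]
      obtain ⟨n, hn⟩ := exists_nat_ge (hs (ρ γ))
      exact ⟨n, hn⟩
    have h2 : (Set.univ : Set Γ).Countable := by
      rw [h1]
      exact Set.countable_iUnion fun n => (hgood.cc.discrete n).countable
    exact Set.countable_univ_iff.1 h2
  refine ⟨hkd, ?_, ?_⟩
  · intro τ f hf
    have hfD : ∀ u : ℂ, ‖u‖ < 1 → f u ∈ inn (Lam ρ) := fun u hu => hf.bij.mapsTo (by
      show u ∈ Metric.ball (0 : ℂ) 1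
      rwa [Metric.mem_ball, dist_zero_right])
    refine cf_gen hCHV hSW1 hRIJ (QD.cj (gpq p q) ρ) τ _ (fun u => mb (gpq p q) (f u)) hctb
      hf.fuch.su ?_ ?_ ?_ ?_
    · intro u hu
      have hu' := hu
      rw [Metric.mem_ball, dist_zero_right] at hu'
      have h1 : DifferentiableAt ℂ (mb (gpq p q)) (f u) :=
        (c_deriv _ _ (hg _ (hpin _ (hfD u hu'))).1).differentiableAt
      have h2 : DifferentiableWithinAt ℂ (mb (gpq p q) ∘ f) (Metric.ball 0 1) u :=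
        DifferentiableAt.comp_differentiableWithinAt u h1 (hf.hol u hu)
      exact h2
    · intro u hu v hv h
      have hu' := hu
      have hv' := hv
      rw [Metric.mem_ball, dist_zero_right] at hu' hv'
      have n1 := hpin _ (hfD u hu')
      have n2 := hpin _ (hfD v hv')
      have h' : mb (gpq p q) (f u) = mb (gpq p q) (f v) := h
      rw [(hg _ n1).2, (hg _ n2).2] at h'
      exact hf.bij.injOn hu hv (mi_inj n1 n2 (sub_left_injective h'))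
    · show (fun u => mb (gpq p q) (f u)) '' (Metric.ball 0 1) = _
      rw [← hf.bij.image_eq, Set.image_image]
    · intro γ u hu
      have hu2 : u ∈ Metric.closedBall (0 : ℂ) 1 := by
        rw [Metric.mem_closedBall, dist_zero_right]
        exact hu.le
      obtain ⟨h1, h2⟩ := hf.eqv γ u hu2
      have h1' : (ρ γ) 1 0 * f u + (ρ γ) 1 1 ≠ 0 := h1
      show mb (gpq p q) (f (mb (τ γ) u)) = mb (QD.cj (gpq p q) ρ γ) (mb (gpq p q) (f u))
      have h3 : f (mb (τ γ) u) = mb (ρ γ) (f u) := h2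
      rw [h3, ← (c2 (QD.cj (gpq p q) ρ γ) (gpq p q) (f u) (hg _ (hpin _ (hfD u hu))).1).1, cj_apply,
        inv_mul_cancel_right, (c2 (gpq p q) (ρ γ) (f u) h1').1]
  · intro τ G hG
    have e : ∀ u : ℂ, HH p G u ∈ sA ρ p ∨ ¬ ‖u‖ < 1 := by
      intro u
      by_cases hu : ‖u‖ < 1
      · left
        rw [← HH_img (p := p) hG]
        exact ⟨u, by rwa [Metric.mem_ball, dist_zero_right], rfl⟩
      · exact Or.inr hu
    have hmain := cf_gen hCHV hSW1 hRIJ (QD.cj (gpq p q) ρ) (cc τ)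
      (insert (- mi p q) (mb (gpq p q) '' out (Lam ρ))) (fun u => mb (gT p q) (HH p G u)) hctb
      (fun γ => cc_su (hG.fuch.su γ)) ?_ ?_ ?_ ?_
    · obtain ⟨F, σ', h1, h2⟩ := hmain
      refine ⟨F, σ', h1, fun F0 DB hF0 hDB => ?_⟩
      obtain ⟨h3, h4, h5⟩ := fd_conj τ F0 hF0
      have h6 := h2 _ DB h3 hDB
      rw [h4, h5] at h6
      exact h6
    · intro u hu
      have h1 : DifferentiableAt ℂ (mb (gT p q)) (HH p G u) :=
        (c_deriv _ _ (aff_den _ hT _)).differentiableAt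
      have h2 : DifferentiableWithinAt ℂ (mb (gT p q) ∘ HH p G) (Metric.ball 0 1) u :=
        DifferentiableAt.comp_differentiableWithinAt u h1 (HH_diff hp hG u hu)
      exact h2
    · intro u hu v hv h
      have h' : mb (gT p q) (HH p G u) = mb (gT p q) (HH p G v) := h
      rw [gT_mb, gT_mb] at h'
      exact HH_inj hp hG hu hv (sub_left_injective h')
    · show (fun u => mb (gT p q) (HH p G u)) '' (Metric.ball 0 1) = _
      rw [← hB, ← HH_img (p := p) hG, Set.image_image]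
    · intro γ u hu
      show mb (gT p q) (HH p G (mb (cc τ γ) u)) = mb (QD.cj (gpq p q) ρ γ) (mb (gT p q) (HH p G u))
      rw [HH_eqv hp hG γ hu]
      have hkd2 := (hKDG Γ ρ p hgood hp tf).mpA γ (HH p G u) ((e u).resolve_right (not_not.2 hu))
      obtain ⟨-, h4⟩ := cj_den hCHV (gT p q) (QD.cj (gi p) ρ γ) hT (HH p G u) hkd2.1
      rw [← h4]
      congr 1
      show gT p q * QD.cj (gi p) ρ γ * (gT p q)⁻¹ = QD.cj (gT p q * gi p) ρ γ
      rw [cj_cj]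
      rfl

end Pool.Agent.Helper86.QA
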