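import Pool.Agent.Helper86.QA.M_A1

/-!
# Project QD, part A, module TQF: the deformed group is quasifuchsian
-/

set_option autoImplicit false

open MeasureTheory Matrix Set Topology Filter
open scoped ENNReal ComplexConjugate ComplexOrder

namespace Pool.Agent.Helper86.QA

open Pool.Agent.Helper20
open Pool.Agent.Helper35.PM (hs IsDiscrete IsQF limitSet)
open Pool.Agent.Helper20.QD (Fuch Good Lam inn out IsSU CC mob)

theorem hTQF (hLQC : QD.StLQC) (hLLA : QD.StLLA) (hTGO : StTGO) : StTQF := by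
  intro Γ _ σ ρ w hT hf
  have hG := (hTGO Γ σ ρ w hT).1
  refine ⟨?_, hG.cc.discrete, good_circle hLQC hLLA ρ hG, hG.cc.cocompact⟩
  intro γ hγ
  apply hf
  have hsu := hT.fs.su γ
  obtain ⟨s1, s2⟩ := hsu
  have hdet : (σ γ : Mat) 0 0 * (σ γ : Mat) 1 1 - (σ γ : Mat) 0 1 * (σ γ : Mat) 1 0 = 1 := by
    have := (σ γ).det_coe
    rwa [Matrix.det_fin_two] at this
  rw [s1, s2, Complex.mul_conj, Complex.mul_conj] at hdet
  have hd : Complex.normSq ((σ γ : Mat) 0 0) - Complex.normSq ((σ γ : Mat) 0 1) = 1 := by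
    exact_mod_cast hdet
  rw [Complex.normSq_eq_norm_sq, Complex.normSq_eq_norm_sq] at hd
  have hid : ∀ y : ℂ, mob (ρ γ) y = y := by
    intro y
    unfold mob
    rcases hγ with h | h <;> rw [h] <;> simp
  have key : ∀ z : ℂ, QD.den (σ γ) z ≠ 0 → mob (σ γ) z = z := by
    intro z hz
    have h1 := (hT.eq γ z).2 hz
    rw [hid] at h1
    exact hT.ho.injective h1
  -- the point zero
  have h00 : (σ γ : Mat) 0 0 ≠ 0 := by
    intro h
    rw [h, norm_zero] at hd
    nlinarith [sq_nonneg ‖(σ γ : Mat) 0 1‖]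
  have hc00 : conj ((σ γ : Mat) 0 0) ≠ 0 := by
    rwa [Ne, map_eq_zero]
  have hb : (σ γ : Mat) 0 1 = 0 := by
    have h1 := key 0 (by
      unfold QD.den
      rw [s1, mul_zero, zero_add]
      exact hc00)
    unfold mob at h1
    rw [mul_zero, mul_zero, zero_add, zero_add, s1, div_eq_zero_iff] at h1
    exact h1.resolve_right hc00
  have hc : (σ γ : Mat) 1 0 = 0 := by rw [s2, hb, map_zero]
  have ha : (σ γ : Mat) 0 0 = conj ((σ γ : Mat) 0 0) := by
    have h1 := key 1 (by
      unfold QD.den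
      rw [s1, hc, zero_mul, zero_add]
      exact hc00)
    unfold mob at h1
    rw [hb, hc, s1, mul_one, mul_one, add_zero, zero_add, div_eq_one_iff_eq hc00] at h1
    exact h1
  rw [hb, norm_zero] at hd
  have hd1 : (σ γ : Mat) 0 0 * (σ γ : Mat) 0 0 = 1 := by
    nth_rw 2 [ha]
    rw [Complex.mul_conj, Complex.normSq_eq_norm_sq]
    have : ‖(σ γ : Mat) 0 0‖ ^ 2 = 1 := by linarith
    rw [this]
    simp
  have h11 : (σ γ : Mat) 1 1 = (σ γ : Mat) 0 0 := by rw [s1, ← ha]
  rcases mul_self_eq_one_iff.1 hd1 with h1 | h1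
  · left
    ext i j
    fin_cases i <;> fin_cases j
    · simpa using h1
    · simpa using hb
    · simpa using hc
    · simpa using h11.trans h1
  · right
    ext i j
    fin_cases i <;> fin_cases j
    · simpa using h1
    · simpa using hb
    · simpa using hc
    · simpa using h11.trans h1

end Pool.Agent.Helper86.QA
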