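import Pool.Agent.Helper86.QA.All2
import Pool.Agent.Helper86.QA.M_TQF
import Pool.Agent.Helper86.QA.Glue
import Pool.Agent.Helper86.QA.KDP

/-!
# Project QD, part A: closed statements, third file
-/

set_option autoImplicit false

open MeasureTheory Matrix Set Topology
open scoped ENNReal ComplexConjugate

namespace Pool.Agent.Helper86.QA

open Pool.Agent.Helper20
open Pool.Agent.Helper20.QD (Fuch Good OutSide OneSide Lam inn out)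

theorem tTQF : StTQF :=
  hTQF Pool.Agent.Helper20.QD.b_LQC Pool.Agent.Helper20.QD.b_LLA tTGO

/-- normalised Kleinian data of a good group (no hypotheses) -/
theorem kd_pack' {Γ : Type} [Group Γ] (ρ : Γ →* SL) (p q : ℂ)
    (hgood : Good ρ) (hp : p ∈ Lam ρ) (tf : ∀ (γ : Γ) (n : ℕ), 1 ≤ n → γ ^ n = 1 → γ = 1) :
    KD (QD.cj (gpq p q) ρ) (mb (gpq p q) '' inn (Lam ρ))
      (insert (- mi p q) (mb (gpq p q) '' out (Lam ρ))) ∧
    (∀ (τ : Γ →* SL) (f : ℂ → ℂ), OneSide ρ τ f → ∃ (F : ℂ → ℂ) (σ' : Γ →* SL),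
      CF (QD.cj (gpq p q) ρ) (mb (gpq p q) '' inn (Lam ρ)) F σ' ∧
      ∀ (F0 DA : Set ℂ), FDOn (fun γ z => mb (τ γ) z) (Metric.ball 0 1) F0 →
        FDOn (ab (QD.cj (gpq p q) ρ)) (mb (gpq p q) '' inn (Lam ρ)) DA →
        ∫ ξ in DA, rX F ξ = ar2 F0 ∧ ∫⁻ ξ in DA, ENNReal.ofReal (rX F ξ) = m2 F0) ∧
    (∀ (τ : Γ →* SL) (G : ℂ → ℂ), OutSide ρ τ G → ∃ (F : ℂ → ℂ) (σ' : Γ →* SL),
      CF (QD.cj (gpq p q) ρ) (insert (- mi p q) (mb (gpq p q) '' out (Lam ρ))) F σ' ∧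
      ∀ (F0 DB : Set ℂ), FDOn (fun γ z => mb (τ γ) z) (Metric.ball 0 1) F0 →
        FDOn (ab (QD.cj (gpq p q) ρ)) (insert (- mi p q) (mb (gpq p q) '' out (Lam ρ))) DB →
        ∫ ξ in DB, rX F ξ = ar2 F0 ∧ ∫⁻ ξ in DB, ENNReal.ofReal (rX F ξ) = m2 F0) :=
  kd_pack tACT tCHV tSW1 Pool.Agent.Helper20.QD.b_RIJ tKDG Pool.Agent.Helper35.PM.hs1_ ρ p q
    hgood hp tf

end Pool.Agent.Helper86.QA
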