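import Pool.Agent.Helper86.QA.All3
import Pool.Agent.Helper70.QA.M_AD1
import Pool.Agent.Helper2.QA.M_AD2
import Pool.Agent.Helper72.QA.M_MQ1
import Pool.Agent.Helper89.QA.M_MQ2
import Pool.Agent.Helper99.QA.M_AFD
import Pool.Agent.Helper10.QA.M_AV0
import Pool.Agent.Helper28.QA.M_AXI
import Pool.Agent.Helper47.QA.M_AV1
import Pool.Agent.Helper98.QA.M_AV2
import Pool.Agent.Helper12.QA.M_AV3
import Pool.Agent.Helper87.QA.M_AIN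

set_option autoImplicit false

namespace Pool.Agent.Helper86.QA

theorem tAD1 : StAD1 := Pool.Agent.Helper70.QA.hAD1 tCHV

theorem tAD2 : StAD2 := Pool.Agent.Helper2.QA.hAD2 tAD1

theorem tMQ1 : StMQ1 := Pool.Agent.Helper72.QA.hMQ1 tCHV tAD1

theorem tMQ2 : StMQ2 := Pool.Agent.Helper89.QA.hMQ2 tAD1 tMQ1

theorem tAFD : StAFD := Pool.Agent.Helper99.QA.hAFD tCHV tFDX tSW1 tAD1 tMQ1

theorem tAV0 : StAV0 := Pool.Agent.Helper10.QA.hAV0 tSWS tMQ1 tMQ2 tAFD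

theorem tAXI : StAXI := Pool.Agent.Helper28.QA.hAXI tCHV tAD1 tAFD

theorem tAV1 : StAV1 := Pool.Agent.Helper47.QA.hAV1 tAD1 tAD2 tMQ1 tMQ2 tAFD tAV0 tAXI

theorem tAV2 : StAV2 := Pool.Agent.Helper98.QA.hAV2 tAD1 tMQ1 tMQ2

theorem tAV3 : StAV3 := Pool.Agent.Helper12.QA.hAV3 tAD1 tMQ1 tMQ2 tAV2

theorem tAIN : StAIN := Pool.Agent.Helper87.QA.hAIN tMQ1 tAFD tAV1 tAV2 tAV3 Pool.Agent.Helper20.QD.b_FTF

end Pool.Agent.Helper86.QA
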