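import Pool.Agent.Helper86.QA.St3
import Pool.Agent.Helper20.QD.St5
import Pool.Agent.Helper20.QD.St2

/-!
# Project QD, part A, statements 4: Kleinian data of a convex cocompact group, convex cocompactness
# of a topologically Fuchsian group, orbit counting, glue with part B

`sph` is the boundary sphere (rank one matrices of trace one), `Qp z`, `Qinf` its points,
`act A` the action (`Pool/Agent/Helper20/QD/Defs.lean`); the statements `QD.StLFR`, `QD.StLQC`, `QD.StLMX`,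
`QD.StLLS`, `QD.StLCJ`, `QD.StTJ1`, `QD.StTJ2` ... are those of helper20 (St1, St3 there).
`A Q = ` action, `hs A = ‖A‖²`.  For `Q ∈ sph`: `Nn A Q = tr (A Q A*) > 0`.
Facts used all the time (QD.StLMX): `O A = density (A A*)`, for `Q ∈ sph`
`fr (O A) (act A Q) ≤ 2/(hs A · Nn A Q)` and `hs A · fr (O A⁻¹) Q/2 ≤ Nn A Q`, so `fr (O A) (act A Q) ≤ 4/(hs² fr (O A⁻¹) Q)`.
-/

set_option autoImplicit false

open MeasureTheory Matrix Set Topology Filter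
open scoped ENNReal ComplexConjugate ComplexOrder

namespace Pool.Agent.Helper86.QA

open Pool.Agent.Helper35.PM (hs IsDiscrete ConvexCocompact IsQF limitSet density ent num classes
  SurfaceGroup)
open Pool.Agent.Helper20.QD (Fuch Good OutSide OneSide Lam inn out Qp Qinf sph act orb fr IsSU CC
  mob Param)
open Pool.Agent.Helper20

/-- the quadratic form `v ↦ ‖A v‖²` at the unit vector of `Q` -/
noncomputable def Nn (A : SL) (Q : Mat) : ℝ := ((A : Mat) * Q * (A : Mat)ᴴ).trace.re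

/-- a Fuchsian group `σ`, a homeomorphism `w` of the plane conjugating it to `ρ` (on the sphere,
with `w ∞ = ∞`) -/
structure TM {Γ : Type} [Group Γ] (σ ρ : Γ →* SL) (w : ℂ → ℂ) : Prop where
  fs : Fuch σ
  ho : IsHomeomorph w
  eq : ∀ γ, ∀ z : ℂ, (QD.den (σ γ) z = 0 ↔ QD.den (ρ γ) (w z) = 0) ∧
    (QD.den (σ γ) z ≠ 0 → w (mob (σ γ) z) = mob (ρ γ) (w z))

open Classical in
/-- extension of `w` to the sphere -/
noncomputable def wh (w : ℂ → ℂ) (Q : Mat) : Mat :=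
  if Q 1 1 = 0 then Qinf else Qp (w (Q 0 1 / Q 1 1))

/-- every limit point is conical (in a form which is convenient here) -/
def Con {Γ : Type} [Group Γ] (ρ : Γ →* SL) : Prop :=
  ∀ Q ∈ limitSet ρ, ∀ ε : ℝ, 0 < ε → ∃ γ : Γ, Nn (ρ γ) Q < ε

/-- the Dirichlet domain around the base point, in the closed ball -/
def Dir {Γ : Type} [Group Γ] (ρ : Γ →* SL) : Set Mat :=
  {P | P.PosSemidef ∧ P.trace = 1 ∧ ∀ γ : Γ, 1 ≤ Nn (ρ γ) P}

/-- WHM (the homeomorphism of the sphere).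

Proof. (1) `(Qp z) 1 1 = 1/(1+|z|²) ≠ 0`, `(Qp z) 0 1/(Qp z) 1 1 = z`. (2) continuity: at `Qp z` because `Q ↦ Q 0 1/Q 1 1` is continuous; at `Qinf`: `w` is proper (a homeomorphism of the plane), `Q → Qinf` in `sph ∖ {Qinf}` means `Q = Qp z`, `|z| → ∞` (`fr Qinf (Qp z) = 2/(1+|z|²)`), so `|w z| → ∞`. Bijective: the inverse is `wh` of the inverse. (3) equivariance.
`Q = Qp z`: LQC (3): if `den (σ γ) z ≠ 0` then also `den (ρ γ) (w z) ≠ 0` and both sides are `Qp (w (mob ..))`; if it is zero both sides are `Qinf`. `Q = Qinf`, `A = σ γ`, `A' = ρ γ`: if `act A Qinf = Qp z` then `act A⁻¹ (Qp z) = Qinf` (LQC (5)), so `den A⁻¹ z = 0`, `den A'⁻¹ (w z) = 0` (`eq` for `γ⁻¹`), `act A'⁻¹ (Qp (w z)) = Qinf`,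
`act A' Qinf = Qp (w z)`. If `act A Qinf = Qinf` and `act A' Qinf = Qp u`, `u = w z`, the same argument backwards gives `act A Qinf = Qp z`: contradiction. -/
def StWHM : Prop := ∀ w : ℂ → ℂ, IsHomeomorph w →
  (∀ z : ℂ, wh w (Qp z) = Qp (w z)) ∧ wh w Qinf = Qinf ∧ ContinuousOn (wh w) sph ∧
  BijOn (wh w) sph sph ∧ IsCompact sph ∧
  ∀ (Γ : Type) [Group Γ] (σ ρ : Γ →* SL), TM σ ρ w →
    ∀ γ : Γ, ∀ Q ∈ sph, wh w (act (σ γ) Q) = act (ρ γ) (wh w Q)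

/-- FUC (Fuchsian groups).

Proof. `A = [[a,b],[conj b,conj a]]`, `|a|²-|b|² = 1`, `hs A = 2(|a|²+|b|²)`. (1) `A A* ` has equal diagonal entries, so the same is true for cluster points; with determinant zero (`QD.StLLS`: `limitSet ⊆ sph`) they are `(1/2)[[1,u],[conj u,1]] = Qp u`, `|u| = 1`. So `limitSet σ ⊆ Qp '' SS`. (2) Let `r0` be the constant of `Fuch.cocompact`, `ζ ∈ SS`, `r < 1` close to `1`,
`z = rζ`, `γ` with `|mob A z| ≤ r0`, `A = σ γ`. `1 - |mob A z|² = (1-r²)/|den A z|²`, so `|conj b z + conj a|² ≤ (1-r²)/(1-r0²)`. Since `|a| - |b| ≤ |conj b z + conj a|` and `(|a|-|b|)(|a|+|b|) = 1`: `|a|+|b| ≥ ((1-r0²)/(1-r²))^(1/2)`, so `hs A → ∞` as `r → 1`. Upper bound: `mob A⁻¹ maps w = mob A z to z`: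
`1 - |z|² = (1-|w|²)/|den A⁻¹ w|²`, `|den A⁻¹ w| ≥ |a| - |b||w| ≥ |a|(1-r0)`, so `|a|² ≤ 1/((1-r0)²(1-r²))`: `hs A ≤ 4|a|² ≤ C/(1-r)`. `Nn A (Qp ζ) = (|aζ+b|²+|conj b ζ+conj a|²)/2 = |conj b ζ + conj a|²` (`|aζ+b| = |conj b ζ + conj a|` for `|ζ| = 1`) `≤ (|den A z| + |b|(1-r))² ≤ C'(1-r)`. The product is at most `C C'`.
(3) `⊇`: from (2), `QD.StLMX (2)`: `hs A fr (O A⁻¹) Q/2 ≤ Nn A Q`, so `fr (orb σ γ⁻¹) (Qp ζ) ≤ 2C/hs² → 0`; the elements `γ⁻¹` leave every finite set. -/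
def StFUC : Prop := ∀ (Γ : Type) [Group Γ] (σ : Γ →* SL), Fuch σ →
  limitSet σ = Qp '' Metric.sphere 0 1 ∧
  ∃ C : ℝ, 0 < C ∧ ∀ ζ ∈ Metric.sphere (0 : ℂ) 1, ∀ X : ℝ, ∃ γ : Γ,
    X < hs (σ γ : Mat) ∧ Nn (σ γ) (Qp ζ) * hs (σ γ : Mat) ≤ C

/-- TDS (discreteness of the deformed group).

Proof. Suppose infinitely many `γ` have `hs (ρ γ) ≤ X`; take an injective sequence `γ_n` of them; passing to a subsequence `ρ γ_n → g` entrywise, `det g = 1` (bounded matrices), and `orb σ γ_n → a`, `orb σ γ_n⁻¹ → r` (compactness of the matrices of trace one), `hs (σ γ_n) → ∞` (discreteness of `σ`), `a, r ∈ sph`. For `Q ∈ sph`, `Q ≠ r`: `fr (orb σ γ_n) (act (σ γ_n) Q) ≤ 4/(hs² fr (orb σ γ_n⁻¹) Q) → 0`,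
so `act (σ γ_n) Q → a`, hence `act (ρ γ_n) (wh w Q) = wh w (act (σ γ_n) Q) → wh w a` (WHM). On the other hand `act (ρ γ_n) (wh w Q) → act g (wh w Q)` (`act` is continuous in the matrix at `Q ∈ sph`: the trace of `g Q g*` is not zero). So `act g` is constant on `sph ∖ {wh w r}`, contradiction (`act g` is injective on `sph`, `act g⁻¹` is the inverse). -/
def StTDS : Prop := ∀ (Γ : Type) [Group Γ] (σ ρ : Γ →* SL) (w : ℂ → ℂ), TM σ ρ w → IsDiscrete ρ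

/-- TLM (limit set and conical limit points of the deformed group).

Proof. (0) Main remark: let `γ_n` be a sequence leaving every finite set, `orb σ γ_n → a`, `orb σ γ_n⁻¹ → r`, `orb ρ γ_n → a'`, `orb ρ γ_n⁻¹ → r'` (all in `sph`, as `hs → ∞` on both sides: `σ`, `ρ` discrete, TDS). For `Q ∈ sph` different from `r` and from `(wh w)⁻¹ r'`: `act (σ γ_n) Q → a` and `act (ρ γ_n) (wh w Q) → a'` (as in TDS), so `a' = wh w a`. (1) `⊆`: for `Q' ∈ limitSet ρ` take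
(`QD.StLLS (5)`) `γ_n` with `fr (orb ρ γ_n) Q' → 0`, `hs (ρ γ_n) → ∞`; subsequence as in (0): `Q' = wh w a`, `a ∈ limitSet σ = Qp '' SS` (FUC). `⊇`: `Q = Qp ζ`: `γ_n` with `orb σ γ_n → Q` (`QD.StLLS (5)` for `σ`), subsequence: `wh w Q = a' ∈ limitSet ρ`. (2) `Con`: let `Q' = wh w (Qp ζ)`, `γ_n` from FUC with `hs (σ γ_n) → ∞`, `Nn (σ γ_n) (Qp ζ) hs (σ γ_n) ≤ C`;
subsequence as in (0). The identity behind `QD.StLMX`: for `Q ∈ sph`, `fr (O A) (act A Q) = 2/(hs A Nn A Q) - 2/hs A²` (`fr X Y = 2 - 2 det X - 2 det Y - 2 tr (XY)` for trace one, `1 - tr (X'Y') = 1/(hs A Nn A Q)`, `det X' = 1/hs²`, `det Y' = 0`), so `fr (orb σ γ_n) (act (σ γ_n) (Qp ζ)) ≥ 1/C` for large `n`: the cluster points of `act (σ γ_n) (Qp ζ)` are different from `a`, those of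
`act (ρ γ_n) Q' = wh w (act (σ γ_n) (Qp ζ))` different from `wh w a = a'` (injectivity), so `fr (orb ρ γ_n) (act (ρ γ_n) Q') ≥ c > 0` for large `n` (compactness), and `Nn (ρ γ_n) Q' ≤ 2/(c hs (ρ γ_n)) → 0`. -/
def StTLM : Prop := ∀ (Γ : Type) [Group Γ] (σ ρ : Γ →* SL) (w : ℂ → ℂ), TM σ ρ w →
  limitSet ρ = Qp '' (w '' Metric.sphere 0 1) ∧ Con ρ

/-- DRC (Dirichlet domain).

Proof. (1) closed and bounded (a positive semidefinite matrix of trace one has entries of modulus at most one); `Nn` is continuous. (2) `P` positive definite: `Nn (ρ γ) P ≥ c hs (ρ γ)`, `c > 0` the smallest eigenvalue, so by discreteness the minimum of `γ ↦ Nn (ρ γ) P` is attained at some `γ`; `P' = act (ρ γ) P = ρ γ P ρ γ*/Nn (ρ γ) P` (`Nn > 0`, the trace is real), and `Nn (ρ δ) P' = Nn (ρ (δγ)) P/Nn (ρ γ) P ≥ 1`. (3) clear: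
`Nn (ρ γ) Q < 1` for some `γ`. -/
def StDRC : Prop := ∀ (Γ : Type) [Group Γ] (ρ : Γ →* SL), IsDiscrete ρ →
  IsCompact (Dir ρ) ∧
  (∀ P : Mat, P.PosDef → P.trace = 1 → ∃ γ : Γ, act (ρ γ) P ∈ Dir ρ ∧ (act (ρ γ) P).PosDef) ∧
  (Con ρ → Disjoint (Dir ρ) (limitSet ρ))

/-- HCC (conical limit points imply convex cocompactness).

Proof. `L = limitSet ρ` is compact (`QD.StLLS`), contained in `sph`, invariant. `H = convexHull ℝ L` is compact (finite dimension), consists of positive semidefinite matrices of trace one. `C = {P ∈ H | P.PosDef}` is convex; nonempty: the midpoint of two different points of `L` (two different rank one projections `vv*`, `uu*` with `u, v` independent) is positive definite. Invariant: `act A (∑ tᵢ Qᵢ)` is the convex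
combination of the `act A Qᵢ` with weights `tᵢ Nn A Qᵢ/∑`. `K = H ∩ Dir ρ` is compact; `P ∈ K` is positive definite: otherwise `det P = 0`, `P` has rank one, `P = vv*`, and `P = ∑ tᵢ Qᵢ` (`tᵢ > 0`, `Qᵢ ∈ L`) with `u* P u = 0` for `u ⊥ v` gives `u* Qᵢ u = 0`, `Qᵢ = vv* = P`, so `P ∈ L`, contradiction with DRC (3). DRC (2) gives the last condition. -/
def StHCC : Prop := ∀ (Γ : Type) [Group Γ] (ρ : Γ →* SL), IsDiscrete ρ → Con ρ →
  (∃ Q ∈ limitSet ρ, ∃ R ∈ limitSet ρ, Q ≠ R) → ConvexCocompact ρ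

/-- TQF (the deformed group is quasifuchsian).

Proof. discrete: TDS. Limit set: TLM; `ζ ↦ Qp (w ζ)` is a continuous bijection of the circle (compact) onto it, hence a homeomorphism. Convex cocompact: HCC (`Qp (w 1) ≠ Qp (w (-1))`). faithful: if `ρ γ = ±1` then `w (mob (σ γ) z) = w z`, `mob (σ γ) z = z` whenever `den (σ γ) z ≠ 0`, so `c z² + (d-a) z - b = 0` for all such `z`, `σ γ = ±1`. -/
def StTQF : Prop := ∀ (Γ : Type) [Group Γ] (σ ρ : Γ →* SL) (w : ℂ → ℂ), TM σ ρ w →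
  (∀ γ, ((σ γ : Mat) = 1 ∨ (σ γ : Mat) = -1) → γ = 1) → IsQF ρ

/-- TGO (it is `Good`, and the images of the disc and of the outside are the inside and the outside of the limit set).

Proof. `Qinf ∉ limitSet ρ = Qp '' (w '' SS)` (`QD.StLQC`), `Lam ρ = w '' SS` (`Qp` injective), `Param w (w '' SS)`. `w '' D` is connected, open, with compact closure, disjoint from `Lam ρ`; `w '' {‖z‖ > 1}` is connected, and the plane is the disjoint union of `w '' D`, `Lam ρ` and `w '' {‖z‖ > 1}`. `inn (Lam ρ)` is open, bounded, preconnected, `out (Lam ρ)` is open, preconnected and contains a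
neighbourhood of infinity, they are disjoint and cover the complement of `Lam ρ` (`QD.StTJ2`). `w '' {‖z‖ > 1}` contains a neighbourhood of infinity (`w` proper), so it meets `out`, and it is connected and covered by the disjoint open sets `inn`, `out`: it is contained in `out`. So `inn ⊆ w '' D`; `inn` is not empty (`QD.StTJ1`), `w '' D` is connected and covered by `inn`, `out`: `w '' D ⊆ inn`.
`side`: for `z ∈ D`: `den (σ γ) z ≠ 0` and `mob (σ γ) z ∈ D` (`SU(1,1)`). `CC`: TDS, HCC. -/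
def StTGO : Prop := ∀ (Γ : Type) [Group Γ] (σ ρ : Γ →* SL) (w : ℂ → ℂ), TM σ ρ w →
  Good ρ ∧ Lam ρ = w '' Metric.sphere 0 1 ∧ inn (Lam ρ) = w '' Metric.ball 0 1 ∧
  out (Lam ρ) = w '' {z : ℂ | 1 < ‖z‖}

/-! ### Kleinian data of a convex cocompact group -/

/-- CNC (limit points of convex cocompact groups are conical).

Proof. `C, K` as in `ConvexCocompact`. For `Q ∈ sph`, `P` positive definite, `b Q P = tr ((adj P) Q)/√(det P)` (positive; invariant under scaling of `P`), `b (act A Q) (A P A*) = b Q P/Nn A Q` (`adj (A P A*) = A⁻¹* adj P A⁻¹`, `det A = 1`). (i) for `Q ∈ limitSet`, `inf_C b Q = 0`: `P0 ∈ C`, `P_k = act (ρ γ_k) P0 → Q` (`QD.StLLS (5)`, `QD.StLMX (6)`); for `0 < s < 1` the matrix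
`(1-s) P0 + s P_k ∈ C` tends to `(1-s) P0 + s Q`, and `b Q` of the limit is `(1-s) a/√((1-s)² d + s(1-s) a)`, `a = tr ((adj P0) Q) > 0`, `d = det P0` (`tr ((adj Q) Q) = 0`, `det (x P0 + y Q) = x² d + x y a`), which tends to `0` as `s → 1`. (ii) `m = min of b on sph × K > 0`. Given `ε` take `P ∈ C` with `b Q P < ε m` and `γ` with `act (ρ γ) P ∈ K`: `m ≤ b (act (ρ γ) Q) (act (ρ γ) P) = b Q P/Nn (ρ γ) Q`, so `Nn (ρ γ) Q < ε`. -/
def StCNC : Prop := ∀ (Γ : Type) [Group Γ] (ρ : Γ →* SL), CC ρ → Con ρ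

/-- the map `z ↦ -1/(z-p)` (matrix `gi p`) -/
noncomputable def mi (p z : ℂ) : ℂ := -1 / (z - p)

/-- the image of the inside -/
def sB {Γ : Type} [Group Γ] (ρ : Γ →* SL) (p : ℂ) : Set ℂ := mi p '' inn (Lam ρ)

/-- the image of the outside (with infinity) -/
def sA {Γ : Type} [Group Γ] (ρ : Γ →* SL) (p : ℂ) : Set ℂ := insert 0 (mi p '' out (Lam ρ))

/-- the properties of Kleinian data except compactness and the null set -/
structure KE {Γ : Type} [Group Γ] (ρ : Γ →* SL) (A B : Set ℂ) : Prop where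
  disc : ∀ X : ℝ, {γ : Γ | hs (ρ γ) ≤ X}.Finite
  opA : IsOpen A
  opB : IsOpen B
  neA : A.Nonempty
  neB : B.Nonempty
  dis : Disjoint A B
  mpA : ∀ γ : Γ, ∀ ξ ∈ A, ρ γ 1 0 * ξ + ρ γ 1 1 ≠ 0 ∧ mb (ρ γ) ξ ∈ A
  mpB : ∀ γ : Γ, ∀ ξ ∈ B, ρ γ 1 0 * ξ + ρ γ 1 1 ≠ 0 ∧ mb (ρ γ) ξ ∈ B

/-- KEG (the two domains of a good group).

Proof. `g = gi p`, `mob g = mi p` for `z ≠ p`, `den g z = z - p`. `hs (g A g⁻¹) ≤ hs g hs A hs g⁻¹` (`QD.StLMX (2)`): discrete. `mi p` is a homeomorphism of `ℂ ∖ {p}` onto `ℂ ∖ {0}`; `p ∈ Lam ρ` so `inn`, `out` are in `ℂ ∖ {p}`; open sets (`QD.StTJ2`); near `0`: `out` contains `{‖z‖ ≥ R}`, so `sA ⊇ {‖η‖ < δ}`. Nonempty: `QD.StTJ1`, `0 ∈ sA`. Disjoint: injectivity, `mi p z ≠ 0`. Action on the sphere: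
`act g` maps `Qp '' inn` to `Qp '' sB`, `Qp '' out ∪ {Qinf}` to `Qp '' sA`, `limitSet ρ` to `limitSet (cj g ρ)` (`QD.StLCJ`), with `act g (Qp p) = Qinf`. `act (ρ γ)` maps `Qp '' inn` into itself (`Good.side`), the limit set onto itself (`QD.StLLS (3)` for `γ`, `γ⁻¹`), hence (bijectivity, `Good.side` for `γ⁻¹`) the rest `Qp '' out ∪ {Qinf}` into itself. So `act (cj g ρ γ)` maps `Qp '' sA`, `Qp '' sB` into themselves; in the
coordinate: `den ≠ 0` and `mob ∈` (`QD.StLQC (8)`, `Qp` injective, `Qinf` not in the image). Last claims: the sphere is the disjoint union of `Qp '' inn`, `Qp '' out ∪ {Qinf}` and `limitSet` (`QD.StLQC (1)`, `QD.StTJ2`, `QD.StLLA`), apply `act g`. -/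
def StKEG : Prop := ∀ (Γ : Type) [Group Γ] (ρ : Γ →* SL) (p : ℂ), Good ρ → p ∈ Lam ρ →
  KE (QD.cj (gi p) ρ) (sA ρ p) (sB ρ p) ∧ CC (QD.cj (gi p) ρ) ∧
  Qinf ∈ limitSet (QD.cj (gi p) ρ) ∧
  Disjoint (Qp '' (sA ρ p ∪ sB ρ p)) (limitSet (QD.cj (gi p) ρ)) ∧
  sph = limitSet (QD.cj (gi p) ρ) ∪ Qp '' (sA ρ p) ∪ Qp '' (sB ρ p)

/-- KCP (compactness modulo the group).

Proof. `Con ρ` (CNC), DRC: `Dir ρ` is compact, disjoint from the limit set. `S = {z | Qp z ∈ Dir ρ}` is closed (`Qp` continuous), bounded (otherwise `Qinf ∈ Dir ρ`, as `Qp z → Qinf` for `|z| → ∞`), contained in `A ∪ B` (`Qp z` is not in the limit set). `S ∩ A = S ∖ B`, `S ∩ B` are compact; let `KA ⊆ A` be a compact set whose interior contains `S ∩ A`, the same for `B`, `τ = 1`. For `x ∈ up` put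
`P x = (tr Xm x)⁻¹ Xm x`, positive definite of trace one, `P (ga g x) = act g (P x)` (ACT (1)). Let `K = {x ∈ up | P x ∈ Dir ρ, x.1 ∉ interior KA or x.2 ≥ 1, x.1 ∉ interior KB or x.2 ≥ 1}`. By DRC (2) every `x ∈ up` has a translate `y` with `P y ∈ Dir ρ`: either `y ∈ K` or one of the other two cases. `K` is compact: let `x_n ∈ K`; subsequence with `P x_n → P∞ ∈ Dir ρ`. If `P∞` is positive definite then
`x_n` converges in `up` (`x.2 = 1/X 1 1`, `x.1 = X 0 1/X 1 1` up to the factor: `x.1 = P 0 1/P 1 1`, `x.2 = √(det P)/P 1 1`), to a point of `K`. If not, `P∞ ∈ sph` is not `Qinf` (in the limit set), so it is `Qp z`, `z ∈ S`, `x_n.1 → z`, `x_n.2 → 0` (same formulas), so `x_n.1` is in the interior of `KA` or `KB` and `x_n.2 < 1` for large `n`: contradiction. -/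
def StKCP : Prop := ∀ (Γ : Type) [Group Γ] (ρ : Γ →* SL) (A B : Set ℂ), CC ρ → IsOpen A →
  IsOpen B → Disjoint A B → Qinf ∈ limitSet ρ → Disjoint (Qp '' (A ∪ B)) (limitSet ρ) →
  sph = limitSet ρ ∪ Qp '' A ∪ Qp '' B →
  ∃ (K : Set Pt) (KA KB : Set ℂ) (τ : ℝ), IsCompact K ∧ K ⊆ up ∧ IsCompact KA ∧ KA ⊆ A ∧
    IsCompact KB ∧ KB ⊆ B ∧ 0 < τ ∧ ∀ x ∈ up, ∃ γ : Γ, ga (ρ γ) x ∈ K ∨
      ((ga (ρ γ) x).1 ∈ KA ∧ (ga (ρ γ) x).2 < τ) ∨ ((ga (ρ γ) x).1 ∈ KB ∧ (ga (ρ γ) x).2 < τ)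

/-- KNU (the limit set is a null set).

Proof. `U = A ∪ B`, `u = hv U`, continuous and positive on `up` (HME (3), (6)), invariant: HME (8) for `g = ρ γ` (`ξ ∈ U ↔ mb g ξ ∈ U` if `cξ+d ≠ 0`: `mpA`, `mpB` for `γ` and `γ⁻¹`). Claim: `u ≥ c > 0` on `up`. On the compact `K` clear. For `x.1 ∈ KA`, `x.2 < τ`: `KA` has distance `≥ 2r > 0` from the complement of `A`, so `hv U x ≥ (1/π)∫_{|ζ| < r} (t/(|ζ|²+t²))² dζ ≥ ` a positive constant (substitute `ζ = tζ'`, `t < τ`: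
it is at least the integral over `|ζ'| < r/τ` of `(1+|ζ'|²)⁻²/π`). The same for `KB`. Now suppose the complement `L` of `U` has positive measure. `hv L x + hv U x = 1` (HME (2) for `L`, `U`), so `hv L ≤ 1 - c`. But at almost every `ξ ∈ L` (Lebesgue density, `Besicovitch` or `VitaliFamily` density theorem for balls) `hv L (ξ,t) → 1` as `t → 0`: `1 - hv L (ξ,t) = (1/π) ∫_U t²(|ξ-η|²+t²)⁻² dη`, split at `|ξ-η| < Rt`
(kernel at most `t⁻²`, measure of `U ∩ B(ξ,Rt)` is `o(t²)`) and the rest, at most `C/R²`. Contradiction. -/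
def StKNU : Prop := ∀ (Γ : Type) [Group Γ] (ρ : Γ →* SL) (A B : Set ℂ), KE ρ A B →
  (∃ (K : Set Pt) (KA KB : Set ℂ) (τ : ℝ), IsCompact K ∧ K ⊆ up ∧ IsCompact KA ∧ KA ⊆ A ∧
    IsCompact KB ∧ KB ⊆ B ∧ 0 < τ ∧ ∀ x ∈ up, ∃ γ : Γ, ga (ρ γ) x ∈ K ∨
      ((ga (ρ γ) x).1 ∈ KA ∧ (ga (ρ γ) x).2 < τ) ∨
      ((ga (ρ γ) x).1 ∈ KB ∧ (ga (ρ γ) x).2 < τ)) →
  volume (A ∪ B)ᶜ = 0

/-- KDG (a good group gives Kleinian data).

Proof. KEG, KCP (the image of `Qp` on `A ∪ B` is disjoint from the limit set: `A = sA`, `B = sB`, `act g` injective), KNU. -/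
def StKDG : Prop := ∀ (Γ : Type) [Group Γ] (ρ : Γ →* SL) (p : ℂ), Good ρ → p ∈ Lam ρ →
  (∀ (γ : Γ) (n : ℕ), 1 ≤ n → γ ^ n = 1 → γ = 1) → KD (QD.cj (gi p) ρ) (sA ρ p) (sB ρ p)

/-- hyperbolic area of a subset of the disc -/
noncomputable def ar2 (S : Set ℂ) : ℝ := ∫ z in S, 4 / (1 - ‖z‖ ^ 2) ^ 2

/-- CFG (the conformal map of the outside).

Proof. `H u = mi p (G (1/u))` for `0 < ‖u‖ < 1`, `H 0 = 0`: holomorphic on the disc `D` (removable: `G (1/u) = a/u + c + o(1)`, so `H u → 0`), injective, onto `sA ρ p`. `J = !![0, I; I, 0]`, `τ' γ = J τ(γ) J⁻¹` = entrywise conjugate of `τ γ` (it is in `SU(1,1)`), `mob (τ' γ) u = 1/mob (τ γ) (1/u)`; from `OutSide.eqv` (with the conventions at infinity; `act` on the sphere) `H (mob (τ' γ) u) = mb (ρ' γ) (H u)`,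
`ρ' = cj (gi p) ρ`. `Cay u = i(1+u)/(1-u)` maps `D` onto `HP`, it is `mob` of `C0 = (1/√(2i)) !![i, i; -1, 1]`, and `C0 A C0⁻¹` is real for `A ∈ SU(1,1)`. `F = Cay ∘ H⁻¹` on `sA` (the inverse of an injective holomorphic map is holomorphic: `QD.StRIJ`), `σ' γ = C0 τ'(γ) C0⁻¹`. This is `CF`. Area: `H⁻¹ (DA)` is a fundamental domain of `τ'` on `D`, and by the change of variables formula (`η = H u`)
`∫_DA rX F = ∫_(H⁻¹ DA) 4/(1-|u|²)²` (`|F'(η)|²|H'(u)|² = |Cay'(u)|²`, `|Cay' u|²/(Im Cay u)² = 4/(1-|u|²)²`). The map `u ↦ conj u` carries fundamental domains of `τ` to fundamental domains of `τ'` and preserves the area; the area of two fundamental domains of `τ` is the same (SW1 (2) for the measure `4/(1-|z|²)² dz` on `D`, invariant: `|mob A z|` and `den`; `Γ` is countable by discreteness). -/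
def StCFG : Prop := ∀ (Γ : Type) [Group Γ] (ρ τ : Γ →* SL) (G : ℂ → ℂ) (p : ℂ), Good ρ →
  p ∈ Lam ρ → OutSide ρ τ G →
  ∃ (F : ℂ → ℂ) (σ' : Γ →* SL), CF (QD.cj (gi p) ρ) (sA ρ p) F σ' ∧
    ∀ (F0 DA : Set ℂ), FDOn (fun γ z => mob (τ γ) z) (Metric.ball 0 1) F0 →
      FDOn (ab (QD.cj (gi p) ρ)) (sA ρ p) DA → ∫ ξ in DA, rX F ξ = ar2 F0

/-- EGL (the energy).

Proof. KD from KDG. The substitution `η = mi p ξ`, `ζ = mi p a` (`mi p` injective holomorphic on `ℂ ∖ {p}`, `|mi'|² = |ξ-p|⁻⁴`, `|mi ξ - mi a| = |ξ-a|/(|ξ-p||a-p|)`): for `a ∈ inn`: `aw (sA) (mi p a) = |a-p|⁴ ∫_(ξ∈out) |ξ-a|⁻⁴ dξ` (the point `0` is a null set), so with `DB = mi p '' FB`, a fundamental domain for `sB`: `∫_(DB) aw (sA) = ∫_(a∈FB) ∫_(ξ∈out) |ξ-a|⁻⁴`.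
Symmetry, as in EN3 (1): SW0 for `A = sA`, `B = sB` and `h ξ η = ofReal (1/|ξ-η|⁴)/(aw B ξ · aw A η)`: `∫_DA aw (sB) = ∫_(DB) aw (sA)`. -/
def StEGL : Prop := ∀ (Γ : Type) [Group Γ] (ρ : Γ →* SL) (p : ℂ), Good ρ → p ∈ Lam ρ →
  KD (QD.cj (gi p) ρ) (sA ρ p) (sB ρ p) →
  ∀ (DA FB : Set ℂ), FDOn (ab (QD.cj (gi p) ρ)) (sA ρ p) DA →
    FDOn (fun γ z => mob (ρ γ) z) (inn (Lam ρ)) FB →
    ∫⁻ ξ in DA, aw (sB ρ p) ξ =
      ∫⁻ a in FB, ∫⁻ ξ in out (Lam ρ), ENNReal.ofReal (1 / ‖ξ - a‖ ^ 4)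

/-! ### orbit counting -/

/-- OCT (orbit counting by conjugacy classes).

Proof. (1) There are a finite set `F ⊆ Γ` and `c0 > 0` with `max_(f∈F) |tr (M ρ f)|² ≥ c0 hs M` for all matrices `M`: the span of the `ρ γ` is the algebra of all matrices (Burnside; for `2×2`: an algebra with unit acting irreducibly on `ℂ²`; or by hand), `tr (M N) = 0` for all `N` implies `M = 0`, take `F` such that the `ρ f` span; both sides are quadratic in `M`, compactness of the unit sphere.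
(2) Let `A = ρ γ'` have `|tr A|² ≥ c1 hs A`, `hs A ≥ H0` (large), `μ` its eigenvalue of modulus `> 1`: `|μ| ≥ |tr A| - 1 ≥ |tr A|/2`. Let `u, v` be unit eigenvectors for `μ`, `1/μ`, `d = det (u,v)`, `P` the matrix with columns `u/d`, `v`: `det P = 1`, `A = P diag(μ,1/μ) P⁻¹ = (μ/d) u (v₂,-v₁) + (1/(μd)) v (-u₂,u₁)`, so `√hs A ≥ (|μ| - 1/|μ|)/|d| ≥ |μ|/(2|d|)`,
`|d| ≥ |μ|/(2√hs A) ≥ √c1/4`: `hs P = 1 + 1/|d|² ≤ C2`. (3) Multiplicity: fix a class and `γ1` in it with (2), `hs ≤ X`. Every other such `γ' = g γ1 g⁻¹` has the same `μ`, and `P'⁻¹ ρ g P1` commutes with `diag(μ,1/μ)`, so it is diagonal, `ρ g = P' diag(s,1/s) P1⁻¹`; replacing `g` by `g γ1^k` we may assume `1 ≤ |s| < |μ|` (`|μ|² ≤ hs ≤ X`). If two such `g, g'` have `|s|, |s'|` in the same `[2^j, 2^(j+1))` then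
`hs (ρ (g g'⁻¹)) ≤ C3`. So the number of `γ'` is at most `N3 (1 + log X)`, `N3 = #{hs ≤ C3}`. (4) `γ ↦ γ f`, `f = f(γ) ∈ F` with `|tr ρ (γ f)|² ≥ c0 hs (ρ γ) ≥ c1 hs (ρ (γ f))`, is at most `#F` to one, `hs (ρ (γf)) ≤ C4 X`, and the class of `γ f` has `len ≤ log hs ≤ log (C4 X)` (St_HS2 (3), St_LN of Helper35/PQF). For bounded `hs` use finiteness. `num` is the number of classes (finite by St_CL). -/
def StOCT : Prop := ∀ (Γ : Type) [Group Γ] (ρ : Γ →* SL), CC ρ →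
  (∀ v : Fin 2 → ℂ, v ≠ 0 → ∃ γ : Γ, ∀ c : ℂ, (ρ γ : Mat).mulVec v ≠ c • v) →
  ∃ C > 0, ∀ X : ℝ, 1 ≤ X → (({γ : Γ | hs (ρ γ : Mat) ≤ X}.ncard : ℝ)) ≤
    C * (1 + Real.log X) * (1 + num ρ (Real.log (C * X)))

/-- IRR (irreducibility).

Proof. `limitSet ρ` is a Jordan curve (infinite). If all `ρ γ` have the common eigenvector `v`, let `B ∈ SL` map `v` to a multiple of `(1,0)`; `ρ' = cj B ρ` is `CC` (`QD.StLCJ`), its limit set is `act B '' limitSet ρ`, and all `ρ' γ = [[a,b],[0,1/a]]`. Let `Q1 = Qp z1 ≠ Q2 = Qp z2` be two points of it different from `Qinf`. `Con` (CNC) for `Qp z`: `Nn (ρ' γ) (Qp z) = (|az+b|²+|a|⁻²)/(1+|z|²)` small means `|a|` large and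
`|az+b|` small, `|z + b/a|` small. Fix `γ1` with `|a1| > 1` (exists): `γ1` has the attracting fixed point `Qinf` and a fixed point `Qp q`; conjugating by a translation `q = 0`, `ρ' γ1 = diag(a1,1/a1)`. Take `z1 ≠ 0`, `Qp z1` in the limit set, and `δ` with `Nn (ρ' δ) (Qp z1)` very small: `ρ' δ = [[a,b],[0,1/a]]`, `b/a` close to `-z1 ≠ 0`. Then `κ_n = γ1^(-n) δ⁻¹ γ1^n δ` (or `δ` and `γ1` exchanged): the commutator is
`[[1, x_n],[0,1]]`; `ρ'(δ) = [[a,b],[0,1/a]]`, `γ1^n = diag(α,1/α)`, `α = a1^n`: `γ1^(-n) δ γ1^n = [[a, b α⁻²],[0,1/a]]`, so `γ1^(-n) δ γ1^n δ⁻¹ = [[1, ab(α⁻² - 1)],[0,1]]`: bounded, pairwise different (`b ≠ 0`), contradiction to discreteness. -/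
def StIRR : Prop := ∀ (Γ : Type) [Group Γ] (ρ : Γ →* SL), CC ρ →
  Nonempty (limitSet ρ ≃ₜ Circle) →
  ∀ v : Fin 2 → ℂ, v ≠ 0 → ∃ γ : Γ, ∀ c : ℂ, (ρ γ : Mat).mulVec v ≠ c • v

/-- SUM (convergence beyond the entropy).

Proof. Let `ent ρ < s' < s`. `log (num ρ T)/T ≤ s'` for large `T` (`Facts`, or: `ent` is the limsup of a function bounded above, St_CL of Helper35/PQF: `num ≤ C exp (2T)`), so `num ρ T ≤ C exp (s' T)` for all `T ≥ 0`, and OCT gives `#{hs ≤ X} ≤ C' (1 + log X) X^(s')`, at most `C'' X^(s'')`, `s' < s'' < s`. Sum over the dyadic shells `2^k ≤ hs < 2^(k+1)` (`hs ≥ 2`): `∑ 2^(-ks) C'' 2^((k+1)s'') < ∞`. (`s' > 0` may be assumed: `s' ≥ 0` because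
otherwise `num → 0`.) -/
def StSUM : Prop := ∀ (Γ : Type) [Group Γ] (ρ : Γ →* SL), CC ρ →
  Nonempty (limitSet ρ ≃ₜ Circle) → ∀ s : ℝ, 0 < s → ent ρ < s →
  Summable (fun γ : Γ => hs (ρ γ : Mat) ^ (-s))

/-- TFR (surface groups are torsion free).

Proof. `g ≥ 1`, generators `a_i = (i,false)`, `b_i = (i,true)`. Let `Φ` be the free group on the set `Unit ⊕ ({i : Fin g // i ≠ 0} × Bool × ℤ)` (letters `β`, `x_(i,e,k)`), `θ` the automorphism `x_(i,e,k) ↦ x_(i,e,k+1)`, `β ↦ w⁻¹ β`, `w = ∏_(i≥1) [x_(i,false,0), x_(i,true,0)]` (inverse: `x_(i,e,k) ↦ x_(i,e,k-1)`, `β ↦ w' β` with the shifted word `w'`). `Φ ⋊ ℤ` (`SemidirectProduct`, `Multiplicative ℤ` acting by powers of `θ`).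
`f : SurfaceGroup g → Φ ⋊ ℤ`: `a_0 ↦ t`, `b_0 ↦ β`, `a_i ↦ x_(i,false,0)`, `b_i ↦ x_(i,true,0)`; the relator goes to `t β t⁻¹ β⁻¹ w = θ(β) β⁻¹ w = w⁻¹ β β⁻¹ w = 1`. `h : Φ ⋊ ℤ → SurfaceGroup g` (`SemidirectProduct.lift`): `β ↦ b_0`, `x_(i,e,k) ↦ a_0^k y a_0^(-k)` (`y = a_i` or `b_i`), `t ↦ a_0`; compatibility `h(θ x) = a_0 h(x) a_0⁻¹` on generators (for `β` this is the relation `a_0 b_0 a_0⁻¹ b_0⁻¹ ∏_(i≥1) [a_i,b_i] = 1`).
`h ∘ f = id` on generators, so `f` is injective. `Φ ⋊ ℤ` is torsion free: `x^n = 1` gives exponent of `t` equal to zero (`ℤ` torsion free), so `x ∈ Φ`, free groups are torsion free (`FreeGroup` instances, or `FreeGroup.infinite_order`). `g = 0`: the trivial group. -/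
def StTFR : Prop := ∀ g : ℕ, ∀ (γ : SurfaceGroup g) (n : ℕ), 1 ≤ n → γ ^ n = 1 → γ = 1

/-- THEOREM A, in the language of part B -/
def StA1 : Prop := ∃ C0 > 0, ∀ (Γ : Type) [Group Γ] (ρ τ : Γ →* SL) (G : ℂ → ℂ),
  (∀ (γ : Γ) (n : ℕ), 1 ≤ n → γ ^ n = 1 → γ = 1) → Good ρ → OutSide ρ τ G →
  ∀ (F0 FB : Set ℂ), FDOn (fun γ z => mob (τ γ) z) (Metric.ball 0 1) F0 →
    FDOn (fun γ z => mob (ρ γ) z) (inn (Lam ρ)) FB →
    ∫⁻ a in FB, ∫⁻ ξ in out (Lam ρ), ENNReal.ofReal (1 / ‖ξ - a‖ ^ 4) ≠ ∞ ∧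
    (2 - ent ρ) * ar2 F0 ^ 2 ≤
      C0 * (∫⁻ a in FB, ∫⁻ ξ in out (Lam ρ), ENNReal.ofReal (1 / ‖ξ - a‖ ^ 4)).toReal ^ 2

end Pool.Agent.Helper86.QA
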