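import Pool.Agent.Helper35.PQF.Defs

/-!
# Project QD (MP_d112a4_gt), part A: definitions

Upper half space, its volume, the action of `SL(2,ℂ)`, Poisson kernel, harmonic measure, averaging
kernel, the four point kernel, the area cocycle of the upper half plane, Kleinian data.
-/

set_option autoImplicit false

open MeasureTheory Matrix Set Topology
open scoped ENNReal ComplexConjugate

namespace Pool.Agent.Helper86.QA

/-- `SL(2,ℂ)` -/
abbrev SL : Type := Matrix.SpecialLinearGroup (Fin 2) ℂ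

/-- `2 × 2` matrices -/
abbrev Mat : Type := Matrix (Fin 2) (Fin 2) ℂ

/-- points `(z,t)`; the upper half space is `up` -/
abbrev Pt : Type := ℂ × ℝ

/-- the upper half space -/
def up : Set Pt := {x | 0 < x.2}

/-- the base point -/
def oo : Pt := (0, 1)

/-- hyperbolic volume `dz dt / t³` -/
noncomputable def vol : Measure Pt :=
  ((volume : Measure Pt).restrict up).withDensity (fun x => ENNReal.ofReal (1 / x.2 ^ 3))

/-- the denominator `|cz+d|² + |c|² t²` -/
noncomputable def den (g : SL) (x : Pt) : ℝ :=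
  ‖g 1 0 * x.1 + g 1 1‖ ^ 2 + ‖g 1 0‖ ^ 2 * x.2 ^ 2

/-- the action of `SL(2,ℂ)` on the upper half space -/
noncomputable def ga (g : SL) (x : Pt) : Pt :=
  (((g 0 0 * x.1 + g 0 1) * conj (g 1 0 * x.1 + g 1 1) + g 0 0 * conj (g 1 0) * (x.2 : ℂ) ^ 2) /
    (den g x : ℂ), x.2 / den g x)

/-- Moebius transformations of the plane (not everywhere defined: `cξ + d ≠ 0`) -/
noncomputable def mb (g : SL) (ξ : ℂ) : ℂ := (g 0 0 * ξ + g 0 1) / (g 1 0 * ξ + g 1 1)

/-- the positive Hermitian matrix of determinant one of a point of the upper half space -/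
noncomputable def Xm (x : Pt) : Mat :=
  !![((((‖x.1‖ ^ 2 + x.2 ^ 2) / x.2 : ℝ)) : ℂ), x.1 / (x.2 : ℂ);
    conj x.1 / (x.2 : ℂ), ((1 / x.2 : ℝ) : ℂ)]

/-- hyperbolic cosine of the distance -/
noncomputable def ch (x y : Pt) : ℝ := (‖x.1 - y.1‖ ^ 2 + x.2 ^ 2 + y.2 ^ 2) / (2 * x.2 * y.2)

open Classical in
/-- the averaging kernel: the indicator function of the ball with `cosh r = 2` -/
noncomputable def kk (x y : Pt) : ℝ := if ch x y ≤ 2 then 1 else 0

/-- Poisson kernel (to the power one; its square is the density of harmonic measure) -/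
noncomputable def pp (x : Pt) (ξ : ℂ) : ℝ := x.2 / (‖x.1 - ξ‖ ^ 2 + x.2 ^ 2)

/-- the matrix of the transformation `z ↦ -1/(z-ξ)` -/
noncomputable def gi (ξ : ℂ) : SL := ⟨!![0, -1; 1, -ξ], by simp [Matrix.det_fin_two]⟩

/-- the inversion `z ↦ -1/z` -/
noncomputable def gJ : SL := ⟨!![0, -1; 1, 0], by simp [Matrix.det_fin_two]⟩

/-- the matrix with `ga (gx x) y = (x.1 + x.2 y.1, x.2 y.2)`, for `x` in the upper half space -/
noncomputable def gx (x : Pt) (hx : x ∈ up) : SL :=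
  ⟨!![((Real.sqrt x.2 : ℝ) : ℂ), x.1 / ((Real.sqrt x.2 : ℝ) : ℂ);
      0, 1 / ((Real.sqrt x.2 : ℝ) : ℂ)], by
    have h : ((Real.sqrt x.2 : ℝ) : ℂ) ≠ 0 := by
      exact_mod_cast (Real.sqrt_pos.mpr hx).ne'
    rw [Matrix.det_fin_two]
    simp only [Matrix.of_apply, Matrix.cons_val', Matrix.cons_val_zero, Matrix.cons_val_one,
      Matrix.cons_val_fin_one]
    field_simp
    simp⟩

/-- volume of the ball with `cosh r = 2` -/
noncomputable def VV : ℝ := ∫ y, kk oo y ∂vol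

/-- the eigenvalue of the averaging kernel on `t ^ s` -/
noncomputable def al (s : ℝ) : ℝ := ∫ y, kk oo y * y.2 ^ s ∂vol

/-- `2 + √3`, the exponential of the radius -/
noncomputable def ll : ℝ := 2 + Real.sqrt 3

/-- harmonic measure of `B` seen from `x` -/
noncomputable def hv (B : Set ℂ) (x : Pt) : ℝ := (1 / Real.pi) * ∫ ξ in B, pp x ξ ^ 2

/-- local energy -/
noncomputable def en (B : Set ℂ) (x : Pt) : ℝ≥0∞ :=
  ∫⁻ y, ENNReal.ofReal (kk x y * (hv B x - hv B y) ^ 2) ∂vol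

/-- `∫_B |ξ-η|⁻⁴ dη` -/
noncomputable def aw (B : Set ℂ) (ξ : ℂ) : ℝ≥0∞ := ∫⁻ η in B, ENNReal.ofReal (1 / ‖ξ - η‖ ^ 4)

/-- the four point function `Im tr (X₀ X₁⁻¹ X₂ X₃⁻¹)` -/
noncomputable def Dl (x0 x1 x2 x3 : Pt) : ℝ :=
  ((Xm x0 * (Xm x1)⁻¹ * Xm x2 * (Xm x3)⁻¹).trace).im

/-- the four point kernel -/
noncomputable def KK (x0 x1 x2 x3 : Pt) : ℝ := Dl x0 x1 x2 x3 * kk x1 x0 * kk x1 x2 * kk x1 x3

/-- the determinant of two vectors of the plane -/
def dt2 (u v : ℂ) : ℝ := u.re * v.im - u.im * v.re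

/-- the upper half plane -/
def HP : Set ℂ := {p | 0 < p.im}

/-- primitive of the area cocycle -/
noncomputable def be (p q : ℂ) : ℝ := 2 * Complex.arg ((p - conj q) / Complex.I)

/-- signed hyperbolic area of the geodesic triangle `p, q, r` of the upper half plane -/
noncomputable def Ar (p q r : ℂ) : ℝ := be p q + be q r + be r p

/-- a matrix with real entries -/
def IsR (σ : SL) : Prop := ∀ i j, (σ i j).im = 0

/-! ### group actions and fundamental domains (explicit functions, on a subset) -/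

section

variable {Γ : Type} [Group Γ] {α : Type} [MeasurableSpace α]

/-- `a` is a measure preserving action of `Γ` on the set `S` (which carries the measure `μ`) -/
structure ActOn (a : Γ → α → α) (S : Set α) (μ : Measure α) : Prop where
  mS : MeasurableSet S
  nS : μ Sᶜ = 0
  ms : ∀ (γ : Γ) (x : α), x ∈ S → a γ x ∈ S
  one : ∀ x ∈ S, a 1 x = x
  mul : ∀ (γ δ : Γ) (x : α), x ∈ S → a (γ * δ) x = a γ (a δ x)
  me : ∀ γ : Γ, Measurable (a γ)
  pr : ∀ (γ : Γ) (f : α → ℝ≥0∞), Measurable f → ∫⁻ x, f (a γ x) ∂μ = ∫⁻ x, f x ∂μ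

/-- `D` is a fundamental domain for the action `a` on `S`: every orbit in `S` has exactly one
translate in `D` (in particular the action is free) -/
structure FDOn (a : Γ → α → α) (S D : Set α) : Prop where
  mD : MeasurableSet D
  sub : D ⊆ S
  ex : ∀ x ∈ S, ∃! γ : Γ, a γ x ∈ D

end

/-! ### Kleinian data -/

/-- `A` and `B` are the two domains of discontinuity of `ρ`; compactness of the quotient of
`ℍ³ ∪ A ∪ B`; `Γ` torsion free; the point `∞` is a limit point, so that `Γ` acts on `A` and on `B`. -/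
structure KD {Γ : Type} [Group Γ] (ρ : Γ →* SL) (A B : Set ℂ) : Prop where
  tf : ∀ (γ : Γ) (n : ℕ), 1 ≤ n → γ ^ n = 1 → γ = 1
  disc : ∀ X : ℝ, {γ : Γ | Pool.Agent.Helper35.PM.hs (ρ γ) ≤ X}.Finite
  opA : IsOpen A
  opB : IsOpen B
  neA : A.Nonempty
  neB : B.Nonempty
  dis : Disjoint A B
  nul : volume (A ∪ B)ᶜ = 0
  mpA : ∀ γ : Γ, ∀ ξ ∈ A, ρ γ 1 0 * ξ + ρ γ 1 1 ≠ 0 ∧ mb (ρ γ) ξ ∈ A
  mpB : ∀ γ : Γ, ∀ ξ ∈ B, ρ γ 1 0 * ξ + ρ γ 1 1 ≠ 0 ∧ mb (ρ γ) ξ ∈ B
  cpt : ∃ (K : Set Pt) (KA KB : Set ℂ) (τ : ℝ), IsCompact K ∧ K ⊆ up ∧ IsCompact KA ∧ KA ⊆ A ∧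
    IsCompact KB ∧ KB ⊆ B ∧ 0 < τ ∧ ∀ x ∈ up, ∃ γ : Γ, ga (ρ γ) x ∈ K ∨
      ((ga (ρ γ) x).1 ∈ KA ∧ (ga (ρ γ) x).2 < τ) ∨ ((ga (ρ γ) x).1 ∈ KB ∧ (ga (ρ γ) x).2 < τ)

/-- squared density of the hyperbolic metric of `A` transported by the conformal map `F : A → HP` -/
noncomputable def rX (F : ℂ → ℂ) (ξ : ℂ) : ℝ := ‖deriv F ξ‖ ^ 2 / (F ξ).im ^ 2

/-- `F` is an equivariant conformal map of `A` onto the upper half plane -/
structure CF {Γ : Type} [Group Γ] (ρ : Γ →* SL) (A : Set ℂ) (F : ℂ → ℂ) (σ : Γ →* SL) : Prop where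
  dif : DifferentiableOn ℂ F A
  inj : Set.InjOn F A
  img : F '' A = HP
  rea : ∀ γ : Γ, IsR (σ γ)
  equ : ∀ γ : Γ, ∀ ξ ∈ A, F (mb (ρ γ) ξ) = mb (σ γ) (F ξ)

/-! ### instances and simple facts -/

theorem up_open : IsOpen up := isOpen_lt continuous_const continuous_snd

theorem up_meas : MeasurableSet up := up_open.measurableSet

instance : SigmaFinite vol := by
  unfold vol
  exact SigmaFinite.withDensity_of_ne_top' (fun x => ENNReal.ofReal_ne_top)

theorem vol_up : vol upᶜ = 0 := by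
  unfold vol
  rw [withDensity_apply _ up_meas.compl, Measure.restrict_restrict up_meas.compl,
    Set.compl_inter_self, Measure.restrict_empty, lintegral_zero_measure]

theorem ae_up : ∀ᵐ x ∂vol, x ∈ up := by
  rw [ae_iff]
  exact vol_up

end Pool.Agent.Helper86.QA
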