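import Pool.Agent.Helper86.QA.M_THA
import Pool.Agent.Helper78.QA.M_ACT
import Pool.Agent.Helper99.QA.M_CHI
import Pool.Agent.Helper66.QA.M_VOL
import Pool.Agent.Helper8.QA.M_KRN
import Pool.Agent.Helper29.QA.M_ALP
import Pool.Agent.Helper60.QA.M_DLF
import Pool.Agent.Helper87.QA.M_CON
import Pool.Agent.Helper94.QA.M_CHV
import Pool.Agent.Helper6.QA.M_FDX
import Pool.Agent.Helper79.QA.M_POI
import Pool.Agent.Helper66.QA.M_HME
import Pool.Agent.Helper44.QA.M_AWB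
import Pool.Agent.Helper28.QA.M_ACU
import Pool.Agent.Helper42.QA.M_PD1
import Pool.Agent.Helper38.QA.M_PD2
import Pool.Agent.Helper32.QA.M_PD3
import Pool.Agent.Helper78.QA.M_EN1
import Pool.Agent.Helper36.QA.M_EN2
import Pool.Agent.Helper16.QA.M_SW0
import Pool.Agent.Helper22.QA.M_EN3
import Pool.Agent.Helper89.QA.M_SW1
import Pool.Agent.Helper75.QA.M_CPA
import Pool.Agent.Helper80.QA.M_FVS
import Pool.Agent.Helper60.QA.M_EIS
import Pool.Agent.Helper40.QA.M_SCH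
import Pool.Agent.Helper99.QA.M_SC2
import Pool.Agent.Helper66.QA.M_ARC
import Pool.Agent.Helper40.QA.M_ARE
import Pool.Agent.Helper12.QA.M_PIX
import Pool.Agent.Helper29.QA.M_QQB
import Pool.Agent.Helper36.QA.M_FLA
import Pool.Agent.Helper78.QA.M_MTX
import Pool.Agent.Helper42.QA.M_REA
import Pool.Agent.Helper36.QA.M_K3Z
import Pool.Agent.Helper28.QA.M_SWS
import Pool.Agent.Helper75.QA.M_FL0
import Pool.Agent.Helper73.QA.M_FLB
import Pool.Agent.Helper52.QA.M_FLI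
import Pool.Agent.Helper79.QA.M_ASV
import Pool.Agent.Helper66.QA.M_PSI
import Pool.Agent.Helper99.QA.M_UNF
import Pool.Agent.Helper3.QA.M_INT
import Pool.Agent.Helper78.QA.M_ASO
import Pool.Agent.Helper6.QA.M_FLS
import Pool.Agent.Helper33.QA.M_FLG
import Pool.Agent.Helper75.QA.M_FLL
import Pool.Agent.Helper90.QA.M_FLT
import Pool.Agent.Helper24.QA.M_FLC

set_option autoImplicit false

namespace Pool.Agent.Helper86.QA

theorem tACT : StACT := Pool.Agent.Helper78.QA.hACT 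

theorem tCHI : StCHI := Pool.Agent.Helper99.QA.hCHI tACT

theorem tVOL : StVOL := Pool.Agent.Helper66.QA.hVOL tACT

theorem tKRN : StKRN := Pool.Agent.Helper8.QA.hKRN tACT tCHI tVOL

theorem tALP : StALP := Pool.Agent.Helper29.QA.hALP tACT tCHI tVOL tKRN

theorem tDLF : StDLF := Pool.Agent.Helper60.QA.hDLF tACT tCHI

theorem tCON : StCON := Pool.Agent.Helper87.QA.hCON tACT tCHI tVOL tKRN tDLF

theorem tCHV : StCHV := Pool.Agent.Helper94.QA.hCHV 

theorem tFDX : StFDX := Pool.Agent.Helper6.QA.hFDX 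

theorem tPOI : StPOI := Pool.Agent.Helper79.QA.hPOI tACT tCHI tALP

theorem tHME : StHME := Pool.Agent.Helper66.QA.hHME tACT tCHI tVOL tKRN tPOI tCHV

theorem tAWB : StAWB := Pool.Agent.Helper44.QA.hAWB tCHV

theorem tACU : StACU := Pool.Agent.Helper28.QA.hACU tACT tCHI tVOL tCHV tHME tAWB

theorem tPD1 : StPD1 := Pool.Agent.Helper42.QA.hPD1 tCHV

theorem tPD2 : StPD2 := Pool.Agent.Helper38.QA.hPD2 tACT tCHV tPOI tPD1

theorem tPD3 : StPD3 := Pool.Agent.Helper32.QA.hPD3 tACT tCHV tFDX tACU tPD2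

theorem tEN1 : StEN1 := Pool.Agent.Helper78.QA.hEN1 tACT tCHI tVOL tKRN tALP tHME

theorem tEN2 : StEN2 := Pool.Agent.Helper36.QA.hEN2 tACT tCHI tVOL tPOI tCHV tHME tEN1 tKRN

theorem tSW0 : StSW0 := Pool.Agent.Helper16.QA.hSW0 

theorem tEN3 : StEN3 := Pool.Agent.Helper22.QA.hEN3 tACT tCHI tPOI tCHV tHME tEN2 tSW0 tAWB tACU tPD3

theorem tSW1 : StSW1 := Pool.Agent.Helper89.QA.hSW1 

theorem tCPA : StCPA := Pool.Agent.Helper75.QA.hCPA tACT tCHV tHME tAWB tACU tPD2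

theorem tFVS : StFVS := Pool.Agent.Helper80.QA.hFVS tVOL tSW1 tACU tCPA

theorem tEIS : StEIS := Pool.Agent.Helper60.QA.hEIS tACT tCHI tALP tPOI tCHV tPD1 tACU

theorem tSCH : StSCH := Pool.Agent.Helper40.QA.hSCH tCHI tKRN tALP tSW0 tACU tEIS

theorem tSC2 : StSC2 := Pool.Agent.Helper99.QA.hSC2 tALP tHME tACU tFVS tSCH

theorem tARC : StARC := Pool.Agent.Helper66.QA.hARC tCHV

theorem tARE : StARE := Pool.Agent.Helper40.QA.hARE tCHV tSW1 tAWB tACU tCPA tARC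

theorem tPIX : StPIX := Pool.Agent.Helper12.QA.hPIX tACT tCHV tACU tPD2 tPD3 tCPA tARC

theorem tQQB : StQQB := Pool.Agent.Helper29.QA.hQQB tACT tCHI tVOL tKRN tDLF tARC

theorem tFLA : StFLA := Pool.Agent.Helper36.QA.hFLA tCHI tKRN tQQB

theorem tMTX : StMTX := Pool.Agent.Helper78.QA.hMTX tACT tCHI tVOL tKRN tDLF

theorem tREA : StREA := Pool.Agent.Helper42.QA.hREA tACT

theorem tK3Z : StK3Z := Pool.Agent.Helper36.QA.hK3Z tACT tCHI tVOL tKRN tDLF tMTX tREA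

theorem tSWS : StSWS := Pool.Agent.Helper28.QA.hSWS tSW0

theorem tFL0 : StFL0 := Pool.Agent.Helper75.QA.hFL0 tACT tCHI tVOL tKRN tACU tDLF tK3Z tARC tSWS tQQB tFLA

theorem tFLB : StFLB := Pool.Agent.Helper73.QA.hFLB tCHI tKRN tHME tACU tFVS

theorem tFLI : StFLI := Pool.Agent.Helper52.QA.hFLI tFLA tFL0 tFLB

theorem tASV : StASV := Pool.Agent.Helper79.QA.hASV tHME tAWB

theorem tPSI : StPSI := Pool.Agent.Helper66.QA.hPSI tACT tCHV tACU tPD2 tCPA

theorem tUNF : StUNF := Pool.Agent.Helper99.QA.hUNF tSW1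

theorem tINT : StINT := Pool.Agent.Helper3.QA.hINT tACT tCHI tVOL tKRN tDLF

theorem tASO : StASO := Pool.Agent.Helper78.QA.hASO tARC

theorem tFLS : StFLS := Pool.Agent.Helper6.QA.hFLS tACT tCHI tVOL tKRN tDLF tARC tQQB

theorem tFLG : StFLG := Pool.Agent.Helper33.QA.hFLG tACT tCHI tVOL tKRN tHME tAWB tDLF tASV tASO tQQB tFLS

theorem tFLL : StFLL := Pool.Agent.Helper75.QA.hFLL tACT tCHI tVOL tHME tAWB tACU tARE tASV tPSI tUNF tQQB tFLA tFLB tINT tFLG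

theorem tFLT : StFLT := Pool.Agent.Helper90.QA.hFLT tCHI tKRN tHME tACU tFVS tQQB tFLA tFLB tFLI

theorem tFLC : StFLC := Pool.Agent.Helper24.QA.hFLC tCHI tKRN tHME tACU tFVS

/-- THEOREM A -/
theorem tTHA : StTHA :=
  hTHA tKRN tALP tCON tPD3 tEN3 tSC2 tARE tPIX tFLA tFLI tFLL tFLT tFLC

end Pool.Agent.Helper86.QA
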