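import Pool.Agent.Helper86.QA.St3

/-!
# Project QD, part A: Theorem A from the modules
-/

set_option autoImplicit false

open MeasureTheory Matrix Set Topology Filter
open scoped ENNReal ComplexConjugate

namespace Pool.Agent.Helper86.QA

open Pool.Agent.Helper35.PM (hs)

private theorem Th_one_pos : 0 < Th 1 := by
  unfold Th
  apply intervalIntegral.integral_pos (by norm_num)
  · fun_prop
  · intro x _
    exact le_max_right _ _
  · exact ⟨1 / 2, by constructor <;> norm_num, by norm_num⟩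

private theorem ll_gt : 1 < ll := by
  unfold ll
  have := Real.sqrt_nonneg (3 : ℝ)
  linarith

private theorem final_alg (s a c1 CQ' T m n e E l π' : ℝ) (hs2 : 0 ≤ 2 - s) (hc1 : 0 < c1)
    (hn : 0 < n) (hm : 0 ≤ m) (hπ : 0 < π') (_hl : 0 ≤ l) (he0 : 0 ≤ e)
    (h1 : |c1 * a| ≤ CQ' * T) (h2 : 2 * ((2 - s) * n) * T ^ 2 ≤ m * e * e)
    (h3 : π' * e ≤ l * E) :
    (2 - s) * a ^ 2 ≤ (CQ' ^ 2 * m / (c1 ^ 2 * (2 * n)) * (l / π') ^ 2) * E ^ 2 := by
  have h4 : (c1 * a) ^ 2 ≤ (CQ' * T) ^ 2 := by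
    have := abs_nonneg (c1 * a)
    calc (c1 * a) ^ 2 = |c1 * a| ^ 2 := (sq_abs _).symm
      _ ≤ (CQ' * T) ^ 2 := pow_le_pow_left₀ this h1 2
  have h5 : e ≤ l / π' * E := by
    rw [div_mul_eq_mul_div, le_div_iff₀ hπ]
    linarith
  have h6 : e ^ 2 ≤ (l / π') ^ 2 * E ^ 2 := by
    rw [← mul_pow]
    exact pow_le_pow_left₀ he0 h5 2
  have h7 : (2 - s) * a ^ 2 * (c1 ^ 2 * (2 * n)) ≤ CQ' ^ 2 * m * e ^ 2 := by
    calc (2 - s) * a ^ 2 * (c1 ^ 2 * (2 * n)) = (2 * ((2 - s) * n)) * (c1 * a) ^ 2 := by ring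
      _ ≤ (2 * ((2 - s) * n)) * (CQ' * T) ^ 2 :=
          mul_le_mul_of_nonneg_left h4 (by positivity)
      _ = CQ' ^ 2 * (2 * ((2 - s) * n) * T ^ 2) := by ring
      _ ≤ CQ' ^ 2 * (m * e * e) := mul_le_mul_of_nonneg_left h2 (by positivity)
      _ = CQ' ^ 2 * m * e ^ 2 := by ring
  have hpos : 0 < c1 ^ 2 * (2 * n) := by positivity
  have h8 : (2 - s) * a ^ 2 ≤ CQ' ^ 2 * m / (c1 ^ 2 * (2 * n)) * e ^ 2 := by
    rw [div_mul_eq_mul_div, le_div_iff₀ hpos]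
    exact h7
  calc (2 - s) * a ^ 2 ≤ CQ' ^ 2 * m / (c1 ^ 2 * (2 * n)) * e ^ 2 := h8
    _ ≤ CQ' ^ 2 * m / (c1 ^ 2 * (2 * n)) * ((l / π') ^ 2 * E ^ 2) :=
        mul_le_mul_of_nonneg_left h6 (by positivity)
    _ = _ := by ring

theorem hTHA (hKRN : StKRN) (hALP : StALP) (hCON : StCON) (hPD3 : StPD3) (hEN3 : StEN3)
    (hSC2 : StSC2) (hARE : StARE) (hPIX : StPIX) (hFLA : StFLA) (hFLI : StFLI)
    (hFLL : StFLL) (hFLT : StFLT) (hFLC : StFLC) : StTHA := by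
  have hVV : 0 < VV := hKRN.1
  have hn : 0 < VV - al 1 := by
    have := hALP.2.2.2.2.1
    linarith
  have hcK : 0 < cK := hCON.1
  have hTh := Th_one_pos
  have hll := ll_gt
  have hlog : 0 < Real.log ll := Real.log_pos hll
  have hc1 : 0 < Th 1 * (cK / 2) := by positivity
  have hCQ : 0 < CQ := by
    unfold CQ
    have := Real.pi_pos
    positivity
  have hπ := Real.pi_pos
  refine ⟨CQ ^ 2 * (ll ^ 8 * VV) / ((Th 1 * (cK / 2)) ^ 2 * (2 * (VV - al 1))) *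
    (4 * VV * Real.log ll / Real.pi) ^ 2, by positivity, ?_⟩
  intro Γ _ ρ A B hKD F σ hCF DA hDA s hs hsum
  obtain ⟨D, hD, -⟩ := (hPD3 Γ ρ A B hKD).1 ∅ isOpen_empty (empty_subset _)
  obtain ⟨Pi, hPi, hPA⟩ := hPIX Γ ρ A B hKD F σ hCF
  obtain ⟨-, -, -, -, hEfin, -⟩ := hARE Γ ρ A B hKD F σ hCF DA hDA
  refine ⟨hEfin, ?_⟩
  -- value of the flux
  have hlim := hFLL Γ ρ A B hKD F σ hCF Pi hPi hPA D DA hD hDA
  have hhalf : (1 / 2 : ℝ) ∈ Ioo (0 : ℝ) 1 := by constructor <;> norm_num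
  have hconst : Fl D Pi (fi B (1 / 2)) = cK / 2 * ∫ ξ in DA, rX F ξ := by
    refine tendsto_nhds_unique ?_ hlim
    refine Tendsto.congr' ?_ tendsto_const_nhds
    filter_upwards [Ioo_mem_nhdsGT (show (0 : ℝ) < 1 by norm_num)] with δ hδ
    exact hFLI Γ ρ A B hKD σ hCF.rea Pi hPi D hD (1 / 2) hhalf δ hδ
  have hTv := hFLT Γ ρ A B hKD σ hCF.rea Pi hPi D hD (1 / 2) hhalf
  obtain ⟨hfm, hfb, hTVfin, hTV2⟩ := hFLC Γ ρ A B hKD D hD
  have hbound := ((hFLA Γ ρ σ hCF.rea Pi hPi D hD.mD (fun x => Th (hv A x)) hfm hfb).2.2.1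
    hTVfin).2
  set a := ∫ ξ in DA, rX F ξ with ha
  set T := TV D (fun x => Th (hv A x)) with hT
  set I := ∫⁻ x in D, ENNReal.ofReal
    (max (hv A x * (1 - hv A x) - 1 / (8 * ll ^ 4)) 0 ^ 2) ∂vol with hI
  set e := ∫⁻ x in D, en A x ∂vol with he
  set E := ∫⁻ ξ in DA, aw B ξ with hE
  have h1 : |Th 1 * (cK / 2) * a| ≤ CQ * T.toReal := by
    have : Fl D Pi (fun x => Th (hv A x)) = Th 1 * (cK / 2) * a := by
      rw [hTv, hconst]; ring
    rw [← this]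
    exact hbound
  have hen := hEN3 Γ ρ A B hKD D DA hD hDA
  have hefin : e ≠ ∞ := by
    intro htop
    have : ENNReal.ofReal Real.pi * e = ∞ := by
      rw [htop]
      exact ENNReal.mul_top (by simpa using hπ)
    rw [this] at hen
    exact (ENNReal.mul_ne_top ENNReal.ofReal_ne_top hEfin) (top_le_iff.mp hen)
  have hsc := hSC2 Γ ρ A B hKD D hD s hs hsum (1 / (8 * ll ^ 4)) (by positivity)
  have h3 : Real.pi * e.toReal ≤ (4 * VV * Real.log ll) * E.toReal := by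
    have := ENNReal.toReal_mono (ENNReal.mul_ne_top ENNReal.ofReal_ne_top hEfin) hen
    rwa [ENNReal.toReal_mul, ENNReal.toReal_mul, ENNReal.toReal_ofReal hπ.le,
      ENNReal.toReal_ofReal (by positivity)] at this
  have hs2 : 0 ≤ 2 - s := by have := hs.2; linarith
  have h2 : 2 * ((2 - s) * (VV - al 1)) * T.toReal ^ 2 ≤ ll ^ 8 * VV * e.toReal * e.toReal := by
    have hnn : 0 ≤ 2 * ((2 - s) * (VV - al 1)) := by positivity
    have key : ENNReal.ofReal (2 * ((2 - s) * (VV - al 1))) * T ^ 2 ≤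
        ENNReal.ofReal (ll ^ 8 * VV) * e * e := by
      calc ENNReal.ofReal (2 * ((2 - s) * (VV - al 1))) * T ^ 2
          ≤ ENNReal.ofReal (2 * ((2 - s) * (VV - al 1))) *
            (ENNReal.ofReal (ll ^ 8 * VV) * I * e) := mul_le_mul_right hTV2 _
        _ = ENNReal.ofReal (ll ^ 8 * VV) *
            (ENNReal.ofReal (2 * ((2 - s) * (VV - al 1))) * I) * e := by ring
        _ ≤ ENNReal.ofReal (ll ^ 8 * VV) * e * e := by gcongr
    have hfin : ENNReal.ofReal (ll ^ 8 * VV) * e * e ≠ ∞ :=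
      ENNReal.mul_ne_top (ENNReal.mul_ne_top ENNReal.ofReal_ne_top hefin) hefin
    have := ENNReal.toReal_mono hfin key
    rwa [ENNReal.toReal_mul, ENNReal.toReal_mul, ENNReal.toReal_mul, ENNReal.toReal_pow,
      ENNReal.toReal_ofReal hnn, ENNReal.toReal_ofReal (by positivity)] at this
  exact final_alg s a (Th 1 * (cK / 2)) CQ T.toReal (ll ^ 8 * VV) (VV - al 1) e.toReal
    E.toReal (4 * VV * Real.log ll) Real.pi hs2 hc1 hn (by positivity) hπ (by positivity)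
    ENNReal.toReal_nonneg h1 h2 h3

end Pool.Agent.Helper86.QA
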