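import Pool.Agent.Helper86.QA.Defs

/-!
# Project QD, part A, statements 1: upper half space, kernel, harmonic measure, Schur test

Every module `X` proves `theorem x (h1 : StA) ... : StX`, where the statements listed in the task are
hypotheses. Complete proofs in the docstrings. `conj` = complex conjugation, `t` = second coordinate.
-/

set_option autoImplicit false

open MeasureTheory Matrix Set Topology
open scoped ENNReal ComplexConjugate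

namespace Pool.Agent.Helper86.QA

open Pool.Agent.Helper35.PM (hs)

/-- ACT (the action on the upper half space).

Proof. Write `g = [[a,b],[c,d]]`, `ad - bc = 1`, `x = (z,t)`, `t > 0`. `den g x > 0`: if `c = 0` then `d ≠ 0`, otherwise the second term is positive. (1) entries of `g X g*`: the (2,2) entry is
`(|c|²(|z|²+t²) + 2 Re(c z conj d) + |d|²)/t = den/t`; the (1,2) entry is `(a conj c (|z|²+t²) + a z conj d + b conj z conj c + b conj d)/t = ((az+b) conj(cz+d) + a conj c t²)/t`; the matrix is Hermitian of determinant 1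
(`det g = 1`), and a Hermitian matrix `[[p,q],[conj q, r]]` with `p r - |q|² = 1`, `r > 0` is `Xm (q/r, 1/r)` (`(|q/r|² + 1/r²) r = (|q|²+1)/r = p`). (2) `Xm` is injective on `up` (`t` = inverse of the (2,2) entry, `z` = (1,2) entry times `t`)
and `(gh) X (gh)* = g (h X h*) g*`. (4) `ga g` is built from continuous operations and divisions; on `up` the denominator is not zero. (5) direct. (6) `(ga g x).1 - (az+b)/(cz+d) = [((az+b) conj(cz+d) + a conj c t²)(cz+d) - (az+b)(|cz+d|² + |c|²t²)]/(den (cz+d))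
= conj c t² [a(cz+d) - c(az+b)]/(den (cz+d)) = conj c t²/(den (cz+d))`. -/
def StACT : Prop :=
  (∀ (g : SL) (x : Pt), x ∈ up → 0 < den g x ∧ ga g x ∈ up ∧
    Xm (ga g x) = (g : Mat) * Xm x * (g : Mat)ᴴ) ∧
  (∀ (g h : SL) (x : Pt), x ∈ up → ga (g * h) x = ga g (ga h x)) ∧
  (∀ x : Pt, x ∈ up → ga 1 x = x) ∧
  (∀ g : SL, Measurable (ga g) ∧ ContinuousOn (ga g) up) ∧
  (∀ (x : Pt) (hx : x ∈ up) (y : Pt), ga (gx x hx) y = (x.1 + (x.2 : ℂ) * y.1, x.2 * y.2)) ∧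
  (∀ (g : SL) (x : Pt), x ∈ up → g 1 0 * x.1 + g 1 1 ≠ 0 →
    (ga g x).1 - mb g x.1 =
      conj (g 1 0) * (x.2 : ℂ) ^ 2 / ((den g x : ℂ) * (g 1 0 * x.1 + g 1 1)))

/-- CHI (hyperbolic cosine of the distance).

Proof. (1) `|z-z'|² + t² + t'² ≥ 2 t t'`; the trace formula: `(Xm x)⁻¹ = t⁻¹ [[1, -z],[-conj z, |z|²+t²]]` (determinant one), `tr ((Xm x)⁻¹ Xm y) = ((|z'|²+t'²) - z conj z' - conj z z' + |z|²+t²)/(t t')`. (2) by ACT the matrix is multiplied by `g` and `g*`, the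
trace of `(g X g*)⁻¹ (g Y g*) = g*⁻¹ X⁻¹ Y g*` is that of `X⁻¹ Y`. (3) by (2) and ACT (move `y` to `oo` with `(gx y)⁻¹`) we may assume `y = oo`: `|x₁-z₁|² + s² + t² ≤ (|x₁|²+s²+1)(|z₁|²+t²+1)` because `|x₁-z₁|² ≤ |x₁|²+|z₁|²+2|x₁||z₁| ≤ |x₁|²+|z₁|²+|x₁|²|z₁|²+1`.
(4) `(t²+t'²)/(2tt') ≤ 2` gives `r + 1/r ≤ 4` for `r = t'/t`, so `r ≤ 2 + √3`; `|z-z'|² ≤ 4 t t' - t² - t'² ≤ 2 t t'`. (6) indicator function of a measurable set. -/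
def StCHI : Prop :=
  (∀ x ∈ up, ∀ y ∈ up, 1 ≤ ch x y ∧ ch x y = ch y x ∧ ch x x = 1 ∧
    2 * ch x y = (((Xm x)⁻¹ * Xm y).trace).re) ∧
  (∀ (g : SL), ∀ x ∈ up, ∀ y ∈ up, ch (ga g x) (ga g y) = ch x y ∧
    kk (ga g x) (ga g y) = kk x y) ∧
  (∀ x ∈ up, ∀ y ∈ up, ∀ z ∈ up, ch x z ≤ 2 * ch x y * ch y z) ∧
  (∀ x ∈ up, ∀ y ∈ up, ch x y ≤ 2 →
    y.2 ≤ ll * x.2 ∧ x.2 ≤ ll * y.2 ∧ ‖x.1 - y.1‖ ^ 2 ≤ 2 * x.2 * y.2) ∧
  (∀ x ∈ up, (Xm x)⁻¹ = !![((1 / x.2 : ℝ) : ℂ), -(x.1 / (x.2 : ℂ));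
      -(conj x.1 / (x.2 : ℂ)), (((‖x.1‖ ^ 2 + x.2 ^ 2) / x.2 : ℝ) : ℂ)] ∧
    (Xm x).det = 1 ∧ (Xm x)ᴴ = Xm x) ∧
  Measurable (fun p : Pt × Pt => kk p.1 p.2)

/-- VOL (the volume).

Proof. (1) is the definition of `vol` and Tonelli (`volume` on `ℂ × ℝ` is the product measure). (2) invariance for three kinds of elements. (a) `g = [[a,b],[0,1/a]]`: `ga g (z,t) = (a² z + a b, |a|² t)`; in (1) substitute first `z` (the map `z ↦ a² z + ab` multiplies Lebesgue measure of `ℂ` by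
`|a|⁴`), then `t ↦ |a|² t`: `|a|⁻⁴ |a|⁻² |a|⁶ = 1`. (b) `g = gJ`: `ga gJ (z,t) = (-conj z, t)/(|z|²+t²)`. In polar coordinates `z = r e^(iθ)` and with `w = r + i t` this is `w ↦ w/|w|² = 1/conj w`, `θ ↦ π - θ`, an injective map of the quadrant with Jacobian `|w|⁻⁴`, and
`r dr dt/t³` is invariant: `r/t³` becomes `(r/|w|²)/(t/|w|²)³ = |w|⁴ r/t³`. (Or: the three dimensional Jacobian of the inversion is `|x|⁻⁶`.) (c) `c ≠ 0`: `g = [[1,a/c],[0,1]] · gJ · [[c,d],[0,1/c]]` (`gJ · [[c,d],[0,1/c]] = [[0,-1/c],[c,d]]`); use ACT (2). (3) `z ↦ conj z` preserves Lebesgue measure.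
(4) on a compact subset of `up` the density is bounded and Lebesgue measure is finite. -/
def StVOL : Prop :=
  (∀ f : Pt → ℝ≥0∞, Measurable f → ∫⁻ x, f x ∂vol =
    ∫⁻ t in Ioi (0 : ℝ), ENNReal.ofReal (1 / t ^ 3) * ∫⁻ z : ℂ, f (z, t)) ∧
  (∀ (g : SL) (f : Pt → ℝ≥0∞), Measurable f → ∫⁻ x, f (ga g x) ∂vol = ∫⁻ x, f x ∂vol) ∧
  (∀ f : Pt → ℝ≥0∞, Measurable f → ∫⁻ x, f (conj x.1, x.2) ∂vol = ∫⁻ x, f x ∂vol) ∧
  (∀ K : Set Pt, IsCompact K → K ⊆ up → vol K < ∞)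

/-- KRN (mass of the kernel).

Proof. `{y ∈ up | ch oo y ≤ 2}` is compact in `up` (closed, `1/ll ≤ t ≤ ll`, `|z|² ≤ 2 ll` by CHI (4)) and contains a neighbourhood of `oo`, so `0 < VV < ∞` (VOL (4)). For `x = ga g oo`, `g = gx x`: `kk x (ga g y) = kk oo y` (CHI (2)) and VOL (2). Real integrals from `lintegral`s of nonnegative functions
(`integral_eq_lintegral_of_nonneg_ae`; points outside `up` have measure zero). -/
def StKRN : Prop :=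
  0 < VV ∧ (∀ x ∈ up, ∫⁻ y, ENNReal.ofReal (kk x y) ∂vol = ENNReal.ofReal VV) ∧
  (∀ x ∈ up, Integrable (kk x) vol ∧ ∫ y, kk x y ∂vol = VV)

/-- ALP (the eigenvalue of `t ^ s`).

Proof. (1) on the support of `kk oo` one has `1/ll ≤ t ≤ ll`, so the integrand is bounded on a set of finite volume. (2) Let `u = ga g x`, `h = gx u`. `∫ kk x y (ga g y).2^s dy = ∫ kk u y' y'.2^s dy'` (`y' = ga g y`, VOL (2), CHI (2)) `= ∫ kk oo y'' (ga h y'').2^s dy''` (`y' = ga h y''`, `ga h oo = u`), and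
`(ga h y'').2 = u.2 y''.2` (ACT (5)). (3) `al 0 = VV` (`rpow 0`). `al s = al (2 - s)`: by VOL (1), `z = z'/t`: `∫ kk oo (z',t) t^s dz' dt/t³`, the substitution `(z',t) = (z/τ, 1/τ)`: for fixed `t` substitute `z' = z t` (`dz' = t² dz`... i.e. Lebesgue measure of `ℂ` is multiplied by `t²`), then `τ = 1/t`, `dt = dτ/τ²`:
`∫∫ kk oo (z/τ, 1/τ) τ^(-s) τ⁻² dz τ³ dτ/τ² = ∫∫ kk oo (z/τ,1/τ) τ^(2-s) dz dτ/τ³`, and `ch oo (z/τ, 1/τ) = (|z|²/τ² + 1 + 1/τ²) τ/2 = ch oo (z,τ)`. So `al 2 = al 0`. (4) convexity: for `1 ≤ s ≤ 2` and `t > 0`: `t^s ≤ (2-s) t + (s-1) t²` (weighted AM-GM, `Real.inner_le_nnorm_mul_nnorm`... or convexity of `s ↦ t^s`), so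
`al s ≤ (2-s) al 1 + (s-1) VV`. (5) `t ≤ (1+t²)/2` with equality only for `t = 1`, integrate over the ball (`{t = 1}` has measure zero, the ball has positive volume): `al 1 < (al 0 + al 2)/2 = VV`. -/
def StALP : Prop :=
  (∀ s : ℝ, 0 ≤ al s ∧ Integrable (fun y : Pt => kk oo y * y.2 ^ s) vol) ∧
  (∀ (s : ℝ) (g : SL), ∀ x ∈ up, ∫⁻ y, ENNReal.ofReal (kk x y * (ga g y).2 ^ s) ∂vol =
    ENNReal.ofReal (al s * (ga g x).2 ^ s)) ∧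
  al 0 = VV ∧ al 2 = VV ∧ al 1 < VV ∧
  (∀ s ∈ Icc (1 : ℝ) 2, (2 - s) * (VV - al 1) ≤ VV - al s)

/-- POI (the Poisson kernel).

Proof. (1) with `x = (z,t)`, `N = den g x`: `|(ga g x).1 - mb g ξ|² + (ga g x).2² `: use ACT (1) and the formula `|x.1-ξ|²+t² = t · (v* X̃ v)`: for `v = (1, -ξ)`... direct way: for every `g'`, `(ga g' y).2 = y.2/den g' y`; the point `ξ` and `g' = gi ξ` give `(ga (gi ξ) y).2 = y.2/(|y.1-ξ|²+y.2²) = pp y ξ` (2). Now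
`gi (mb g ξ) * g = [[-c, -d],[a - mξ c, b - mξ d]]` with `mξ = (aξ+b)/(cξ+d)`, and `a - mξ c = (a(cξ+d) - c(aξ+b))/(cξ+d) = 1/(cξ+d)`, `b - mξ d = (b(cξ+d) - d(aξ+b))/(cξ+d) = -ξ/(cξ+d)`. So the lower row is `(cξ+d)⁻¹ (1, -ξ)` and
`pp (ga g x) (mb g ξ) = (ga (gi (mb g ξ) * g) x).2 = t/(|cξ+d|⁻² (|z-ξ|²+t²))`. (3) `pp y ξ = (ga (gi ξ) y).2` and CHI (2), (4). (4) ALP (2) for `s = 2` (`Real.rpow_two`), `g = gi ξ`, `al 2 = VV`. (5) `t/(|z-ξ|²+t²) ≤ 1/t`. -/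
def StPOI : Prop :=
  (∀ (g : SL) (x : Pt) (ξ : ℂ), x ∈ up → g 1 0 * ξ + g 1 1 ≠ 0 →
    pp (ga g x) (mb g ξ) = pp x ξ * ‖g 1 0 * ξ + g 1 1‖ ^ 2) ∧
  (∀ (ξ : ℂ) (x : Pt), x ∈ up → (ga (gi ξ) x).2 = pp x ξ ∧ 0 < pp x ξ) ∧
  (∀ x ∈ up, ∀ y ∈ up, ∀ ξ : ℂ, ch x y ≤ 2 → pp y ξ ≤ ll * pp x ξ) ∧
  (∀ (ξ : ℂ) (x : Pt), x ∈ up → ∫⁻ y, ENNReal.ofReal (kk x y * pp y ξ ^ 2) ∂vol =
    ENNReal.ofReal (VV * pp x ξ ^ 2)) ∧
  (∀ (ξ : ℂ) (x : Pt), x ∈ up → pp x ξ ≤ 1 / x.2)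

/-- CHV (Moebius transformations of the plane).

Proof. (1) If `c = 0` then `mb g ξ = a² ξ + a b` (`d = 1/a`) and `|d|⁻⁴ = |a|⁴` is the factor of the Lebesgue measure. If `c ≠ 0` the map is injective on `{ξ ≠ -d/c}` with complex derivative `(cξ+d)⁻²` (real Jacobian `|cξ+d|⁻⁴`) and image the complement of `{a/c}` (`lintegral_image_eq_lintegral_abs_det_fderiv_mul`;
the real determinant of multiplication by `w` is `|w|²`). (2) `(gh)₁₀ ξ + (gh)₁₁ = g₁₀ (h₀₀ξ+h₀₁) + g₁₁ (h₁₀ξ+h₁₁)`. (3) `(aξ+b)(cη+d) - (aη+b)(cξ+d) = ξ - η`. (4) `mb 1 ξ = ξ`. -/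
def StCHV : Prop :=
  (∀ (g : SL) (f : ℂ → ℝ≥0∞), Measurable f →
    ∫⁻ ξ, f (mb g ξ) * ENNReal.ofReal (1 / ‖g 1 0 * ξ + g 1 1‖ ^ 4) = ∫⁻ η, f η) ∧
  (∀ (g h : SL) (ξ : ℂ), h 1 0 * ξ + h 1 1 ≠ 0 → mb (g * h) ξ = mb g (mb h ξ) ∧
    (g * h) 1 0 * ξ + (g * h) 1 1 = (g 1 0 * mb h ξ + g 1 1) * (h 1 0 * ξ + h 1 1)) ∧
  (∀ (g : SL) (ξ η : ℂ), g 1 0 * ξ + g 1 1 ≠ 0 → g 1 0 * η + g 1 1 ≠ 0 →
    mb g ξ - mb g η = (ξ - η) / ((g 1 0 * ξ + g 1 1) * (g 1 0 * η + g 1 1))) ∧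
  (∀ ξ : ℂ, mb 1 ξ = ξ) ∧
  (∀ g : SL, Measurable (mb g))

/-- HME (harmonic measure).

Proof. (1) `∫_ℂ pp x ξ² dξ = π` (polar coordinates around `x.1`: `∫₀^∞ 2π r t² (r²+t²)⁻² dr = π`; Mathlib: `Complex.polarCoord`, or integrate the radial function by `integral_comp_abs`-type lemmas), the integrand is nonnegative. (2) additivity. (3) continuity by dominated convergence (locally in `x ∈ up` the kernel is at most
`C/(1+|ξ|²)²`); measurability of a parameter integral. (4) POI (3). (5) Tonelli and POI (4). (6) the integrand is positive. (7) `pp x ξ ² ≤ t²/|z-ξ|⁴`. (8) POI (1) and CHV (1): `∫_B' pp (ga g x) η² dη = ∫ 1_B'(mb g ξ) pp (ga g x) (mb g ξ)² |cξ+d|⁻⁴ dξ = ∫_B pp x ξ² dξ` (the exceptional point `cξ+d = 0` is a null set). -/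
def StHME : Prop :=
  (∀ (B : Set ℂ) (x : Pt), MeasurableSet B → x ∈ up →
    IntegrableOn (fun ξ => pp x ξ ^ 2) B ∧ 0 ≤ hv B x ∧ hv B x ≤ 1) ∧
  (∀ (A B : Set ℂ) (x : Pt), MeasurableSet A → MeasurableSet B → Disjoint A B →
    volume (A ∪ B)ᶜ = 0 → x ∈ up → hv A x + hv B x = 1) ∧
  (∀ B : Set ℂ, MeasurableSet B → Measurable (hv B) ∧ ContinuousOn (hv B) up) ∧
  (∀ B : Set ℂ, MeasurableSet B → ∀ x ∈ up, ∀ y ∈ up, ch x y ≤ 2 → hv B y ≤ ll ^ 2 * hv B x) ∧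
  (∀ B : Set ℂ, MeasurableSet B → ∀ x ∈ up, Integrable (fun y => kk x y * hv B y) vol ∧
    ∫ y, kk x y * hv B y ∂vol = VV * hv B x) ∧
  (∀ (B : Set ℂ) (x : Pt), MeasurableSet B → 0 < volume B → x ∈ up → 0 < hv B x) ∧
  (∀ (B : Set ℂ) (x : Pt), MeasurableSet B → x ∈ up → aw B x.1 ≠ ∞ →
    hv B x ≤ x.2 ^ 2 * ((aw B x.1).toReal / Real.pi)) ∧
  (∀ (B B' : Set ℂ) (g : SL) (x : Pt), MeasurableSet B → MeasurableSet B' → x ∈ up →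
    (∀ ξ, g 1 0 * ξ + g 1 1 ≠ 0 → (ξ ∈ B ↔ mb g ξ ∈ B')) → hv B' (ga g x) = hv B x)

/-- EN1 (energy seen from infinity).

Proof. Let `v = hv B`, `l = ll`. (a) `∫⁻ ofReal (kk x y v(y)²) dy = ofReal (VV v(x)²) + en B x` for `x ∈ up`: `v(y)² = (v(x)-v(y))² + 2 v(x) v(y) - v(x)²`, integrate against `kk x y dy` with HME (5) (everything bounded by `kk x y` times constants, KRN). (b) `∫_ℂ v(z,t) dz = |B|` for every `t > 0` (Tonelli and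
`∫ pp (z,t) ξ² dz = π`, which is HME (1) for `B = univ` with the roles of `z` and `ξ` exchanged), and `0 ≤ v ≤ 1`, so `∫ v² dz ≤ |B|`. (c) For `0 < S < T` multiply (a) by `t²` and integrate over `{S < x.2 < T}` w.r.t. `vol`; Tonelli and symmetry of `kk` on `up`:
`∫_(S<t<T) t² ofReal (VV v²) + ∫_(S<t<T) t² en = ∫_y v(y)² ∫_(S<x.2<T) x.2² kk y x dx dy`; the inner integral is at most `VV y.2²` (ALP (2), `g = 1`, `s = 2`) and vanishes unless `S/l ≤ y.2 ≤ l T` (CHI (4)). So the left side is at most `∫_(S/l ≤ t ≤ lT) VV t² v² = ∫_(S<t<T) + ∫_(S/l ≤ t ≤ S) + ∫_(T ≤ t ≤ lT)`, and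
by VOL (1) and (b) each of the last two is at most `VV |B| ∫ dt/t = VV |B| log l`; the first is finite (`≤ VV |B| log (T/S)`), subtract it. (d) monotone limit `S → 0`, `T → ∞`. -/
def StEN1 : Prop := ∀ B : Set ℂ, MeasurableSet B → volume B < ∞ →
  ∫⁻ x, ENNReal.ofReal (x.2 ^ 2) * en B x ∂vol ≤ ENNReal.ofReal (2 * VV * Real.log ll) * volume B

/-- EN2 (energy seen from a boundary point).

Proof. If `aw B ξ = ∞` the right side is `∞` (`log ll > 0`). Otherwise let `g = gi ξ` (`mb g η = -1/(η-ξ)`, denominator `η - ξ`), `B' = {ζ | ζ ≠ 0 ∧ ξ - 1/ζ ∈ B}`, so that for `η ≠ ξ`: `η ∈ B ↔ mb g η ∈ B'`. By CHV (1) `|B'| = ∫_B |η-ξ|⁻⁴ dη = aw B ξ`. By HME (8) `hv B' (ga g x) = hv B x`, so with CHI (2), VOL (2)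
`en B' (ga g x) = en B x`; `(ga g x).2 = pp x ξ` (POI (2)). So the left side is `∫ ofReal ((ga g x).2²) en B' (ga g x) = ∫ ofReal (x.2²) en B' x` (VOL (2); `en B'` is measurable), and EN1. -/
def StEN2 : Prop := ∀ (B : Set ℂ) (ξ : ℂ), MeasurableSet B →
  ∫⁻ x, ENNReal.ofReal (pp x ξ ^ 2) * en B x ∂vol ≤
    ENNReal.ofReal (2 * VV * Real.log ll) * aw B ξ

/-! ### abstract group actions -/

/-- SW0 (exchange of fundamental domains).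

Proof. `Γ` acts; `∑' γ, 1_D (a γ x) = 1` for `x ∈ S` (exactly one `γ`). Right side `= ∫∫ ∑' γ, 1_D (a γ x) 1_(D') (y) h x y` (the complement of `S` is a null set) `= ∑' γ ∫∫ G_γ (x,y)`, `G_γ (x,y) = 1_D (a γ x) 1_(D') (y) h x y`. By `pr` for `γ⁻¹` in both variables (Tonelli) `∫∫ G_γ (x,y) = ∫∫ G_γ (a γ⁻¹ x, b γ⁻¹ y)
= ∫∫ 1_D (x) 1_(D') (b γ⁻¹ y) h x y` for `x ∈ S`, `y ∈ T` (invariance of `h`; `a γ (a γ⁻¹ x) = x`). Sum over `γ`: `∑' γ, 1_(D') (b γ⁻¹ y) = 1` for `y ∈ T`. -/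
def StSW0 : Prop := ∀ (Γ : Type) [Group Γ] [Countable Γ] (α β : Type) [MeasurableSpace α]
  [MeasurableSpace β] (a : Γ → α → α) (b : Γ → β → β) (S D : Set α) (T D' : Set β)
  (μ : Measure α) (ν : Measure β) [SigmaFinite μ] [SigmaFinite ν] (h : α → β → ℝ≥0∞),
  ActOn a S μ → ActOn b T ν → FDOn a S D → FDOn b T D' →
  Measurable (fun p : α × β => h p.1 p.2) →
  (∀ (γ : Γ), ∀ x ∈ S, ∀ y ∈ T, h (a γ x) (b γ y) = h x y) →
  ∫⁻ x in D, ∫⁻ y, h x y ∂ν ∂μ = ∫⁻ x, ∫⁻ y in D', h x y ∂ν ∂μ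

/-- SW1 (unfolding).

Proof. `∫_D f(x) ∑' γ ψ(a γ x) dμ = ∑' γ ∫ 1_D(x) f(x) ψ(a γ x) dμ = ∑' γ ∫ 1_D(a γ⁻¹ x) f(x) ψ(x) dμ` (`pr` for `γ⁻¹`, invariance of `f` on `S`, the complement of `S` is null) `= ∫ f ψ dμ`. For (2) take `ψ = 1_(D₂)`, `∑' γ, ψ (a γ x) = 1` on `S`. -/
def StSW1 : Prop := ∀ (Γ : Type) [Group Γ] [Countable Γ] (α : Type) [MeasurableSpace α]
  (a : Γ → α → α) (S D : Set α) (μ : Measure α) [SigmaFinite μ] (f : α → ℝ≥0∞),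
  ActOn a S μ → FDOn a S D → Measurable f → (∀ (γ : Γ), ∀ x ∈ S, f (a γ x) = f x) →
  (∀ ψ : α → ℝ≥0∞, Measurable ψ →
    ∫⁻ x in D, f x * ∑' γ : Γ, ψ (a γ x) ∂μ = ∫⁻ x, f x * ψ x ∂μ) ∧
  (∀ D₂ : Set α, FDOn a S D₂ → ∫⁻ x in D, f x ∂μ = ∫⁻ x in D₂, f x ∂μ)

/-- FDX (existence of fundamental domains which respect an open set).

Proof. `α` is second countable, so countably many of the sets `W ⊆ S` (open, `a γ` maps `W` off `W` for `γ ≠ 1`) cover `S` (Lindeloef); call them `W_n` (if `S` is empty take `D = ∅`). Put `O(Y) = {x ∈ S | ∃ γ, a γ x ∈ Y}` (measurable if `Y` is: countable union of preimages intersected with `S`).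
`D₁ = ⋃_n (W_n ∩ U) \ O(⋃_(m<n) W_m ∩ U)`, `D₂ = ⋃_n W_n \ (O(⋃_(m<n) W_m) ∪ O(U))`, `D = D₁ ∪ D₂`. Let `x ∈ S`. If some translate of `x` is in `U`, let `n` be minimal such that some translate is in `W_n ∩ U`; the translate `y = a γ x ∈ W_n ∩ U` is in `D₁` (no translate of `y` is in `W_m ∩ U`, `m < n`), and it is unique:
two different translates in `W_n ∩ U` contradict `a γ W_n ∩ W_n = ∅`; a translate in `(W_m ∩ U) \ ...` with `m > n` is impossible, and one in `D₂` is excluded by `O(U)`. If no translate is in `U` the same argument with `W_n` and `D₂`. Last claim: if `x ∈ D` has a translate in `U` then `x ∉ D₂`, so `x ∈ D₁ ⊆ U`. -/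
def StFDX : Prop := ∀ (Γ : Type) [Group Γ] [Countable Γ] (α : Type) [TopologicalSpace α]
  [SecondCountableTopology α] [MeasurableSpace α] [BorelSpace α] (a : Γ → α → α) (S U : Set α),
  IsOpen S → (∀ (γ : Γ), ∀ x ∈ S, a γ x ∈ S) → (∀ x ∈ S, a 1 x = x) →
  (∀ (γ δ : Γ), ∀ x ∈ S, a (γ * δ) x = a γ (a δ x)) → (∀ γ : Γ, Measurable (a γ)) →
  (∀ x ∈ S, ∃ W : Set α, IsOpen W ∧ x ∈ W ∧ W ⊆ S ∧ ∀ γ : Γ, γ ≠ 1 → ∀ y ∈ W, a γ y ∉ W) →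
  IsOpen U → U ⊆ S →
  ∃ D : Set α, FDOn a S D ∧ ∀ x ∈ D, ∀ γ : Γ, a γ x ∈ U → x ∈ U

end Pool.Agent.Helper86.QA
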