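import Pool.Agent.Helper86.QA.St1

/-!
# Project QD, part A, statements 2: Kleinian data, energy, Schur test

`ρ γ = [[a,b],[c,d]]`; for `x = (z,t)` write `p = cz+d`, `q = az+b`; `hs = |a|²+|b|²+|c|²+|d|²`.
Everything is symmetric in `A` and `B` (`KD ρ A B → KD ρ B A`).
-/

set_option autoImplicit false

open MeasureTheory Matrix Set Topology
open scoped ENNReal ComplexConjugate

namespace Pool.Agent.Helper86.QA

open Pool.Agent.Helper35.PM (hs)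

variable {Γ : Type} [Group Γ]

/-- the action of `Γ` on the upper half space -/
noncomputable def au (ρ : Γ →* SL) (γ : Γ) (x : Pt) : Pt := ga (ρ γ) x

/-- the (not everywhere defined) action of `Γ` on the plane -/
noncomputable def ab (ρ : Γ →* SL) (γ : Γ) (ξ : ℂ) : ℂ := mb (ρ γ) ξ

/-- the invariant measure `aw B dξ` on `A` -/
noncomputable def mA (A B : Set ℂ) : Measure ℂ :=
  ((volume : Measure ℂ).restrict A).withDensity (aw B)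

/-- AWB (the density `aw B`).

Proof. Let `ξ ∈ A`, `B(ξ,2r) ⊆ A`; for `|ξ'-ξ| < r` and `η ∈ B`: `|ξ'-η| ≥ r` and `|ξ'-η| ≥ |ξ-η|/2`, so the integrand is at most `16/|ξ-η|⁴` on `{|ξ-η| ≥ 2r}`, which is integrable (polar coordinates, or `∫ (1+|η|)⁻⁴`-type lemmas: `|ξ-η|⁻⁴ ≤ C (1+|η|²)⁻²`). So `aw B` is finite and continuous at `ξ` by
dominated convergence. Positive because `B` is open and nonempty. Measurable: parameter integral. Transformation: CHV (1) for `g = ρ γ` and `f(η) = 1_B(η)/|γξ - η|⁴`: `aw B (γξ) = ∫ 1_B(γη) |γξ-γη|⁻⁴ |cη+d|⁻⁴ dη`, CHV (3), and `η ∈ B ↔ γη ∈ B` for almost all `η` (`mpB` for `γ` and `γ⁻¹`: if `γη ∈ B` then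
`γ⁻¹(γη) = η ∈ B`, CHV (2), (4), `cη+d ≠ 0`). -/
def StAWB : Prop := ∀ (Γ : Type) [Group Γ] (ρ : Γ →* SL) (A B : Set ℂ), KD ρ A B →
  Measurable (aw B) ∧ ContinuousOn (fun ξ => (aw B ξ).toReal) A ∧
  (∀ ξ ∈ A, aw B ξ ≠ ∞ ∧ 0 < (aw B ξ).toReal) ∧
  (∀ γ : Γ, ∀ ξ ∈ A, aw B (mb (ρ γ) ξ) =
    aw B ξ * ENNReal.ofReal (‖ρ γ 1 0 * ξ + ρ γ 1 1‖ ^ 4))

/-- ACU (the actions are measure preserving; `Γ` is countable; invariance of harmonic measure).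

Proof. `Γ` is countable: `Γ = ⋃_n {hs ≤ n}`. (2) ACT, VOL. (3) `one`, `mul`: CHV (2), (4) with `mpA`. `pr`: for measurable `f`: `∫ f dmA = ∫ 1_A(ξ) f(ξ) aw B ξ dξ`; by CHV (1) `= ∫ 1_A(γξ) f(γξ) aw B (γξ) |cξ+d|⁻⁴ dξ = ∫ 1_A(ξ) f(γξ) aw B ξ dξ` (AWB, `ξ ∈ A ↔ γξ ∈ A` for almost all `ξ`, as in AWB).
`mA Aᶜ = 0`. (4) HME (8): `ξ ∈ B ↔ γξ ∈ B` whenever `cξ+d ≠ 0`?: for `ξ ∈ B` by `mpB`; conversely if `γξ ∈ B` then with `δ = γ⁻¹`, `mb (ρ δ) (γξ) = ξ` (CHV (2), (4)) is in `B`. (5) the same for `A`. -/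
def StACU : Prop := ∀ (Γ : Type) [Group Γ] (ρ : Γ →* SL) (A B : Set ℂ), KD ρ A B →
  Countable Γ ∧ ActOn (au ρ) up vol ∧ ActOn (ab ρ) A (mA A B) ∧ SigmaFinite (mA A B) ∧
  (∀ γ : Γ, ∀ x ∈ up, hv B (au ρ γ x) = hv B x ∧ hv A (au ρ γ x) = hv A x) ∧
  (∀ γ : Γ, ∀ x ∈ up, en B (au ρ γ x) = en B x ∧ en A (au ρ γ x) = en A x ∧ en A x = en B x) ∧
  KD ρ B A

/-- PD1 (expansion away from the limit set).

Proof. By symmetry and compactness (`K ∩ A` and `K ∩ B` are compact: `A`, `B` are disjoint open sets covering `K`) let `K ⊆ A`. Suppose the claim is false: there are `γ_n`, `ξ_n ∈ K` with `|p_n|² + |q_n|² < hs(γ_n)/n`, where `p_n = c_n ξ_n + d_n`, `q_n = a_n ξ_n + b_n`. Pass to a subsequence with `ξ_n → ξ ∈ K`. Since `b = q - aξ_n`,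
`d = p - cξ_n`: `hs ≤ C(|a|²+|c|²) + 2(|p|²+|q|²)` with `C` depending on `K`, hence `|a_n|²+|c_n|² ≥ hs/(2C)` for large `n`. Fix two distinct points `η₁, η₂ ∈ B`; the linear map `(a,c) ↦ (a - cη₁, a - cη₂)` is injective, so for one of them, `η = η(n)`, `|a_n - c_n η|² ≥ κ (|a_n|²+|c_n|²)`, `κ > 0`. With `δ = γ_n⁻¹ = [[d,-b],[-c,a]]`:
`mb (ρ δ) η - ξ_n = (d η - b)/(a - cη) - ξ_n = (p_n η - q_n)/(a_n - c_n η)`, of modulus squared at most `C' (hs/n)/(κ hs/(2C)) → 0`. So `mb (ρ γ_n⁻¹) η(n) → ξ ∈ A`; but these points are in `B` (`mpB`) and `A` is open and disjoint from `B`: contradiction. -/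
def StPD1 : Prop := ∀ (Γ : Type) [Group Γ] (ρ : Γ →* SL) (A B : Set ℂ), KD ρ A B →
  ∀ K : Set ℂ, IsCompact K → K ⊆ A ∪ B → ∃ c > 0, ∀ γ : Γ, ∀ ξ ∈ K,
    c * hs (ρ γ) ≤ ‖ρ γ 1 0 * ξ + ρ γ 1 1‖ ^ 2 + ‖ρ γ 0 0 * ξ + ρ γ 0 1‖ ^ 2

/-- PD2 (proper discontinuity on `ℍ³ ∪ A ∪ B`).

Proof. (0) Let `x = (z,t) ∈ up`, `ga g x = (z',t')`. From `Xm (ga g x) = g Xm x g*` (ACT): `t/t' = den = |p|²+|c|²t²` and `(|z'|²+t'²) den = |q|²+|a|²t²`. So if `|z'|, t' ≤ M` then `den ≥ (|q|²+|p|²+(|a|²+|c|²)t²)/(2M²+1)`.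
(1) Fix points `ζ₁ ∈ A`, `ζ₂ ∈ B`; by PD1 for `K = {ζ₁, ζ₂}`: `|c ζ_i + d|²+|a ζ_i + b|² ≥ c₀ hs`. (2) Let `Y` be the set of points `x` occurring: in (a) `x.1 ∈ K`, `x.2 ≤ T`: `|p|²+|q|² ≥ c₁ hs` by PD1; in (b) `x ∈ K₃` compact in `up`: `|q|²+|p|²+(|a|²+|c|²)t² = t · tr(g Xm x g*) ≥ c₁ hs` (smallest eigenvalue of `Xm x` bounded below on `K₃`;
or: `b = q - az`, `d = p - cz`). So `den ≥ c₂ hs` if also `(z',t')` is bounded, and `t' = t/den ≤ C/hs`. (3) By POI (1) with `ζ = ζ_i`, `p_i = cζ_i+d`: `t'/(|z'-γζ|²+t'²) = pp x ζ |p_i|² ≥ (t/C) |p_i|²` (`x` bounded), so `|z'-γζ|² ≤ C t'/(t |p_i|²) = C/(den |p_i|²) ≤ C/(hs |p_i|²)`.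
If `|p_i|² < c₃ hs` with `c₃` small then `|q_i|² ≥ (c₀/2) hs`, `|γζ|² = |q_i|²/|p_i|² ≥ (c₀/2) hs/|p_i|²`, much bigger than `|z'-γζ|²` for large `hs`, so `|z'| ≥ |γζ|/2 ≥ (c₀/(8 c₃))^(1/2)`, a contradiction if `c₃` is small compared with the bound of `z'`. So `|p_i|² ≥ c₃ hs` and `|z'-γζ_i| ≤ C/hs` for `i = 1, 2` once `hs` is large.
(4) `γζ₁ ∈ A`, `γζ₂ ∈ B`, and `z' ∈ K' ⊆ A ∪ B`: the points of the compact set `K' ∩ A` have positive distance from `B`, those of `K' ∩ B` from `A`; contradiction for `hs` large. So `hs (ρ γ)` is bounded, `disc`. (c) for boundary points: `|γξ - γζ_i| = |ξ-ζ_i|/(|p||p_i|)` and the same argument: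
`|γξ| ≤ M` gives `|p|² ≥ c hs` by PD1; if `|p_i|²` is small compared with `hs` then `|γζ_i|` is large compared with `|γξ|` but `|γξ-γζ_i|/|γζ_i| = |ξ-ζ_i|/(|p||q_i|) ≤ C/hs`: contradiction. -/
def StPD2 : Prop := ∀ (Γ : Type) [Group Γ] (ρ : Γ →* SL) (A B : Set ℂ), KD ρ A B →
  ∀ (K K' : Set ℂ) (T T' : ℝ), IsCompact K → K ⊆ A ∪ B → IsCompact K' → K' ⊆ A ∪ B →
    {γ : Γ | ∃ x ∈ up, x.1 ∈ K ∧ x.2 ≤ T ∧ (au ρ γ x).1 ∈ K' ∧ (au ρ γ x).2 ≤ T'}.Finite ∧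
    (∀ K₃ : Set Pt, IsCompact K₃ → K₃ ⊆ up →
      {γ : Γ | ∃ x ∈ K₃, (au ρ γ x).1 ∈ K' ∧ (au ρ γ x).2 ≤ T'}.Finite ∧
      {γ : Γ | ∃ x ∈ K₃, au ρ γ x ∈ K₃}.Finite) ∧
    {γ : Γ | ∃ ξ ∈ K, ab ρ γ ξ ∈ K'}.Finite

/-- PD3 (free and locally free actions; fundamental domains).

Proof. (1) if `au ρ γ x = x` then `au ρ (γ^n) x = x` for all `n`, so by PD2 (`K₃ = {x}`) the set `{γ^n}` is finite, `γ^m = γ^n` with `m < n`, `γ^(n-m) = 1`, so `γ = 1` (`tf`). (2) the same on `A` with the last set of PD2. (3) local freeness at `x`: a compact neighbourhood `K₃` of `x` in `up`; by PD2 finitely many `γ ≠ 1` with `γK₃ ∩ K₃ ≠ ∅`; for each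
of them `γx ≠ x`, by continuity (ACT) there is a neighbourhood `W_γ` of `x` with `γW_γ ∩ W_γ = ∅`; intersect. The same on `A` (`mb (ρ γ)` is continuous on `A`). (4) FDX with `S = up`, the given `U`; and with `S = A`, `U = ∅`. -/
def StPD3 : Prop := ∀ (Γ : Type) [Group Γ] (ρ : Γ →* SL) (A B : Set ℂ), KD ρ A B →
  (∀ U : Set Pt, IsOpen U → U ⊆ up → ∃ D : Set Pt, FDOn (au ρ) up D ∧
    ∀ x ∈ D, ∀ γ : Γ, au ρ γ x ∈ U → x ∈ U) ∧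
  (∃ D : Set ℂ, FDOn (ab ρ) A D)

/-- CPA (cocompactness on `A`; where harmonic measure is small).

Proof. Let `K, KA, KB, τ` be as in `cpt`. (1) Let `ξ ∈ A`. For `t = 1/n` choose `γ_n` as in `cpt` for `x = (ξ,1/n)`. By PD2 (sets `{ξ}` and `KA ∪ KB`; and, for the first alternative, `γ_n⁻¹` maps a point of `K` to `(ξ,1/n)`, second set of PD2 with `K' = {ξ}`) only finitely many `γ` occur, so some `γ` occurs infinitely often. `(ξ,1/n) → (ξ,0)`, and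
`au ρ γ (ξ,1/n) → (mb (ρ γ) ξ, 0)` (the formulas for `ga`, `cξ+d ≠ 0`), so the first alternative is impossible (`K` compact in `up`) and `mb (ρ γ) ξ ∈ KA` or `∈ KB` (closed); the latter is impossible as `mb (ρ γ) ξ ∈ A`. (2) For `0 < ε`: by HME (7) (with AWB, `aw` bounded on compact sets) `hv B x ≤ C x.2²` for `x.1 ∈ KA` and `hv A x ≤ C x.2²` for
`x.1 ∈ KB`. So if `ε ≤ hv A x ≤ 1 - ε` the point `au ρ γ x` given by `cpt` (invariance: ACU) is in `K` or in `KA × [√(ε/C), τ]` or in `KB × [√(ε/C), τ]`: a compact set. (3) `hv B` is continuous and positive on `up` (HME (3), (6)); on `K`, on `KA × [t₁,τ]` and on `KB × [t₀,τ]` it is at least some `c > 0`, and on `KB × (0,t₀)` it is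
at least `1/2` if `C t₀² ≤ 1/2` (`hv A + hv B = 1`). So `hv B x < δ₀ := min(c, 1/2)` forces the translate of `x` given by `cpt` to be in `KA × (0,t₁)`. -/
def StCPA : Prop := ∀ (Γ : Type) [Group Γ] (ρ : Γ →* SL) (A B : Set ℂ), KD ρ A B →
  ∃ KA : Set ℂ, IsCompact KA ∧ KA ⊆ A ∧ (∀ ξ ∈ A, ∃ γ : Γ, ab ρ γ ξ ∈ KA) ∧
  (∀ ε > 0, ∃ K : Set Pt, IsCompact K ∧ K ⊆ up ∧
    ∀ x ∈ up, ε ≤ hv A x → hv A x ≤ 1 - ε → ∃ γ : Γ, au ρ γ x ∈ K) ∧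
  (∀ t₁ > 0, ∃ δ₀ > 0, ∀ x ∈ up, hv B x < δ₀ →
    ∃ γ : Γ, (au ρ γ x).1 ∈ KA ∧ (au ρ γ x).2 < t₁)

/-- FVS (finite volume of slabs modulo `Γ`).

Proof. CPA (2): `{x ∈ up | ε ≤ hv A x ≤ 1-ε} ⊆ ⋃_γ γ⁻¹K`. SW1 (1) with `ψ = 1_K` and `f = 1` (or directly): `vol (D ∩ ⋃ γ⁻¹K) ≤ ∫_D ∑' γ, 1_K(γx) dvol = vol K < ∞` (VOL (4)). -/
def StFVS : Prop := ∀ (Γ : Type) [Group Γ] (ρ : Γ →* SL) (A B : Set ℂ), KD ρ A B →
  ∀ D : Set Pt, FDOn (au ρ) up D → ∀ ε > 0,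
    vol (D ∩ {x | ε ≤ hv A x ∧ hv A x ≤ 1 - ε}) < ∞

/-- EN3 (the energy modulo `Γ` is at most a constant times `E`).

Proof. (1) `E` is symmetric: SW0 for the actions on `A` (measure `mA A B`) and on `B` (measure `mA B A`) and `h ξ η = ofReal (1/|ξ-η|⁴)/(aw B ξ · aw A η)` (invariant by CHV (3), AWB; on `A × B` the densities are positive and finite): `∫_DA aw B = ∫_(DA) ∫_B |ξ-η|⁻⁴ = ∫_A ∫_(DB) |ξ-η|⁻⁴ = ∫_(DB) aw A`.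
(2) SW0 for the actions on `up` and on `A`, `h x ξ = ofReal (pp x ξ ²) · en B x/aw B ξ` (invariant: POI (1) and AWB: `pp² ` gets `|cξ+d|⁴`, `aw B` as well; ACU): `∫_(x∈D) (∫_A ofReal (pp x ξ²) dξ) en B x = ∫_(ξ∈DA) ∫_x ofReal (pp x ξ²) en B x dvol dξ ≤ ofReal (2 VV log ll) ∫_DA aw B` by EN2. The left side is
`∫_D ofReal (π hv A x) en B x`. (3) the same with `A`, `B` exchanged: `∫_D ofReal (π hv B x) en A x ≤ ofReal (2 VV log ll) ∫_(DB) aw A`, `en A = en B` on `up` (ACU), `hv A + hv B = 1` (HME (2)). Add: `ofReal π ∫_D en A ≤ 2 · ofReal (2 VV log ll) · E`. (`DB` exists by PD3 for `KD ρ B A`.) -/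
def StEN3 : Prop := ∀ (Γ : Type) [Group Γ] (ρ : Γ →* SL) (A B : Set ℂ), KD ρ A B →
  ∀ (D : Set Pt) (DA : Set ℂ), FDOn (au ρ) up D → FDOn (ab ρ) A DA →
    ENNReal.ofReal Real.pi * ∫⁻ x in D, en A x ∂vol ≤
      ENNReal.ofReal (4 * VV * Real.log ll) * ∫⁻ ξ in DA, aw B ξ

/-- EIS (the Eisenstein series is an eigenfunction).

Proof. Choose `ξ₀ ∈ A`, `Fs x = ∑' γ, ofReal (pp (au ρ γ x) ξ₀ ^ s)`. (1) finite: let `δ = γ⁻¹`, `η = mb (ρ δ) ξ₀ ∈ A`, `p = c_δ ξ₀ + d_δ`, `q = a_δ ξ₀ + b_δ` (`η = q/p`). By POI (1) with `g = ρ γ`, `ξ = η`: `mb (ρ γ) η = ξ₀` and `c_γ η + d_γ = 1/p` (CHV (2)), so `pp (au ρ γ x) ξ₀ = pp x η/|p|²`, and `pp x η ≤ C_x/(1+|η|²)`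
(`(|z-η|²+t²)/(1+|η|²)` is bounded below), so it is at most `C_x/(|p|²+|q|²) ≤ C_x/(c hs(ρ δ))` by PD1 (`K = {ξ₀}`), `hs (ρ δ) = hs (ρ γ)`. Sum: `∑ hs^(-s) < ∞`. (2) positive: term `γ = 1`. (3) eigenfunction: `pp (au ρ γ y) ξ₀ = (ga (gi ξ₀ * ρ γ) y).2` (POI (2), ACT), ALP (2) termwise. (4) invariance: reindex. Measurable: countable sum. -/
def StEIS : Prop := ∀ (Γ : Type) [Group Γ] (ρ : Γ →* SL) (A B : Set ℂ), KD ρ A B →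
  ∀ s : ℝ, 0 ≤ s → Summable (fun γ : Γ => hs (ρ γ) ^ (-s)) → ∃ Fs : Pt → ℝ≥0∞, Measurable Fs ∧
    (∀ x ∈ up, 0 < Fs x ∧ Fs x < ∞) ∧ (∀ γ : Γ, ∀ x ∈ up, Fs (au ρ γ x) = Fs x) ∧
    (∀ x ∈ up, ∫⁻ y, ENNReal.ofReal (kk x y) * Fs y ∂vol = ENNReal.ofReal (al s) * Fs x)

/-- SCH (Schur test).

Proof. Let `Fs` be as in EIS, `u = ofReal |φ|`, `I = ∫_D u² < ∞`. (1) `∫_D ∫ ofReal (kk x y) u(x) u(y) ≤ ofReal (al s) I`: for `x, y ∈ up`: `2 u(x) u(y) ≤ u(x)² Fs y/Fs x + u(y)² Fs x/Fs y` (AM-GM in `ℝ≥0∞`, all terms finite); `∫_D ∫ kk u(x)² Fs(y)/Fs(x) = al s · I` by EIS; the other term is the same after exchanging the variables: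
SW0 with `a = b = au ρ`, `h x y = ofReal (kk x y) u(y)² Fs x/Fs y` (invariant: CHI (2)): `∫_(x∈D) ∫_y h x y = ∫_x ∫_(y∈D) h x y = ∫_(y∈D) ∫_x h x y` (Tonelli), and `kk x y = kk y x`. (2) `∫_D ∫ kk (φ(x)-φ(y))² ≥ ∫_D ∫ kk (u(x)-u(y))²`, and `kk (u(x)² + u(y)²) = kk (u(x)-u(y))² + 2 kk u(x)u(y)`; `∫_D ∫ kk u(x)² = VV I`
(KRN), `∫_D ∫ kk u(y)² = VV I` (SW0 again). So `2 VV I ≤ ∫_D ∫ kk (φ(x)-φ(y))² + 2 al(s) I`, subtract (`I < ∞`, `al s ≤ VV`; if `al s > VV` the left side of the claim is `0`). -/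
def StSCH : Prop := ∀ (Γ : Type) [Group Γ] (ρ : Γ →* SL) (A B : Set ℂ), KD ρ A B →
  ∀ (D : Set Pt), FDOn (au ρ) up D → ∀ s : ℝ, 0 ≤ s →
    Summable (fun γ : Γ => hs (ρ γ) ^ (-s)) → ∀ φ : Pt → ℝ, Measurable φ →
    (∀ γ : Γ, ∀ x ∈ up, φ (au ρ γ x) = φ x) → ∫⁻ x in D, ENNReal.ofReal (φ x ^ 2) ∂vol ≠ ∞ →
    ENNReal.ofReal (2 * (VV - al s)) * ∫⁻ x in D, ENNReal.ofReal (φ x ^ 2) ∂vol ≤
      ∫⁻ x in D, ∫⁻ y, ENNReal.ofReal (kk x y * (φ x - φ y) ^ 2) ∂vol ∂vol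

/-- SC2 (the Schur test for the test function `(w(1-w) - ε)₊`).

Proof. `w = hv A`, `φ = max (w(1-w) - ε) 0` is measurable, invariant on `up` (ACU), bounded by `1`, and `φ x ≠ 0` forces `ε ≤ w x ≤ 1 - ε` (`w(1-w) ≤ min(w,1-w)`), so `∫_D φ² < ∞` (FVS). SCH, and `|φ x - φ y| ≤ |w x - w y|` (`s ↦ max (s(1-s)-ε) 0` is 1-Lipschitz on `[0,1]`), so the right side of SCH is at most `∫_D en A`.
`VV - al s ≥ (2-s)(VV - al 1)` (ALP (6)). -/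
def StSC2 : Prop := ∀ (Γ : Type) [Group Γ] (ρ : Γ →* SL) (A B : Set ℂ), KD ρ A B →
  ∀ (D : Set Pt), FDOn (au ρ) up D → ∀ s ∈ Icc (1 : ℝ) 2,
    Summable (fun γ : Γ => hs (ρ γ) ^ (-s)) → ∀ ε > 0,
    ENNReal.ofReal (2 * ((2 - s) * (VV - al 1))) *
      ∫⁻ x in D, ENNReal.ofReal (max (hv A x * (1 - hv A x) - ε) 0 ^ 2) ∂vol ≤
      ∫⁻ x in D, en A x ∂vol

end Pool.Agent.Helper86.QA
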