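import Pool.Agent.Helper86.QA.St2

/-!
# Project QD, part A, statements 3: the flux identity

`v = hv B`, `w = hv A = 1 - v`; `l = ll`. The points of `up` act on `up` by `mv x y = ga (gx x) y`.
-/

set_option autoImplicit false

open MeasureTheory Matrix Set Topology Filter
open scoped ENNReal ComplexConjugate

namespace Pool.Agent.Helper86.QA

open Pool.Agent.Helper35.PM (hs)

/-- the point `x` (as the element `gx x` of the group) applied to `y` -/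
noncomputable def mv (x y : Pt) : Pt := (x.1 + (x.2 : ℂ) * y.1, x.2 * y.2)

/-- complex conjugation -/
noncomputable def cj (x : Pt) : Pt := (conj x.1, x.2)

/-- the eigenvalue of the averaging kernel on the matrix function `Xm` -/
noncomputable def cM : ℝ := ∫ y, kk oo y / y.2 ∂vol

/-- product measure for three points -/
noncomputable def vol3 : Measure (Pt × Pt × Pt) := vol.prod (vol.prod vol)

/-- the constant of the flux identity -/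
noncomputable def cK : ℝ :=
  ∫ p, KK p.1 oo p.2.1 p.2.2 * Real.log p.1.2 * dt2 p.2.1.1 p.2.2.1 ∂vol3

/-- the kernel integrated over the last two points -/
noncomputable def QQ (Pi : Pt → ℂ) (x1 x0 : Pt) : ℝ :=
  ∫ p : Pt × Pt, Dl x0 x1 p.1 p.2 * kk x1 p.1 * kk x1 p.2 * Ar (Pi x1) (Pi p.1) (Pi p.2)
    ∂(vol.prod vol)

/-- bound for `QQ` -/
noncomputable def CQ : ℝ := 159 * Real.pi * VV ^ 2

/-- the flux density -/
noncomputable def Gf (Pi : Pt → ℂ) (f : Pt → ℝ) (x1 : Pt) : ℝ :=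
  ∫ x0, kk x1 x0 * (f x1 - f x0) * QQ Pi x1 x0 ∂vol

/-- the flux of `f` -/
noncomputable def Fl (D : Set Pt) (Pi : Pt → ℂ) (f : Pt → ℝ) : ℝ := ∫ x in D, Gf Pi f x ∂vol

open Classical in
/-- the indicator function of `{hv B < δ}` -/
noncomputable def fi (B : Set ℂ) (δ : ℝ) (x : Pt) : ℝ := if hv B x < δ then 1 else 0

/-- the total variation of `f` modulo the group, measured by the kernel -/
noncomputable def TV (D : Set Pt) (f : Pt → ℝ) : ℝ≥0∞ :=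
  ∫⁻ x in D, ∫⁻ y, ENNReal.ofReal (kk x y * |f x - f y|) ∂vol ∂vol

/-- a measurable equivariant map of the upper half space to the upper half plane -/
structure PIH {Γ : Type} [Group Γ] (ρ σ : Γ →* SL) (Pi : Pt → ℂ) : Prop where
  me : Measurable Pi
  hp : ∀ x, Pi x ∈ HP
  eq : ∀ (γ : Γ), ∀ x ∈ up, Pi (au ρ γ x) = mb (σ γ) (Pi x)

/-- `Pi` is close to `F` near `A` -/
def PIA (A : Set ℂ) (F : ℂ → ℂ) (Pi : Pt → ℂ) : Prop :=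
  ∀ K : Set ℂ, IsCompact K → K ⊆ A → ∃ C > 0, ∃ t0 > 0, ∀ z ∈ K, ∀ t : ℝ, 0 < t → t < t0 →
    ‖Pi (z, t) - F z‖ ≤ C * t ^ 2

/-! ### matrices -/

/-- DLF (the four point function).

Proof. (0) the formula for the inverse matrix holds for every `x : Pt` (for `x.2 ≠ 0` the determinant is one; for `x.2 = 0` both sides are zero). (1) ACT (1): `gX₀g* (gX₁g*)⁻¹ gX₂g* (gX₃g*)⁻¹ = g X₀ X₁⁻¹ X₂ X₃⁻¹ g⁻¹`; `kk` by CHI (2). (2) `Xm (cj x)` is the entrywise conjugate of `Xm x`, the trace of the product of the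
conjugates is the conjugate; `ch (cj x) (cj y) = ch x y`. (3) by (1) and `ga (gx x1 hx) oo = x1` (ACT) we may assume `x1 = oo`, `X₁ = 1`; for `ch oo x ≤ 2` the Hermitian matrix `X = Xm x` has `tr X = 2 ch oo x ≤ 4`, determinant `1`, so `∑ |X_ij|² = (tr X)² - 2 ≤ 14`, the same for `X⁻¹`; Cauchy-Schwarz: `|tr (X Y Z)| ≤ 14^(3/2) < 53`.
(4) `tr (X Y)` is real for Hermitian `X, Y`; `conj tr (X₀ X₁⁻¹ X₂ X₁⁻¹) = tr (X₁⁻¹ X₂ X₁⁻¹ X₀)` is the same trace. (5) rational functions, division by zero is harmless for measurability. -/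
def StDLF : Prop :=
  (∀ x : Pt, (Xm x)⁻¹ = !![((1 / x.2 : ℝ) : ℂ), -(x.1 / (x.2 : ℂ));
      -(conj x.1 / (x.2 : ℂ)), (((‖x.1‖ ^ 2 + x.2 ^ 2) / x.2 : ℝ) : ℂ)]) ∧
  (∀ g : SL, ∀ x0 ∈ up, ∀ x1 ∈ up, ∀ x2 ∈ up, ∀ x3 ∈ up,
    Dl (ga g x0) (ga g x1) (ga g x2) (ga g x3) = Dl x0 x1 x2 x3 ∧
    KK (ga g x0) (ga g x1) (ga g x2) (ga g x3) = KK x0 x1 x2 x3) ∧
  (∀ x0 ∈ up, ∀ x1 ∈ up, ∀ x2 ∈ up, ∀ x3 ∈ up,
    Dl (cj x0) (cj x1) (cj x2) (cj x3) = - Dl x0 x1 x2 x3 ∧ kk (cj x0) (cj x1) = kk x0 x1) ∧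
  (∀ x0 ∈ up, ∀ x1 ∈ up, ∀ x2 ∈ up, ∀ x3 ∈ up, ch x1 x0 ≤ 2 → ch x1 x2 ≤ 2 → ch x1 x3 ≤ 2 →
    |Dl x0 x1 x2 x3| ≤ 53) ∧
  (∀ x0 ∈ up, ∀ x1 ∈ up, ∀ x2 ∈ up, ∀ x3 ∈ up, Dl x1 x1 x2 x3 = 0 ∧ Dl x0 x1 x1 x3 = 0 ∧
    Dl x0 x1 x2 x1 = 0) ∧
  Measurable (fun p : Pt × Pt × Pt × Pt => Dl p.1 p.2.1 p.2.2.1 p.2.2.2) ∧
  Measurable (fun p : Pt × Pt × Pt × Pt => KK p.1 p.2.1 p.2.2.1 p.2.2.2)

/-- MTX (the averages of the matrix functions).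

Proof. First `x = oo`. `N i j = ∫ kk oo y · Xm y i j`; the entries are bounded on the support (CHI (4)), a set of finite volume (KRN). The substitutions `y = ga g y'` with `g ∈ SU(2)` (they fix `oo`: `Xm oo = 1`, ACT (1), and `Xm` is injective) give `N = g N g*` (VOL (2), CHI (2)). `g = diag(i,-i)`: `N 0 1 = -N 0 1 = 0`, the same for `N 1 0`;
`g = gJ`: `N 0 0 = N 1 1 = cM`. So `N = cM · 1`. For general `x = ga g oo`, `g = gx x`: `∫ kk x y Xm y = ∫ kk oo y' g (Xm y') g* = cM g g* = cM Xm x`. The inverse: its entries are, up to sign and position, those of `Xm` (DLF (0)). `cM > 0`: the integrand is positive on the ball. -/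
def StMTX : Prop := 0 < cM ∧ ∀ x ∈ up, ∀ i j : Fin 2,
  Integrable (fun y => (kk x y : ℂ) * Xm y i j) vol ∧
  ∫ y, (kk x y : ℂ) * Xm y i j ∂vol = (cM : ℂ) * Xm x i j ∧
  Integrable (fun y => (kk x y : ℂ) * (Xm y)⁻¹ i j) vol ∧
  ∫ y, (kk x y : ℂ) * (Xm y)⁻¹ i j ∂vol = (cM : ℂ) * (Xm x)⁻¹ i j

/-- REA (three points lie in a plane).

Proof. Move `x0` to `oo` with `(gx x0)⁻¹`. Let `X = Xm x2'`, a Hermitian matrix `[[p,q],[conj q,r]]`, `p r - |q|² = 1`. If `q = 0` nothing to do; otherwise `λ = (p+r)/2 + √(((p-r)/2)² + |q|²)`, `v = (q, λ - p) ≠ 0` is an eigenvector, and `u = ‖v‖⁻¹ [[conj v₁, conj v₂],[-v₂, v₁]] ∈ SU(2)` satisfies `u X u* = diag(λ, 1/λ)`; `u` fixes `oo`.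
Finally `diag(e^(iθ), e^(-iθ))` fixes `oo` and the points with diagonal matrix, and multiplies the (0,1) entry of the third matrix by `e^(2iθ)`: make it real. A point is real iff the (0,1) entry of its matrix is. -/
def StREA : Prop := ∀ x0 ∈ up, ∀ x2 ∈ up, ∀ x3 ∈ up, ∃ g : SL,
  cj (ga g x0) = ga g x0 ∧ cj (ga g x2) = ga g x2 ∧ cj (ga g x3) = ga g x3

/-- K3Z (all integrals of the kernel over one variable vanish).

Proof. (1) `∫ Dl y x1 x2 x3 kk x1 y dy`: the trace is linear in `Xm y`, so by MTX it is `cM Dl x1 x1 x2 x3 = 0` (DLF (5)); the factors `kk x1 x2 kk x1 x3` are constant. (3), (4) the same (linear in `Xm y`, respectively in `(Xm y)⁻¹`): `cM Dl x0 x1 x1 x3 = 0`, `cM Dl x0 x1 x2 x1 = 0`. (2) `REA`: by DLF (2) and VOL (2) (substitution `y = ga g⁻¹ y'`) we may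
replace the points by `ga g x0, ga g x2, ga g x3`, that is assume `cj xi = xi`. Then by VOL (3) `∫ KK x0 y x2 x3 dy = ∫ KK x0 (cj y) x2 x3 dy = ∫ KK (cj x0) (cj y) (cj x2) (cj x3) dy = -∫ KK x0 y x2 x3 dy` (DLF (3); `kk` is symmetric on `up`). (The invariance statements VOL are for `lintegral`; they say that the maps are measure preserving.) -/
def StK3Z : Prop := ∀ x0 ∈ up, ∀ x1 ∈ up, ∀ x2 ∈ up, ∀ x3 ∈ up,
  ∫ y, KK y x1 x2 x3 ∂vol = 0 ∧ ∫ y, KK x0 y x2 x3 ∂vol = 0 ∧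
  ∫ y, KK x0 x1 y x3 ∂vol = 0 ∧ ∫ y, KK x0 x1 x2 y ∂vol = 0

/-- CON (the constant is positive).

Proof. Everything is bounded on the support, which has finite volume (KRN). Put `κ = ∫ kk oo y (Re y.1)²/y.2 > 0`. By the substitutions `y = (e^(iθ) y'.1, y'.2)` (`ga` of a diagonal matrix) all integrals `∫ kk oo y (Re y.1) φ(|y.1|,y.2)`, `∫ kk oo y (Im y.1) φ(|y.1|,y.2)`, `∫ kk oo y (Re y.1)(Im y.1) φ(|y.1|,y.2)` vanish and `∫ kk oo y (Im y.1)²/y.2 = κ`.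
With `Y = Xm y`, `σx = [[0,1],[1,0]]`, `σy = [[0,-i],[i,0]]`, `σz = diag(1,-1)`: `∫ kk (Re y.1) Y = κ σx`, `∫ kk (Im y.1) Y = -κ σy`, `∫ kk (Re y.1) Y⁻¹ = -κ σx`, `∫ kk (Im y.1) Y⁻¹ = κ σy`. So (Fubini) `∫∫ kk kk dt2 y2.1 y3.1 Y₂ Y₃⁻¹ = κ²(σx σy - σy σx) = 2 i κ² σz`, and
`cK = 2 κ² ∫ kk oo y log y.2 (Y 0 0 - Y 1 1)` (real entries). `log y.2 = -log (Y 1 1)`, and the substitution by `gJ` exchanges `Y 0 0` and `Y 1 1`, so `cK = κ² ∫ kk oo y (log Y 0 0 - log Y 1 1)(Y 0 0 - Y 1 1) > 0` (the integrand is nonnegative and positive where `|y.1|²+y.2² ≠ 1`). -/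
def StCON : Prop := 0 < cK ∧
  Integrable (fun p => KK p.1 oo p.2.1 p.2.2 * Real.log p.1.2 * dt2 p.2.1.1 p.2.2.1) vol3

/-! ### the area cocycle of the upper half plane -/

/-- ARC.

Proof. `p = u+iv`, `q = u'+iv'`: `(p - conj q)/i = (v+v') - i (u-u')` has positive real part, so `be p q = -2 arctan ((u-u')/(v+v'))`. (1), (2), (3) clear (`be p p = 0`, antisymmetry). (4) `σ = [[a,b],[c,d]]` real: `Im (mb σ p) = Im p/|cp+d|²`, `cp+d ≠ 0`. (5) `mb σ p - conj (mb σ q) = (p - conj q)/((cp+d)(c conj q + d))`, hence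
`arg ((mb σ p - conj mb σ q)/i) ≡ arg ((p - conj q)/i) - arg (cp+d) + arg (cq+d)` mod `2π`, and the sum over the three pairs gives `Ar (σp) (σq) (σr) - Ar p q r ∈ 4πℤ`. The difference is continuous on the connected (convex) set `HP × HP × HP` (`arg` is continuous on the right half plane) and zero for `p = q = r`. (6) clear.
(7) `v = Im p`, `h = Im δ`, `k = Im ε`, `r0 =` half of the minimum of `v` on `K`. `Ar p (p+δ) (p+ε) = 2 arctan (Re δ/(2v+h)) + 2 arctan ((Re ε - Re δ)/(2v+h+k)) - 2 arctan (Re ε/(2v+k))`. `|arctan x - x| ≤ |x|³`, `|1/(2v+h) - 1/(2v) + h/(4v²)| ≤ C h²`, so up to `C (|δ|+|ε|)³` the sum is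
`2 Re δ (1/(2v) - h/(4v²)) + 2 (Re ε - Re δ)(1/(2v) - (h+k)/(4v²)) - 2 Re ε (1/(2v) - k/(4v²)) = (Re δ k - Re ε h)/(2v²)`. -/
def StARC : Prop :=
  (∀ p ∈ HP, ∀ q ∈ HP, be q p = - be p q ∧ |be p q| ≤ Real.pi) ∧
  (∀ p ∈ HP, ∀ q ∈ HP, ∀ r ∈ HP, |Ar p q r| ≤ 3 * Real.pi) ∧
  (∀ p ∈ HP, ∀ q ∈ HP, ∀ r ∈ HP, ∀ s ∈ HP, Ar q r s = Ar p r s - Ar p q s + Ar p q r) ∧
  (∀ σ : SL, IsR σ → ∀ p ∈ HP, mb σ p ∈ HP ∧ σ 1 0 * p + σ 1 1 ≠ 0 ∧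
    (mb σ p).im = p.im / ‖σ 1 0 * p + σ 1 1‖ ^ 2) ∧
  (∀ σ : SL, IsR σ → ∀ p ∈ HP, ∀ q ∈ HP, ∀ r ∈ HP, Ar (mb σ p) (mb σ q) (mb σ r) = Ar p q r) ∧
  Measurable (fun p : ℂ × ℂ × ℂ => Ar p.1 p.2.1 p.2.2) ∧
  (∀ K : Set ℂ, IsCompact K → K ⊆ HP → ∃ C > 0, ∃ r0 > 0, ∀ p ∈ K, ∀ δ ε : ℂ, ‖δ‖ ≤ r0 →
    ‖ε‖ ≤ r0 → |Ar p (p + δ) (p + ε) - dt2 δ ε / (2 * p.im ^ 2)| ≤ C * (‖δ‖ + ‖ε‖) ^ 3)

/-! ### signed versions of the exchange and of the unfolding -/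

/-- SWS (signed exchange).

Proof. `H` is integrable for `(μ.restrict D).prod μ`; apply SW0 (`b = a`, `T = S`, `D' = D`, `ν = μ`) to `ofReal (H x y)` and to `ofReal (-H x y)`, Tonelli for the right sides, and `integral_eq_lintegral_pos_part_sub_lintegral_neg_part`, `integral_prod`. The second finiteness claim is SW0 for `ofReal |H|`. -/
def StSWS : Prop := ∀ (Γ : Type) [Group Γ] [Countable Γ] (α : Type) [MeasurableSpace α]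
  (a : Γ → α → α) (S D : Set α) (μ : Measure α) [SigmaFinite μ] (H : α → α → ℝ),
  ActOn a S μ → FDOn a S D → Measurable (fun p : α × α => H p.1 p.2) →
  (∀ (γ : Γ), ∀ x ∈ S, ∀ y ∈ S, H (a γ x) (a γ y) = H x y) →
  ∫⁻ x in D, ∫⁻ y, ENNReal.ofReal |H x y| ∂μ ∂μ ≠ ∞ →
  ∫ x in D, ∫ y, H x y ∂μ ∂μ = ∫ y in D, ∫ x, H x y ∂μ ∂μ ∧
  ∫⁻ y in D, ∫⁻ x, ENNReal.ofReal |H x y| ∂μ ∂μ ≠ ∞

/-- UNF (signed unfolding).

Proof. SW1 (1) for `ofReal (f x)` and for `ofReal (-f x)` with `ψ' = ofReal ψ`: `∫_D ofReal f = ∫_D ofReal f · ∑' ψ'(γx) = ∫ ofReal f · ψ'`; subtract. -/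
def StUNF : Prop := ∀ (Γ : Type) [Group Γ] [Countable Γ] (α : Type) [MeasurableSpace α]
  (a : Γ → α → α) (S D : Set α) (μ : Measure α) [SigmaFinite μ] (f ψ : α → ℝ),
  ActOn a S μ → FDOn a S D → Measurable f → Measurable ψ → (∀ x, 0 ≤ ψ x) →
  (∀ (γ : Γ), ∀ x ∈ S, f (a γ x) = f x) →
  (∀ x ∈ S, f x ≠ 0 → ∑' γ : Γ, ENNReal.ofReal (ψ (a γ x)) = 1) →
  ∫⁻ x in D, ENNReal.ofReal |f x| ∂μ ≠ ∞ →
  ∫ x in D, f x ∂μ = ∫ x, f x * ψ x ∂μ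

/-! ### the equivariant map and asymptotics near `A` -/

/-- ARE (the two invariant areas).

Proof. (1) `rX F (γξ) = rX F ξ |cξ+d|⁴`: differentiate `F (γξ) = σ (F ξ)`: `F'(γξ) (cξ+d)⁻² = F'(ξ) (c'F+d')⁻²`, and `Im (mb σ p) = Im p/|c'p+d'|²` (ARC (4)). (2) `rX F` and `(aw B).toReal` are continuous on `A`, the second is positive (AWB), and the quotient is invariant (AWB (4)); `A = ΓKA` (CPA), so `rX F ≤ C aw B` on `A`.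
(3) `∫_DA aw B = mA DA`, and SW1 (1) for the action on `A`, `f = 1`, `ψ = 1_KA`: `mA DA ≤ ∫_DA ∑' γ, 1_KA (γξ) dmA = mA KA < ∞` (`aw B` is bounded on `KA`). (4) measurable: `deriv F` is continuous on the open set `A`; `rX F ≥ 0`. -/
def StARE : Prop := ∀ (Γ : Type) [Group Γ] (ρ : Γ →* SL) (A B : Set ℂ), KD ρ A B →
  ∀ (F : ℂ → ℂ) (σ : Γ →* SL), CF ρ A F σ → ∀ DA : Set ℂ, FDOn (ab ρ) A DA →
  (∀ γ : Γ, ∀ ξ ∈ A, rX F (mb (ρ γ) ξ) = rX F ξ * ‖ρ γ 1 0 * ξ + ρ γ 1 1‖ ^ 4) ∧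
  ContinuousOn (rX F) A ∧ ContinuousOn (deriv F) A ∧
  (∃ C > 0, ∀ ξ ∈ A, rX F ξ ≤ C * (aw B ξ).toReal) ∧
  ∫⁻ ξ in DA, aw B ξ ≠ ∞ ∧ IntegrableOn (rX F) DA

/-- PIX (the equivariant map).

Proof. Let `KA` be as in CPA, `V` open, `KA ⊆ V`, closure of `V` compact and contained in `A`, `U = V × (0,1)`, `D` the fundamental domain of PD3 (1) for `U`. For `x ∈ up` let `γ` be the unique element with `γx ∈ D`, and put `Pi x = mb (σ γ⁻¹) (F (γx).1)` if `γx ∈ U`, `Pi x = mb (σ γ⁻¹) i` if `γx ∉ U`; `Pi x = i` if `x ∉ up`. Measurable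
(countably many measurable pieces, on each piece a composition of continuous functions, `F` continuous on `A`); values in `HP` (ARC (4), `img`); equivariant: the element for `δx` is `γδ⁻¹`, and `mb (σ δ) (mb (σ γ⁻¹) p) = mb (σ (δγ⁻¹)) p` (CHV (2) with ARC (4)). Estimate: let `K ⊆ A` be compact. For every `z ∈ K` there is `δ` with `δz ∈ KA ⊆ V`; by
compactness and continuity there are finitely many `δ_i` and `t0 > 0` such that for `z ∈ K`, `0 < t < t0` some `δ_i (z,t)` is in `U` (`(ga g x).1 → mb g z` and `(ga g x).2 → 0` as `x → (z,0)`). Let `x = (z,t)` be such a point, `γx ∈ D`: `γx ∈ D` has a translate in `U`, so `γx ∈ U`. By PD2 (`K`, closure of `V`) `γ` is in a finite set. For these `γ`: `|(γx).1 - γz| ≤ C t²` for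
`z ∈ K` (ACT (6), `cz+d` is bounded away from `0` on `K`), the points `(γx).1` are in `V`, so for small `t` the segment from `(γx).1` to `γz` is in a compact subset of `A`, `|F (γx).1 - F (γz)| ≤ C t²`; `mb (σ γ⁻¹)` is Lipschitz on compact subsets of `HP` (CHV (3)), and `mb (σ γ⁻¹) (F (γz)) = F z`. -/
def StPIX : Prop := ∀ (Γ : Type) [Group Γ] (ρ : Γ →* SL) (A B : Set ℂ), KD ρ A B →
  ∀ (F : ℂ → ℂ) (σ : Γ →* SL), CF ρ A F σ → ∃ Pi : Pt → ℂ, PIH ρ σ Pi ∧ PIA A F Pi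

/-- ASV (harmonic measure near `A`).

Proof. (1) upper bound: HME (7), `aw B` bounded on `K` (AWB). Lower bound: `B` contains a closed disc `B₀` (open, nonempty); for `z ∈ K`, `η ∈ B₀`, `t ≤ T`: `|z-η|²+t² ≤ M`, so `hv B (z,t) ≥ (1/π) |B₀| t²/M²`. (2) `hv B x/x.2² = (1/π) ∫_B (|x.1-η|²+x.2²)⁻² dη`; if `B(z,2r) ⊆ A` and `|x.1-z| < r` then `|x.1-η| ≥ |z-η|/2` for `η ∈ B`, so the integrand
is at most `16 |z-η|⁻⁴`, integrable on `B` (`aw B z ≠ ∞`); dominated convergence. -/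
def StASV : Prop := ∀ (Γ : Type) [Group Γ] (ρ : Γ →* SL) (A B : Set ℂ), KD ρ A B →
  (∀ (K : Set ℂ) (T : ℝ), IsCompact K → K ⊆ A → ∃ c > 0, ∃ C > 0, ∀ z ∈ K, ∀ t : ℝ, 0 < t → t ≤ T →
    c * t ^ 2 ≤ hv B (z, t) ∧ hv B (z, t) ≤ C * t ^ 2) ∧
  (∀ z ∈ A, Tendsto (fun x : Pt => hv B x / x.2 ^ 2) (𝓝[up] (z, 0))
    (𝓝 ((aw B z).toReal / Real.pi)))

/-- ASO (the area cocycle near `A`).

Proof. Let `K' ⊆ A` be a compact neighbourhood of `K`; for `z ∈ K`, `|ζ| ≤ R`, small `t`: `z + tζ ∈ K'`. By PIA for `K'` (heights `t τ ≤ t R`) `Pi (z,t) = F z + O(t²)`, `Pi (z+tζ, tτ) = F (z+tζ) + O(t²) = F z + t F'(z) ζ + O(t²)` (Taylor; `F''` is bounded on a compact neighbourhood; all constants uniform). ARC (7) with `p = Pi (z,t)` (in a compact neighbourhood of `F '' K` in `HP`),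
`δ = t F'(z) ζ₂ + O(t²)`, `ε = t F'(z) ζ₃ + O(t²)`: `dt2 δ ε = t² |F'(z)|² dt2 ζ₂ ζ₃ + O(t³)` (`dt2 (wa) (wb) = |w|² dt2 a b`), `1/(Im p)² = 1/(Im F z)² + O(t²)`. -/
def StASO : Prop := ∀ (Γ : Type) [Group Γ] (ρ : Γ →* SL) (A B : Set ℂ), KD ρ A B →
  ∀ (F : ℂ → ℂ) (σ : Γ →* SL), CF ρ A F σ → ∀ Pi : Pt → ℂ, PIH ρ σ Pi → PIA A F Pi →
  ∀ (K : Set ℂ) (R : ℝ), IsCompact K → K ⊆ A → ∃ C > 0, ∃ t0 > 0, ∀ z ∈ K, ∀ t : ℝ, 0 < t →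
    t < t0 → ∀ y2 y3 : Pt, 0 < y2.2 → 0 < y3.2 → y2.2 ≤ R → y3.2 ≤ R → ‖y2.1‖ ≤ R → ‖y3.1‖ ≤ R →
    |Ar (Pi (z, t)) (Pi (mv (z, t) y2)) (Pi (mv (z, t) y3)) -
      t ^ 2 * (rX F z / 2 * dt2 y2.1 y3.1)| ≤ C * t ^ 3

/-- PSI (weights near `A`).

Proof. `KA` as in CPA, `χ : ℂ → [0,1]` continuous, equal to `1` on `KA`, with compact support `KS ⊆ A`. For `x ∈ up` let `N x = ∑' γ, χ((γx).1) 1_((γx).2 < T)` (finitely many terms: PD2 with `K₃ = {x}`, `K' = KS`), an invariant function, and `ψ x = χ(x.1) 1_(x.2<T)/N x` for `x ∈ up`, `0` elsewhere (`N x` is at least the numerator, the term `γ = 1`). `δ₀`: CPA (3) for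
`t₁ = T`; if `hv B x < δ₀` then `N x ≥ 1` and `∑' γ, ψ(γx) = N x/N x`. For `z ∈ A`: `NA z = ∑' γ, χ(γz) ≥ 1` (CPA (1), PD2), `ψA z = χ z/NA z` (`0` outside `A`). Limit: let `K ⊆ A` be a compact neighbourhood of `z`; by PD2 (first set, `K`, `KS`) only finitely many `γ` contribute to `N x` for `x.1 ∈ K`, `x.2 ≤ 1`, and each term converges to `χ(γz)`
(`(ga g x).1 → mb g z`, `(ga g x).2 → 0`, ACT). -/
def StPSI : Prop := ∀ (Γ : Type) [Group Γ] (ρ : Γ →* SL) (A B : Set ℂ), KD ρ A B → ∀ T > 0,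
  ∃ (KS : Set ℂ) (ψ : Pt → ℝ) (ψA : ℂ → ℝ) (δ₀ : ℝ), IsCompact KS ∧ KS ⊆ A ∧ 0 < δ₀ ∧
  Measurable ψ ∧ Measurable ψA ∧ (∀ x, 0 ≤ ψ x ∧ ψ x ≤ 1) ∧ (∀ z, 0 ≤ ψA z ∧ ψA z ≤ 1) ∧
  (∀ x, ψ x ≠ 0 → x.1 ∈ KS ∧ 0 < x.2 ∧ x.2 < T) ∧ (∀ z, ψA z ≠ 0 → z ∈ KS) ∧
  (∀ x ∈ up, hv B x < δ₀ → ∑' γ : Γ, ENNReal.ofReal (ψ (au ρ γ x)) = 1) ∧
  (∀ z ∈ A, ∑' γ : Γ, ENNReal.ofReal (ψA (ab ρ γ z)) = 1) ∧
  (∀ z ∈ A, Tendsto ψ (𝓝[up] (z, 0)) (𝓝 (ψA z)))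

/-! ### the flux -/

/-- QQB (the kernel integrated over two points).

Proof. The integrand of `QQ Pi x1 x0` is jointly measurable (DLF, CHI (6), `Pi` and ARC (6)), so `QQ` is (parameter integral, `StronglyMeasurable.integral_prod_right`). Bound: `|Dl| ≤ 53` on the support, `|Ar| ≤ 3π`, `∫∫ kk kk = VV²` (KRN; points of `up` a.e.). Invariance: the map `(p,q) ↦ (γp,γq)` preserves `vol.prod vol` (VOL (2)); DLF (2), CHI (2), `PIH.eq`, ARC (5). -/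
def StQQB : Prop := ∀ (Γ : Type) [Group Γ] (ρ σ : Γ →* SL), (∀ γ : Γ, IsR (σ γ)) →
  ∀ Pi : Pt → ℂ, PIH ρ σ Pi →
  Measurable (fun p : Pt × Pt => QQ Pi p.1 p.2) ∧
  (∀ x1 ∈ up, ∀ x0 ∈ up, ch x1 x0 ≤ 2 → |QQ Pi x1 x0| ≤ CQ) ∧
  (∀ γ : Γ, ∀ x1 ∈ up, ∀ x0 ∈ up, QQ Pi (au ρ γ x1) (au ρ γ x0) = QQ Pi x1 x0) ∧
  (∀ x1 ∈ up, ∀ x0 ∈ up, ch x1 x0 ≤ 2 → Integrable (fun p : Pt × Pt => Dl x0 x1 p.1 p.2 *
    kk x1 p.1 * kk x1 p.2 * Ar (Pi x1) (Pi p.1) (Pi p.2)) (vol.prod vol))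

/-- FLA (absolute convergence, linearity and bound of the flux).

Proof. For `x ∈ up` the integrand of `Gf Pi f x` is at most `CQ kk x y |f x - f y|` for almost all `y` (QQB), integrable because `f` is bounded (KRN). So `|Gf Pi f x| ≤ CQ (∫⁻ ofReal (kk x y |f x - f y|) dy).toReal`; measurability of `Gf` as a parameter integral. Linear: `integral_sub`. -/
def StFLA : Prop := ∀ (Γ : Type) [Group Γ] (ρ σ : Γ →* SL), (∀ γ : Γ, IsR (σ γ)) →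
  ∀ Pi : Pt → ℂ, PIH ρ σ Pi → ∀ D : Set Pt, MeasurableSet D → ∀ f : Pt → ℝ, Measurable f →
  (∃ M : ℝ, ∀ x, |f x| ≤ M) →
  Measurable (Gf Pi f) ∧
  (∀ x ∈ up, Integrable (fun y => kk x y * (f x - f y) * QQ Pi x y) vol ∧
    |Gf Pi f x| ≤ CQ * (∫⁻ y, ENNReal.ofReal (kk x y * |f x - f y|) ∂vol).toReal) ∧
  (TV D f ≠ ∞ → IntegrableOn (Gf Pi f) D vol ∧ |Fl D Pi f| ≤ CQ * (TV D f).toReal) ∧
  (∀ f' : Pt → ℝ, Measurable f' → (∃ M : ℝ, ∀ x, |f' x| ≤ M) → TV D f ≠ ∞ → TV D f' ≠ ∞ →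
    Fl D Pi (fun x => f x - f' x) = Fl D Pi f - Fl D Pi f')

/-- FL0 (functions with integrable support have zero flux).

Proof. `Om(x,y,z) = Ar (Pi x) (Pi y) (Pi z)`. (a) `Gf Pi f x1 = ∫ kk x1 x0 f(x1) QQ - ∫ kk x1 x0 f(x0) QQ`. First part: by Fubini (everything bounded with support of finite volume) `f(x1) ∫_(x2,x3) Om(x1,x2,x3) ∫_(x0) KK x0 x1 x2 x3 = 0` (K3Z (1)). (b) Second part: cocycle identity ARC (3) with `p = Pi x0`, `q = Pi x1`, `r = Pi x2`, `s = Pi x3`: `Om(x1,x2,x3) = Om(x0,x2,x3) - Om(x0,x1,x3) + Om(x0,x1,x2)`.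
In the integral over `(x2,x3)` of the last two terms integrate first over `x2`, respectively over `x3`: zero by K3Z (3), (4). So `kk x1 x0 QQ Pi x1 x0 = kk x1 x0 R(x1,x0)`, `R(x1,x0) = ∫_(x2,x3) Dl x0 x1 x2 x3 kk x1 x2 kk x1 x3 Om(x0,x2,x3)`, for `x0, x1 ∈ up`; `R` is measurable, bounded by `CQ` if `ch x1 x0 ≤ 2`, invariant (as QQB). (c) SWS for `H x1 x0 = kk x1 x0 f(x0) R(x1,x0)`:
finiteness: `∫_(x1∈D) ∫ |H| ` equals by SW0 `∫_(x0∈D) ∫_(x1) |H| ≤ CQ VV ∫_D |f| < ∞` (apply SWS to `H' x0 x1 = H x1 x0`). So `∫_(x1∈D) ∫_(x0) H = ∫_(x0∈D) f(x0) ∫_(x1) kk x1 x0 R(x1,x0)`, and the inner integral is (Fubini) `∫_(x2,x3) Om(x0,x2,x3) ∫_(x1) KK x0 x1 x2 x3 = 0` (K3Z (2); the integrand is bounded and vanishes unless `x1, x2, x3` are in balls around `x0` of finite volume: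
`ch x0 x2 ≤ 8` by CHI (3)). -/
def StFL0 : Prop := ∀ (Γ : Type) [Group Γ] (ρ : Γ →* SL) (A B : Set ℂ), KD ρ A B →
  ∀ σ : Γ →* SL, (∀ γ : Γ, IsR (σ γ)) → ∀ Pi : Pt → ℂ, PIH ρ σ Pi →
  ∀ D : Set Pt, FDOn (au ρ) up D → ∀ f : Pt → ℝ, Measurable f → (∃ M : ℝ, ∀ x, |f x| ≤ M) →
  (∀ γ : Γ, ∀ x ∈ up, f (au ρ γ x) = f x) → ∫⁻ x in D, ENNReal.ofReal |f x| ∂vol ≠ ∞ →
  Fl D Pi f = 0

/-- FLB (the indicator functions have finite total variation).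

Proof. Let `f = fi B δ`, `0 < δ < 1`, `ch x y ≤ 2`, `f x ≠ f y`. Harnack (HME (4)) for `v = hv B` and `w = hv A = 1 - v`. If `v x < δ ≤ v y` then `δ/l² ≤ v y/l² ≤ v x < δ`; if `v y < δ ≤ v x` then `v x ≥ δ` and `w x ≥ w y/l² > (1-δ)/l²`. So `x` is in the set of FVS for `ε = min (δ/l²) ((1-δ)/l²)`, and `TV D f ≤ VV vol (D ∩ ...) < ∞`. Last claims: `δ < 1/l²`: in both cases `δ/l² ≤ v x < l² δ`.
`f` is invariant and measurable (HME (3), ACU). (5): the difference of two such functions vanishes off `{min ≤ v < max}`, a set as in FVS. -/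
def StFLB : Prop := ∀ (Γ : Type) [Group Γ] (ρ : Γ →* SL) (A B : Set ℂ), KD ρ A B →
  ∀ D : Set Pt, FDOn (au ρ) up D → ∀ δ ∈ Ioo (0 : ℝ) 1,
  Measurable (fi B δ) ∧ (∀ x, |fi B δ x| ≤ 1) ∧ (∀ γ : Γ, ∀ x ∈ up, fi B δ (au ρ γ x) = fi B δ x) ∧
  TV D (fi B δ) ≠ ∞ ∧
  (∀ δ' ∈ Ioo (0 : ℝ) 1, ∫⁻ x in D, ENNReal.ofReal |fi B δ x - fi B δ' x| ∂vol ≠ ∞) ∧
  (∀ x ∈ up, ∀ y ∈ up, ch x y ≤ 2 → fi B δ x ≠ fi B δ y →
    δ / ll ^ 2 ≤ hv B x ∧ hv B x < ll ^ 2 * δ ∧ (1 - δ) / ll ^ 2 ≤ hv A x)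

/-- FLI (the flux does not depend on the level).

Proof. FL0 for `fi B δ - fi B δ'` (FLB) and linearity (FLA). -/
def StFLI : Prop := ∀ (Γ : Type) [Group Γ] (ρ : Γ →* SL) (A B : Set ℂ), KD ρ A B →
  ∀ σ : Γ →* SL, (∀ γ : Γ, IsR (σ γ)) → ∀ Pi : Pt → ℂ, PIH ρ σ Pi →
  ∀ D : Set Pt, FDOn (au ρ) up D → ∀ δ ∈ Ioo (0 : ℝ) 1, ∀ δ' ∈ Ioo (0 : ℝ) 1,
  Fl D Pi (fi B δ) = Fl D Pi (fi B δ')

/-- FLS (substitution in the flux density).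

Proof. `x1 = ga g oo`, `mv x1 y = ga g y`, `g = gx x1` (ACT (5)). `Gf Pi f x1 = ∫_(x0) ∫_(x2,x3) KK x0 x1 x2 x3 (f x1 - f x0) Om(x1,x2,x3)` (pull the factor `kk x1 x0 (f x1 - f x0)` into the integral `QQ`), this is the integral for `vol3` (Fubini; bounded with support of finite volume), and the map `p ↦ (ga g p.1, ga g p.2.1, ga g p.2.2)` preserves `vol3` (VOL (2)); DLF (2). -/
def StFLS : Prop := ∀ (Γ : Type) [Group Γ] (ρ σ : Γ →* SL), (∀ γ : Γ, IsR (σ γ)) →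
  ∀ Pi : Pt → ℂ, PIH ρ σ Pi → ∀ f : Pt → ℝ, Measurable f → (∃ M : ℝ, ∀ x, |f x| ≤ M) →
  ∀ x ∈ up, Gf Pi f x = ∫ p, KK p.1 oo p.2.1 p.2.2 * (f x - f (mv x p.1)) *
    Ar (Pi x) (Pi (mv x p.2.1)) (Pi (mv x p.2.2)) ∂vol3

open Classical in
/-- the limit of the flux density (up to the factor `rX F z/2`) at height `r`, level `c` -/
noncomputable def II (c r : ℝ) : ℝ := ∫ p, KK p.1 oo p.2.1 p.2.2 *
  ((if r < c then 1 else 0) - (if r * p.1.2 < c then 1 else 0)) * dt2 p.2.1.1 p.2.2.1 ∂vol3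

/-- INT (the integral of the limit density).

Proof. On the support of `KK p.1 oo p.2.1 p.2.2`: `1/l ≤ p.1.2 ≤ l`, so the difference of the indicator functions vanishes unless `c/l ≤ r ≤ c l` (1). Everything is bounded there (DLF (4), CHI (4)) with support of finite `vol3` measure. Fubini on `(0,∞) × vol3` with the factor `1/r`, and for `τ > 0`: `∫_(0,∞) (1_(r<c) - 1_(rτ<c)) dr/r = log τ` (for `τ ≥ 1` it is `∫ over [c/τ,c)`, for `τ < 1` minus the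
integral over `[c,c/τ)`). -/
def StINT : Prop := ∀ c : ℝ, 0 < c →
  (∀ r : ℝ, 0 < r → (r < c / ll ∨ c * ll < r) → II c r = 0) ∧
  (∃ M : ℝ, ∀ c' r : ℝ, |II c' r| ≤ M) ∧ Measurable (fun q : ℝ × ℝ => II q.1 q.2) ∧
  IntegrableOn (fun r => II c r / r) (Ioi 0) ∧ ∫ r in Ioi (0 : ℝ), II c r / r = cK

/-- FLG (the flux density near `A`).

Proof. FLS for `f = fi B δ`, `x = (z,t)`, `t = √δ r`. On the support of `KK p.1 oo p.2.1 p.2.2`: `|p.i.1| ≤ R'`, `1/l ≤ p.i.2 ≤ l` (CHI (4), (5)). (1) by ASO `|Ar (Pi x) (Pi (mv x y2)) (Pi (mv x y3))| ≤ C t²` for `z ∈ K`, `t < t0`, which holds if `δ < δ₁ = (t0/R)²`; `|KK| ≤ 53` (DLF (4)), `t² = δ r²`, and the measure of the support is `VV³`. (2) Dominated convergence (bound from (1), on the support): as `δ → 0`: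
`δ⁻¹ Ar(...) → r² (rX F z/2) dt2 y2.1 y3.1` (ASO, `t³/δ → 0`). `hv B (z,t) < δ` iff `r² (hv B (z,t)/t²) < 1`, and `hv B (z,t)/t² → a/π`, `a = (aw B z).toReal` (ASV (2)); so if `r² a ≠ π` the indicator converges to that of `r² a < π`, i.e. of `r < √(π/a)`. In the same way, as `mv x y0 → (z,0)`, `fi B δ (mv x y0) → 1` or `0` according to `r y0.2 < √(π/a)` or `>`; the set of `p` with
`r p.1.2 = √(π/a)` is a null set (VOL (1)). -/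
def StFLG : Prop := ∀ (Γ : Type) [Group Γ] (ρ : Γ →* SL) (A B : Set ℂ), KD ρ A B →
  ∀ (F : ℂ → ℂ) (σ : Γ →* SL), CF ρ A F σ → ∀ Pi : Pt → ℂ, PIH ρ σ Pi → PIA A F Pi →
  (∀ (K : Set ℂ) (R : ℝ), IsCompact K → K ⊆ A → 0 < R → ∃ C > 0, ∃ δ₁ > 0, ∀ z ∈ K, ∀ r : ℝ, 0 < r →
    r ≤ R → ∀ δ : ℝ, 0 < δ → δ < δ₁ → |Gf Pi (fi B δ) (z, Real.sqrt δ * r)| ≤ C * (δ * r ^ 2)) ∧
  (∀ z ∈ A, ∀ r : ℝ, 0 < r → r ^ 2 * (aw B z).toReal ≠ Real.pi →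
    Tendsto (fun δ : ℝ => Gf Pi (fi B δ) (z, Real.sqrt δ * r) / δ) (𝓝[>] 0)
      (𝓝 (r ^ 2 * (rX F z / 2 * II (Real.sqrt (Real.pi / (aw B z).toReal)) r))))

/-- FLL (the flux of the indicator functions near `A`).

Proof. Let `KS, ψ, ψA, δ₀` be as in PSI (`T = 1`), `c t² ≤ v(z,t) ≤ C t²` for `z ∈ KS`, `t ≤ 1` (ASV). Let `δ < min(δ₀/l², 1/l²)`, `G = Gf Pi (fi B δ)`. `G x ≠ 0` implies (FLB) `δ/l² ≤ v x < l² δ < δ₀`; `G` is invariant on `up` (QQB, VOL (2), FLB) and integrable on `D` (FLA, FLB). UNF: `Fl D Pi (fi B δ) = ∫ G ψ dvol = ∫_(z∈KS) ∫_(0<t<1) G(z,t) ψ(z,t) t⁻³ dt dz` (VOL (1) and Fubini)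
`= ∫_(z∈KS) ∫_(r>0) δ⁻¹ G(z,√δ r) ψ(z,√δ r) r⁻³ dr dz` (`t = √δ r`). The integrand vanishes unless `r1 ≤ r ≤ r2`, `r1 = 1/(l √C)`, `r2 = l/√c` (because `δ/l² ≤ v ≤ C δ r²` and `c δ r² ≤ v < l² δ`), and is bounded there (FLG (1) for `K = KS`, `R = r2`). Dominated convergence on `KS × [r1,r2]` as `δ → 0` (for almost all `(z,r)`: `r² a(z) ≠ π`), FLG (2) and `ψ(z,√δ r) → ψA z` (PSI): the limit is
`∫_(z∈KS) ψA z (rX F z/2) ∫_(r1≤r≤r2) II (√(π/a(z))) r dr/r dz`. For `z ∈ KS`: `c ≤ a(z)/π ≤ C` (ASV (2)), so `II` vanishes outside `[r1,r2]` (INT (1)) and the inner integral is `cK` (INT). Finally `∫_A ψA rX F = ∫_DA rX F`: UNF for the action on `A` (measure `mA A B`, ACU) and `f = rX F/(aw B).toReal` on `A` (ARE). -/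
def StFLL : Prop := ∀ (Γ : Type) [Group Γ] (ρ : Γ →* SL) (A B : Set ℂ), KD ρ A B →
  ∀ (F : ℂ → ℂ) (σ : Γ →* SL), CF ρ A F σ → ∀ Pi : Pt → ℂ, PIH ρ σ Pi → PIA A F Pi →
  ∀ (D : Set Pt) (DA : Set ℂ), FDOn (au ρ) up D → FDOn (ab ρ) A DA →
  Tendsto (fun δ : ℝ => Fl D Pi (fi B δ)) (𝓝[>] 0) (𝓝 (cK / 2 * ∫ ξ in DA, rX F ξ))

/-- primitive of `(s(1-s) - 1/8)₊` -/
noncomputable def Th (u : ℝ) : ℝ := ∫ s in (0 : ℝ)..u, max (s * (1 - s) - 1 / 8) 0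

/-- FLT (layer cake).

Proof. `m s = max (s(1-s) - 1/8) 0`, zero unless `1/8 ≤ s ≤ 7/8`. For `x ∈ up`: `Th (hv A x) = ∫_(0<s<1) m s · fi B (1-s) x ds` (`s < w` iff `v < 1-s`). (1) Fubini in `Gf` (bounded integrands), and then in the integral over `D`: `Fl D Pi (Th ∘ hv A) = ∫_(0<s<1) m s · Fl D Pi (fi B (1-s)) ds`; absolute convergence: for `1/8 ≤ s ≤ 7/8` by FLB the difference `fi B (1-s) x - fi B (1-s) y` vanishes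
(for `ch x y ≤ 2`) unless `x` is in a fixed set `{ε ≤ hv A ≤ 1-ε}`, `ε = 1/(8 l²)`, of finite volume modulo `Γ` (FVS). FLI: `Fl D Pi (fi B (1-s)) = Fl D Pi (fi B δ)`. (`(s,x) ↦ fi B (1-s) x` is jointly measurable.) -/
def StFLT : Prop := ∀ (Γ : Type) [Group Γ] (ρ : Γ →* SL) (A B : Set ℂ), KD ρ A B →
  ∀ σ : Γ →* SL, (∀ γ : Γ, IsR (σ γ)) → ∀ Pi : Pt → ℂ, PIH ρ σ Pi →
  ∀ D : Set Pt, FDOn (au ρ) up D → ∀ δ ∈ Ioo (0 : ℝ) 1,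
  Fl D Pi (fun x => Th (hv A x)) = Th 1 * Fl D Pi (fi B δ)

/-- FLC (Cauchy-Schwarz).

Proof. `f = Th ∘ hv A`, measurable and bounded (`0 ≤ w ≤ 1` on `up`; off `up` use that `Th` is bounded: its derivative vanishes outside `[1/8,7/8]`). For `ch x y ≤ 2` and `s` between `w x` and `w y`: `s ≤ l² w x`, `1-s ≤ l² (1-w x)` (HME (4) for `A` and `B`), so `m s ≤ max (l⁴ w x (1-w x) - 1/8) 0 = l⁴ φ x`, `φ = max (w(1-w) - 1/(8l⁴)) 0`: `|f x - f y| ≤ l⁴ φ x |w x - w y|`. Hence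
`TV D f ≤ l⁴ ∫_D φ(x) ∫ kk x y |w x - w y| dy dx ≤ l⁴ (∫_D φ²)^(1/2) (∫_D (∫ kk |w x - w y| dy)² dx)^(1/2)` and `(∫ kk |w x - w y| dy)² ≤ VV en A x`. Squared: the claim. `TV D f` is finite because `φ` vanishes off `{ε ≤ w ≤ 1-ε}`, `ε = 1/(8 l⁴)` (FVS). -/
def StFLC : Prop := ∀ (Γ : Type) [Group Γ] (ρ : Γ →* SL) (A B : Set ℂ), KD ρ A B →
  ∀ D : Set Pt, FDOn (au ρ) up D →
  Measurable (fun x => Th (hv A x)) ∧ (∃ M : ℝ, ∀ x, |Th (hv A x)| ≤ M) ∧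
  TV D (fun x => Th (hv A x)) ≠ ∞ ∧
  TV D (fun x => Th (hv A x)) ^ 2 ≤ ENNReal.ofReal (ll ^ 8 * VV) *
    (∫⁻ x in D, ENNReal.ofReal (max (hv A x * (1 - hv A x) - 1 / (8 * ll ^ 4)) 0 ^ 2) ∂vol) *
    ∫⁻ x in D, en A x ∂vol

/-- THEOREM A -/
def StTHA : Prop := ∃ C0 > 0, ∀ (Γ : Type) [Group Γ] (ρ : Γ →* SL) (A B : Set ℂ), KD ρ A B →
  ∀ (F : ℂ → ℂ) (σ : Γ →* SL), CF ρ A F σ → ∀ DA : Set ℂ, FDOn (ab ρ) A DA →
  ∀ s ∈ Icc (1 : ℝ) 2, Summable (fun γ : Γ => hs (ρ γ) ^ (-s)) →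
  ∫⁻ ξ in DA, aw B ξ ≠ ∞ ∧
  (2 - s) * (∫ ξ in DA, rX F ξ) ^ 2 ≤ C0 * (∫⁻ ξ in DA, aw B ξ).toReal ^ 2

end Pool.Agent.Helper86.QA
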